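import Pool.Agent.P52.Cov.AddTr

/-!
# Small open sets absorbing many convergent sequences of open sets
-/

namespace Pool.Agent.P52.Cov

open MeasureTheory Set Filter Topology
open scoped ENNReal

/-- If a set of positive product measure is contained in a product then the complements of the
factors have summable measures. -/
theorem tsum_compl_ne_top {X : Type*} [MeasurableSpace X] (m : Measure X) [IsProbabilityMeasure m]
    (K : ℕ → Set X) (hK : ∀ n, MeasurableSet (K n)) {δ : ℝ≥0∞} (hδ : δ ≠ 0)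
    (h : ∀ N : ℕ, δ ≤ ∏ n ∈ Finset.range N, m (K n)) : ∑' n, m (K n)ᶜ ≠ ∞ := by
  have hδ1 : δ ≤ 1 := by simpa using h 0
  have hδtop : δ ≠ ∞ := ne_top_of_le_ne_top ENNReal.one_ne_top hδ1
  have hd : 0 < δ.toReal := ENNReal.toReal_pos hδ hδtop
  have hreal : ∀ n, (m (K n)).toReal = 1 - (m (K n)ᶜ).toReal := by
    intro n
    have h1 := prob_add_prob_compl (μ := m) (hK n)
    have h2 := congrArg ENNReal.toReal h1
    rw [ENNReal.toReal_add (measure_ne_top _ _) (measure_ne_top _ _), ENNReal.toReal_one] at h2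
    linarith
  have hsum : ∀ N : ℕ, ∑ n ∈ Finset.range N, (m (K n)ᶜ).toReal ≤ -Real.log δ.toReal := by
    intro N
    have h1 : δ.toReal ≤ ∏ n ∈ Finset.range N, (m (K n)).toReal := by
      rw [← ENNReal.toReal_prod]
      exact ENNReal.toReal_mono (ENNReal.prod_ne_top fun n _ => measure_ne_top _ _) (h N)
    have h2 : ∏ n ∈ Finset.range N, (m (K n)).toReal ≤
        ∏ n ∈ Finset.range N, Real.exp (-(m (K n)ᶜ).toReal) := by
      refine Finset.prod_le_prod (fun n _ => ENNReal.toReal_nonneg) fun n _ => ?_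
      rw [hreal n]
      have := Real.add_one_le_exp (-(m (K n)ᶜ).toReal)
      linarith
    rw [← Real.exp_sum, Finset.sum_neg_distrib] at h2
    have h3 := Real.log_le_log hd (h1.trans h2)
    rw [Real.log_exp] at h3
    linarith
  refine ne_top_of_le_ne_top (b := ENNReal.ofReal (-Real.log δ.toReal)) ENNReal.ofReal_ne_top ?_
  refine ENNReal.tsum_le_of_sum_range_le fun N => ?_
  rw [← ENNReal.ofReal_toReal (a := ∑ n ∈ Finset.range N, m (K n)ᶜ)
    (ENNReal.sum_ne_top.2 fun n _ => measure_ne_top _ _)]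
  refine ENNReal.ofReal_le_ofReal ?_
  rw [ENNReal.toReal_sum fun n _ => measure_ne_top _ _]
  exact hsum N

/-- A family of sequences of open sets such that almost no sequence of points meets one of them
infinitely often is eventually contained in a small open set. -/
theorem exists_absorbing {X : Type} [TopologicalSpace X] [CompactSpace X] [T2Space X]
    [SecondCountableTopology X] [MeasurableSpace X] [BorelSpace X] (m : Measure X)
    [IsProbabilityMeasure m] {ι : Type*} (B : ι → ℕ → Set X) (hB : ∀ j n, IsOpen (B j n))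
    (hnull : Measure.infinitePi (fun _ : ℕ => m) (⋃ j, {y | ∃ᶠ n in atTop, y n ∈ B j n}) = 0)
    {ε : ℝ≥0∞} (hε : ε ≠ 0) :
    ∃ V : Set X, IsOpen V ∧ m V ≤ ε ∧ ∀ j, ∃ n, B j n ⊆ V := by
  let P : Measure (ℕ → X) := Measure.infinitePi fun _ : ℕ => m
  have : TopologicalSpace.PseudoMetrizableSpace X := inferInstance
  obtain ⟨G, hHG, hGo, hG1⟩ := Set.exists_isOpen_lt_of_lt (μ := P)
    (⋃ j, {y : ℕ → X | ∃ᶠ n in atTop, y n ∈ B j n}) 1 (by
      rw [hnull]
      exact one_pos)
  let Q : Measure (ℕ → X) := P.restrict Gᶜ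
  have hQ0 : Q ≠ 0 := by
    intro h0
    have h1 : Q univ = P Gᶜ := Measure.restrict_apply_univ _
    rw [h0] at h1
    have h2 := prob_add_prob_compl (μ := P) hGo.measurableSet
    rw [← h1] at h2
    simp only [Measure.coe_zero, Pi.zero_apply, add_zero] at h2
    exact hG1.ne h2
  have hcl : IsClosed Q.support := Measure.isClosed_support
  have hsub : Q.support ⊆ Gᶜ := Measure.support_subset_of_isClosed hGo.isClosed_compl (by
    rw [mem_ae_iff, compl_compl]
    change P.restrict Gᶜ G = 0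
    rw [Measure.restrict_apply hGo.measurableSet, inter_compl_self, measure_empty])
  have hne : Q.support.Nonempty := Measure.nonempty_support hQ0
  have hnull' : Q Q.supportᶜ = 0 := Measure.measure_compl_support
  have hpos : ∀ O : Set (ℕ → X), IsOpen O → (O ∩ Q.support).Nonempty →
      P (Q.support ∩ O) ≠ 0 := by
    rintro O hO ⟨y, hyO, hy⟩ h0
    have h1 : 0 < Q O := (Measure.mem_support_iff_forall y).1 hy O (hO.mem_nhds hyO)
    refine h1.ne' (measure_mono_null (t := (Q.support ∩ O) ∪ Q.supportᶜ) ?_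
      (measure_union_null ?_ hnull'))
    · intro x hx
      by_cases h : x ∈ Q.support
      · exact Or.inl ⟨h, hx⟩
      · exact Or.inr h
    · exact Measure.absolutelyContinuous_of_le Measure.restrict_le_self h0
  let I : Set (Set (ℕ → X)) :=
    {O | O ∈ TopologicalSpace.countableBasis (ℕ → X) ∧ (O ∩ Q.support).Nonempty}
  have hIc : Countable I :=
    ((TopologicalSpace.countable_countableBasis (ℕ → X)).mono fun O hO => hO.1).to_subtype
  let R : Set (ℕ → X) → ℕ → Set X := fun O n => closure ((fun y : ℕ → X => y n) '' (Q.support ∩ O))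
  have hR : ∀ O n, MeasurableSet (R O n) := fun O n => isClosed_closure.measurableSet
  have hsum : ∀ O : I, ∑' n, m (R O.1 n)ᶜ ≠ ∞ := by
    intro O
    have hO : IsOpen O.1 := TopologicalSpace.isOpen_of_mem_countableBasis O.2.1
    refine tsum_compl_ne_top m (R O.1) (hR O.1) (hpos O.1 hO O.2.2) fun N => ?_
    rw [← Measure.infinitePi_pi (μ := fun _ : ℕ => m) fun n _ => hR O.1 n]
    refine measure_mono ?_
    intro y hy n _
    exact subset_closure ⟨y, hy, rfl⟩
  obtain ⟨δ, hδpos, hδ⟩ := ENNReal.exists_pos_sum_of_countable' hε I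
  have htail : ∀ O : I, ∃ M, ∑' n, m (R O.1 (n + M))ᶜ ≤ δ O := by
    intro O
    have h1 := ENNReal.tendsto_sum_nat_add (fun n => m (R O.1 n)ᶜ) (hsum O)
    exact (h1.eventually_le_const (hδpos O)).exists
  choose M hM using htail
  refine ⟨⋃ O : I, ⋃ n, (R O.1 (n + M O))ᶜ, isOpen_iUnion fun O => isOpen_iUnion fun n =>
    isClosed_closure.isOpen_compl, ?_, fun j => ?_⟩
  · calc m (⋃ O : I, ⋃ n, (R O.1 (n + M O))ᶜ) ≤ ∑' O : I, m (⋃ n, (R O.1 (n + M O))ᶜ) :=
          measure_iUnion_le _
      _ ≤ ∑' O : I, ∑' n, m (R O.1 (n + M O))ᶜ :=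
          ENNReal.tsum_le_tsum fun O => measure_iUnion_le _
      _ ≤ ∑' O, δ O := ENNReal.tsum_le_tsum hM
      _ ≤ ε := hδ.le
  · have hcomp : CompactSpace Q.support := isCompact_iff_compactSpace.1 hcl.isCompact
    have hnon : Nonempty Q.support := hne.to_subtype
    obtain ⟨k, y, hy⟩ := nonempty_interior_of_iUnion_of_closed (X := Q.support) (ι := ℕ)
      (f := fun k => {y | ∀ n, k ≤ n → y.1 n ∉ B j n}) (fun k => by
        have h1 : {y : Q.support | ∀ n, k ≤ n → y.1 n ∉ B j n} =
            ⋂ n, ⋂ (_ : k ≤ n), (fun y : Q.support => y.1 n) ⁻¹' (B j n)ᶜ := by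
          ext y
          simp
        rw [h1]
        refine isClosed_iInter fun n => isClosed_iInter fun _ => ?_
        exact (hB j n).isClosed_compl.preimage
          ((continuous_apply n).comp continuous_subtype_val)) (by
        refine eq_univ_of_forall fun y => ?_
        have h2 : y.1 ∉ ⋃ j, {y : ℕ → X | ∃ᶠ n in atTop, y n ∈ B j n} := fun h =>
          hsub y.2 (hHG h)
        have h3 : ¬ ∃ᶠ n in atTop, y.1 n ∈ B j n := fun h => h2 (mem_iUnion.2 ⟨j, h⟩)
        rw [not_frequently, eventually_atTop] at h3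
        obtain ⟨k, hk⟩ := h3
        exact mem_iUnion.2 ⟨k, hk⟩)
    rw [mem_interior] at hy
    obtain ⟨t, hts, hto, hyt⟩ := hy
    obtain ⟨U, hU, rfl⟩ := isOpen_induced_iff.1 hto
    obtain ⟨O, hO, hyO, hOU⟩ :=
      (TopologicalSpace.isBasis_countableBasis (ℕ → X)).exists_subset_of_mem_open hyt hU
    have hOI : O ∈ I := ⟨hO, ⟨y.1, hyO, y.2⟩⟩
    refine ⟨k + M ⟨O, hOI⟩, ?_⟩
    refine subset_trans ?_ (subset_iUnion (fun O : I => ⋃ n, (R O.1 (n + M O))ᶜ) ⟨O, hOI⟩)
    refine subset_trans ?_ (subset_iUnion _ k)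
    intro b hb hcon
    rw [mem_closure_iff] at hcon
    obtain ⟨z, hzB, ⟨w, hw, rfl⟩⟩ := hcon _ (hB j _) hb
    exact hts (show (⟨w, hw.1⟩ : Q.support) ∈ Subtype.val ⁻¹' U from hOU hw.2) _
      (Nat.le_add_right _ _) hzB

end Pool.Agent.P52.Cov
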