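import Mathlib

/-!
# The additivity of the null ideal in standard Borel spaces
-/

namespace Pool.Agent.P52.Cov

open MeasureTheory Set Filter Topology
open scoped ENNReal

theorem map_null_polish {I Y : Type*} [TopologicalSpace I] [PolishSpace I] [MeasurableSpace I]
    [BorelSpace I] (μ : Measure I) [IsFiniteMeasure μ] [TopologicalSpace Y] [T2Space Y]
    [MeasurableSpace Y] [BorelSpace Y] {f : I → Y} (hf : Continuous f) {T : Set Y}
    (hT : μ (f ⁻¹' T) = 0) : μ.map f T = 0 := by
  refine le_antisymm (ENNReal.le_of_forall_pos_le_add fun ε hε _ => ?_) zero_le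
  have hε' : (ε : ℝ≥0∞) ≠ 0 := by exact_mod_cast hε.ne'
  obtain ⟨B, hB, hBm, hB0⟩ := exists_measurable_superset_of_null hT
  obtain ⟨C, hC, ⟨hCc, hCl⟩, hCε⟩ :=
    (innerRegular_isCompact_isClosed_measurableSet_of_finite μ).exists_subset_lt_add
      ⟨isCompact_empty, isClosed_empty⟩ hBm.compl (measure_ne_top μ _) hε'
  have h1 : T ⊆ (f '' C)ᶜ := by
    rintro _ ht ⟨x, hx, rfl⟩
    exact hC hx (hB ht)
  have h2 : IsClosed (f '' C) := (hCc.image hf).isClosed
  have h3 : Cᶜ ⊆ (Bᶜ \ C) ∪ B := by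
    intro x hx
    by_cases hxB : x ∈ B
    · exact Or.inr hxB
    · exact Or.inl ⟨hxB, hx⟩
  calc μ.map f T ≤ μ.map f (f '' C)ᶜ := measure_mono h1
    _ = μ (f ⁻¹' (f '' C)ᶜ) := Measure.map_apply hf.measurable h2.measurableSet.compl
    _ ≤ μ Cᶜ := measure_mono fun x hx hxC => hx ⟨x, hxC, rfl⟩
    _ ≤ μ (Bᶜ \ C) + μ B := (measure_mono h3).trans (measure_union_le _ _)
    _ ≤ 0 + ε := by
      rw [hB0, add_zero, zero_add]
      exact (measure_sdiff_lt_of_lt_add hCl.nullMeasurableSet hC (measure_ne_top _ _) hCε).le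

theorem map_null_measurable {I Y : Type*} [TopologicalSpace I] [hI : PolishSpace I]
    [MeasurableSpace I] [hb : BorelSpace I] (μ : Measure I) [IsFiniteMeasure μ]
    [TopologicalSpace Y] [T2Space Y] [SecondCountableTopology Y] [MeasurableSpace Y] [BorelSpace Y]
    {f : I → Y} (hf : Measurable f) {T : Set Y} (hT : μ (f ⁻¹' T) = 0) : μ.map f T = 0 := by
  obtain ⟨t', ht', hc, hp⟩ := hf.exists_continuous
  have hb' : @BorelSpace I t' _ := by
    refine @BorelSpace.mk I t' _ ?_
    rw [hb.measurable_eq]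
    exact (borel_eq_borel_of_le hp hI ht').symm
  exact @map_null_polish I Y t' hp _ hb' μ _ _ _ _ _ f hc T hT

/-- If unions of fewer than `κ` null sets of the line are null, the same is true for every
probability measure on a standard Borel space. -/
theorem add_transfer {κ : Cardinal.{0}}
    (hadd : ∀ S : Set (Set ℝ), Cardinal.mk S < κ → (∀ A ∈ S, volume A = 0) →
      volume (⋃₀ S) = 0)
    {Y : Type*} [MeasurableSpace Y] [StandardBorelSpace Y] [Nonempty Y] (P : Measure Y)
    [IsProbabilityMeasure P] {ι : Type} (hι : Cardinal.mk ι < κ) (T : ι → Set Y)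
    (hT : ∀ i, P (T i) = 0) : P (⋃ i, T i) = 0 := by
  obtain ⟨g, hg, hgP⟩ := P.exists_measurable_map_eq
  have hemb : MeasurableEmbedding (Subtype.val : unitInterval → ℝ) :=
    MeasurableEmbedding.subtype_coe measurableSet_Icc
  have hvol : ∀ A : Set unitInterval,
      (volume : Measure unitInterval) A = volume (Subtype.val '' A) := fun A =>
    hemb.comap_apply volume A
  have h1 : ∀ i, volume (Subtype.val '' (g ⁻¹' (T i))) = 0 := by
    intro i
    rw [← hvol]
    refine Measure.preimage_null_of_map_null hg.aemeasurable ?_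
    rw [hgP]
    exact hT i
  have h2 := hadd (range fun i => Subtype.val '' (g ⁻¹' (T i)))
    (Cardinal.mk_range_le.trans_lt hι) (by
      rintro _ ⟨i, rfl⟩
      exact h1 i)
  have h3 : (volume : Measure unitInterval) (g ⁻¹' (⋃ i, T i)) = 0 := by
    rw [hvol]
    refine measure_mono_null ?_ h2
    rintro _ ⟨x, hx, rfl⟩
    obtain ⟨i, hi⟩ := mem_iUnion.1 hx
    exact mem_sUnion.2 ⟨_, mem_range_self i, x, hi, rfl⟩
  let _ := upgradeStandardBorel Y
  rw [← hgP]
  exact map_null_measurable volume hg h3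

end Pool.Agent.P52.Cov
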