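import Pool.Agent.P52.Cov.Perf
import Pool.Agent.Results.MP_605315_lc.FibreHeights

/-!
# Heights of countable fibres, and covering the line by null sets
-/

namespace Pool.Agent.P52.Cov

open MeasureTheory Set Filter Topology
open scoped ENNReal
open Pool.Agent.Results.MP_605315_lc.FibreHeights (CB mem_CB CB_mono CB_anti)

theorem card_le_of_lt {γ : Ordinal.{0}} (h : γ < (Cardinal.aleph 1).ord) :
    γ.card ≤ Cardinal.aleph0 := by
  rw [← Order.lt_succ_iff, Cardinal.succ_aleph0]
  exact Cardinal.lt_ord.1 h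

theorem lt_of_card_le {γ : Ordinal.{0}} (h : γ.card ≤ Cardinal.aleph0) :
    γ < (Cardinal.aleph 1).ord := by
  rw [Cardinal.lt_ord, ← Cardinal.succ_aleph0, Order.lt_succ_iff]
  exact h

theorem isClosed_CB {K : Type*} [TopologicalSpace K] [T1Space K] {A : Set K} (hA : IsClosed A)
    (γ : Ordinal.{0}) : IsClosed (CB A γ) := by
  have h : CB A γ = A ∩ ⋂ p : Iio γ, derivedSet (CB A p.1) := by
    ext x
    rw [mem_CB, mem_inter_iff, mem_iInter]
    exact and_congr_right fun _ => ⟨fun h p => h p.1 p.2, fun h p hp => h ⟨p, hp⟩⟩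
  rw [h]
  exact hA.inter (isClosed_iInter fun p => isClosed_derivedSet _)

/-- A countable closed subset of a compact space has countable height. -/
theorem exists_CB_eq_empty {K : Type*} [TopologicalSpace K] [CompactSpace K] [T2Space K]
    {A : Set K} (hA : IsClosed A) (hc : A.Countable) :
    ∃ γ : Ordinal.{0}, γ.card ≤ Cardinal.aleph0 ∧ CB A γ = ∅ := by
  by_contra hcon
  push Not at hcon
  have h1 : ∀ γ : Ordinal.{0}, γ.card ≤ Cardinal.aleph0 →
      ∃ x ∈ CB A γ, x ∉ CB A (Order.succ γ) := by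
    intro γ hγ
    by_contra h
    push Not at h
    have hpre : Preperfect (CB A γ) := fun x hx =>
      (mem_CB.1 (h x hx)).2 γ (Order.lt_succ γ)
    have h2 := perfect_empty (isClosed_CB hA γ) hpre (hc.mono fun x hx => (mem_CB.1 hx).1)
    exact (hcon γ hγ).ne_empty h2
  obtain ⟨a, -⟩ := hcon 0 (by simp)
  have : Nonempty K := ⟨a⟩
  choose! x hx hx' using h1
  have h3 : (Iio (Cardinal.aleph.{0} 1).ord).Countable := by
    refine MapsTo.countable_of_injOn (t := A) (f := x)
      (fun γ hγ => (mem_CB.1 (hx γ (card_le_of_lt hγ))).1) ?_ hc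
    intro γ hγ δ hδ hγδ
    by_contra hne
    wlog hlt : γ < δ generalizing γ δ
    · exact this hδ hγ hγδ.symm (Ne.symm hne) (lt_of_le_of_ne (not_lt.1 hlt) (Ne.symm hne))
    have h4 := hx δ (card_le_of_lt hδ)
    rw [← hγδ] at h4
    exact hx' γ (card_le_of_lt hγ) (CB_anti (Order.succ_le_of_lt hlt) h4)
  rw [← Cardinal.le_aleph0_iff_set_countable, Cardinal.mk_Iio_ordinal, Cardinal.card_ord] at h3
  exact absurd (Cardinal.lift_le_aleph0.1 h3) (not_le.2 Cardinal.aleph0_lt_aleph_one)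

/-- A set whose preimage is null is null for the image measure. -/
theorem map_null {K : Type*} [TopologicalSpace K] [CompactSpace K] [MeasurableSpace K]
    [BorelSpace K] (μ : Measure K) [IsFiniteMeasure μ] [μ.WeaklyRegular] {Y : Type*}
    [TopologicalSpace Y] [T2Space Y] [MeasurableSpace Y] [BorelSpace Y] {f : K → Y}
    (hf : Continuous f) {T : Set Y} (hT : μ (f ⁻¹' T) = 0) : μ.map f T = 0 := by
  refine le_antisymm (ENNReal.le_of_forall_pos_le_add fun ε hε _ => ?_) zero_le
  have hε' : (ε : ℝ≥0∞) ≠ 0 := by exact_mod_cast hε.ne'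
  obtain ⟨B, hB, hBm, hB0⟩ := exists_measurable_superset_of_null hT
  obtain ⟨C, hC, hCc, hCε⟩ := hBm.compl.exists_isClosed_sdiff_lt (measure_ne_top μ _) hε'
  have h1 : T ⊆ (f '' C)ᶜ := by
    rintro _ ht ⟨x, hx, rfl⟩
    exact hC hx (hB ht)
  have h2 : IsClosed (f '' C) := (hCc.isCompact.image hf).isClosed
  have h3 : Cᶜ ⊆ (Bᶜ \ C) ∪ B := by
    intro x hx
    by_cases hxB : x ∈ B
    · exact Or.inr hxB
    · exact Or.inl ⟨hxB, hx⟩
  calc μ.map f T ≤ μ.map f (f '' C)ᶜ := measure_mono h1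
    _ = μ (f ⁻¹' (f '' C)ᶜ) :=
      Measure.map_apply hf.measurable h2.measurableSet.compl
    _ ≤ μ Cᶜ := measure_mono fun x hx hxC => hx ⟨x, hxC, rfl⟩
    _ ≤ μ (Bᶜ \ C) + μ B := (measure_mono h3).trans (measure_union_le _ _)
    _ ≤ 0 + ε := by
      rw [hB0, add_zero, zero_add]
      exact hCε.le

/-- If a standard Borel space carries a probability measure for which it is covered by a family of
null sets, then so is the line. -/
theorem line_cover {Y : Type*} [MeasurableSpace Y] [StandardBorelSpace Y] [Nonempty Y]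
    (P : Measure Y) [IsProbabilityMeasure P] {ι : Type*} (T : ι → Set Y)
    (hT : ∀ i, P (T i) = 0) (hcov : ∀ y, ∃ i, y ∈ T i) :
    ∃ A : ι → Set ℝ, (∀ i, volume (A i) = 0) ∧ ∀ x, ∃ i, x ∈ A i := by
  obtain ⟨g, hg, hgP⟩ := P.exists_measurable_map_eq
  let B : ι → Set ℝ := fun i => Subtype.val '' (g ⁻¹' (T i))
  have hB : ∀ i, volume (B i) = 0 := by
    intro i
    have h1 : (volume : Measure unitInterval).map g (T i) = 0 := by
      rw [hgP]
      exact hT i
    have h2 : (volume : Measure unitInterval) (g ⁻¹' (T i)) = 0 :=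
      Measure.preimage_null_of_map_null hg.aemeasurable h1
    exact (Measure.measure_image_eq_zero_of_comap_eq_zero Subtype.val volume Subtype.val_injective
      (fun s hs => (measurableSet_Icc.subtype_image hs).nullMeasurableSet) h2)
  refine ⟨fun i => ⋃ n : ℤ, (fun x : ℝ => x + n) ⁻¹' (B i), fun i => ?_, fun x => ?_⟩
  · rw [measure_iUnion_null_iff]
    intro n
    rw [measure_preimage_add_right]
    exact hB i
  · have h3 : Int.fract x ∈ unitInterval := ⟨Int.fract_nonneg x, (Int.fract_lt_one x).le⟩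
    obtain ⟨i, hi⟩ := hcov (g ⟨Int.fract x, h3⟩)
    refine ⟨i, mem_iUnion.2 ⟨-⌊x⌋, ?_⟩⟩
    refine ⟨⟨Int.fract x, h3⟩, hi, ?_⟩
    change Int.fract x = x + ((-⌊x⌋ : ℤ) : ℝ)
    push_cast
    rw [← sub_eq_add_neg]
    rfl

/-- Fibres of countable height give a covering of the line by `ℵ₁` null sets. -/
theorem exists_cover {K : Type*} [TopologicalSpace K] [CompactSpace K] [T2Space K]
    [MeasurableSpace K] [BorelSpace K] (μ : Measure K) [IsProbabilityMeasure μ]
    [μ.IsOpenPosMeasure] [μ.Regular] (hK : ¬ TopologicalSpace.SeparableSpace K)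
    (f : K → (ℕ → Bool)) (hf : Continuous f)
    (hh : ∀ t, ∃ γ : Ordinal.{0}, γ.card ≤ Cardinal.aleph0 ∧ CB (f ⁻¹' {t}) γ = ∅) :
    ∃ S : Set (Set ℝ), Cardinal.mk S ≤ Cardinal.aleph 1 ∧ (∀ A ∈ S, volume A = 0) ∧
      ⋃₀ S = univ := by
  obtain ⟨O, hO, hOpos, hae⟩ :=
    Pool.Agent.Results.MP_605315_lc.FibreHeights.result μ hK f hf
  have hwr : (μ.restrict O).WeaklyRegular :=
    Measure.WeaklyRegular.restrict_of_measure_ne_top (measure_ne_top _ _)
  let ρ : Measure (ℕ → Bool) := (μ.restrict O).map f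
  have hρ : ρ ≠ 0 := by
    intro h0
    have h1 : ρ univ = μ O := by
      change (μ.restrict O).map f univ = μ O
      rw [Measure.map_apply hf.measurable MeasurableSet.univ, preimage_univ,
        Measure.restrict_apply_univ]
    rw [h0] at h1
    exact hOpos.ne h1
  have : IsFiniteMeasure ρ := by
    change IsFiniteMeasure ((μ.restrict O).map f)
    infer_instance
  have : NeZero ρ := ⟨hρ⟩
  let T : Iio (Cardinal.aleph.{0} 1).ord → Set (ℕ → Bool) := fun γ => {t | CB (f ⁻¹' {t}) γ.1 = ∅}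
  have hT : ∀ γ, ρ (T γ) = 0 := by
    intro γ
    refine map_null (μ.restrict O) hf ?_
    have h2 := hae γ.1 (card_le_of_lt γ.2)
    rw [← ae_restrict_iff'₀ hO.measurableSet.nullMeasurableSet, ae_iff] at h2
    refine measure_mono_null ?_ h2
    intro x hx hne
    exact hne.ne_empty hx
  obtain ⟨A, hA, hAcov⟩ := line_cover ((ρ univ)⁻¹ • ρ) T (fun γ => by
      rw [Measure.smul_apply, hT γ, smul_zero]) (fun t => by
      obtain ⟨γ, hγ, h⟩ := hh t
      exact ⟨⟨γ, lt_of_card_le hγ⟩, h⟩)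
  refine ⟨range A, ?_, ?_, ?_⟩
  · have h3 := Cardinal.mk_range_le_lift (f := A)
    rw [Cardinal.mk_Iio_ordinal, Cardinal.card_ord] at h3
    simpa using h3
  · rintro _ ⟨γ, rfl⟩
    exact hA γ
  · refine eq_univ_of_forall fun x => ?_
    obtain ⟨γ, hγ⟩ := hAcov x
    exact mem_sUnion.2 ⟨A γ, mem_range_self γ, hγ⟩

end Pool.Agent.P52.Cov
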