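import Mathlib

/-!
# Closed sets of positive measure with closed differences, avoiding null sets
-/

namespace Pool.Agent.P52.Cov

open MeasureTheory Set Filter Topology
open scoped ENNReal

/-- One step of the recursion. -/
theorem exists_closed {X : Type*} [TopologicalSpace X] [MeasurableSpace X] [BorelSpace X]
    (m : Measure X) [IsFiniteMeasure m] [m.OuterRegular] {ι : Type*} [Countable ι]
    (G : ι → Set X) (hG : ∀ j, IsClosed (G j)) {N : Set X} (hN : m N = 0) {ε : ℝ≥0∞}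
    (hε : ε ≠ 0) :
    ∃ F : Set X, IsClosed F ∧ Disjoint F N ∧ m Fᶜ ≤ ε ∧ ∀ j, IsClosed (F \ G j) := by
  have hε2 : ε / 2 ≠ 0 := (ENNReal.half_pos hε).ne'
  obtain ⟨V, hNV, hVo, hV⟩ := N.exists_isOpen_le_add m hε2
  rw [hN, zero_add] at hV
  obtain ⟨δ, hδpos, hδ⟩ := ENNReal.exists_pos_sum_of_countable' hε2 ι
  have h1 : ∀ j, ∃ U, U ⊇ G j ∧ IsOpen U ∧ m U < ∞ ∧ m (U \ G j) < δ j := fun j =>
    (hG j).measurableSet.exists_isOpen_sdiff_lt (measure_ne_top m _) (hδpos j).ne'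
  choose U hGU hUo _ hU using h1
  have hF : IsClosed (Vᶜ ∩ ⋂ j, (G j ∪ (U j)ᶜ)) :=
    hVo.isClosed_compl.inter (isClosed_iInter fun j => (hG j).union (hUo j).isClosed_compl)
  refine ⟨Vᶜ ∩ ⋂ j, (G j ∪ (U j)ᶜ), hF, ?_, ?_, ?_⟩
  · exact disjoint_left.2 fun x hx hxN => hx.1 (hNV hxN)
  · have h2 : (Vᶜ ∩ ⋂ j, (G j ∪ (U j)ᶜ))ᶜ ⊆ V ∪ ⋃ j, (U j \ G j) := by
      intro x hx
      by_cases hxV : x ∈ V
      · exact Or.inl hxV
      · right
        by_contra hcon
        apply hx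
        refine ⟨hxV, mem_iInter.2 fun j => ?_⟩
        by_contra h
        simp only [mem_union, mem_compl_iff, not_or, not_not] at h
        exact hcon (mem_iUnion.2 ⟨j, h.2, h.1⟩)
    calc m (Vᶜ ∩ ⋂ j, (G j ∪ (U j)ᶜ))ᶜ ≤ m V + m (⋃ j, (U j \ G j)) :=
          (measure_mono h2).trans (measure_union_le _ _)
      _ ≤ ε / 2 + ∑' j, δ j := add_le_add hV
          ((measure_iUnion_le _).trans (ENNReal.tsum_le_tsum fun j => (hU j).le))
      _ ≤ ε / 2 + ε / 2 := add_le_add le_rfl hδ.le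
      _ = ε := ENNReal.add_halves ε
  · intro j
    have h3 : (Vᶜ ∩ ⋂ j, (G j ∪ (U j)ᶜ)) \ G j = (Vᶜ ∩ ⋂ j, (G j ∪ (U j)ᶜ)) ∩ (U j)ᶜ := by
      ext x
      constructor
      · rintro ⟨hx, hxG⟩
        exact ⟨hx, (mem_iInter.1 hx.2 j).resolve_left hxG⟩
      · rintro ⟨hx, hxU⟩
        exact ⟨hx, fun hxG => hxU (hGU j hxG)⟩
    rw [h3]
    exact hF.inter (hUo j).isClosed_compl

theorem exists_family {X : Type*} [TopologicalSpace X] [MeasurableSpace X] [BorelSpace X]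
    (m : Measure X) [IsProbabilityMeasure m] [m.OuterRegular] {W : Type*} [LinearOrder W]
    [WellFoundedLT W] (hI : ∀ i : W, (Iio i).Countable) (N : W → Set X) (hN : ∀ i, m (N i) = 0)
    (hcov : ∀ t, ∃ i, t ∈ N i) :
    ∃ F : W → Set X, (∀ i, IsClosed (F i)) ∧ (∀ i, m (F i) ≠ 0) ∧
      (∀ i j, j < i → IsClosed (F i \ F j)) ∧ ∀ t, {i | t ∈ F i}.Countable := by
  have hIic : ∀ i : W, (Iic i).Countable := fun i => by
    rw [← Iio_union_right]
    exact (hI i).union (countable_singleton i)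
  have hN' : ∀ i, m (⋃ j ∈ Iic i, N j) = 0 := fun i =>
    (measure_biUnion_null_iff (hIic i)).2 fun j _ => hN j
  have hstep : ∀ (i : W) (g : ∀ j, j < i → {A : Set X // IsClosed A}),
      ∃ A : {A : Set X // IsClosed A}, Disjoint A.1 (⋃ j ∈ Iic i, N j) ∧ m A.1ᶜ ≤ 1 / 2 ∧
        ∀ j (h : j < i), IsClosed (A.1 \ (g j h).1) := by
    intro i g
    have : Countable (Iio i) := (hI i).to_subtype
    obtain ⟨F, hF, h1, h2, h3⟩ := exists_closed m (fun j : Iio i => (g j.1 j.2).1)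
      (fun j => (g j.1 j.2).2) (hN' i) (ε := 1 / 2) (by simp)
    exact ⟨⟨F, hF⟩, h1, h2, fun j h => h3 ⟨j, h⟩⟩
  choose Φ hΦd hΦm hΦc using hstep
  let F : W → {A : Set X // IsClosed A} := wellFounded_lt.fix Φ
  have hFeq : ∀ i, F i = Φ i (fun j _ => F j) := fun i => WellFounded.fix_eq _ _ _
  refine ⟨fun i => (F i).1, fun i => (F i).2, fun i h0 => ?_, fun i j hji => ?_, fun t => ?_⟩
  · have h1 : m (F i).1ᶜ ≤ 1 / 2 := by
      rw [hFeq i]
      exact hΦm i _
    have h2 : (1 : ℝ≥0∞) ≤ m (F i).1 + m (F i).1ᶜ := by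
      rw [measure_add_measure_compl (F i).2.measurableSet, measure_univ]
    have h3 : (1 : ℝ≥0∞) ≤ 1 / 2 := by
      refine h2.trans ?_
      rw [show m (F i).1 = 0 from h0, zero_add]
      exact h1
    have h4 : (1 : ℝ≥0∞) / 2 < 1 := ENNReal.half_lt_self one_ne_zero ENNReal.one_ne_top
    exact absurd h3 (not_le.2 h4)
  · have h1 := hΦc i (fun j _ => F j) j hji
    rw [← hFeq i] at h1
    exact h1
  · obtain ⟨i, hi⟩ := hcov t
    refine (hI i).mono fun k hk => ?_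
    by_contra hik
    rw [mem_Iio, not_lt] at hik
    have h1 : Disjoint (F k).1 (⋃ j ∈ Iic k, N j) := by
      rw [hFeq k]
      exact hΦd k _
    exact disjoint_left.1 h1 hk (mem_biUnion (mem_Iic.2 hik) hi)

/-- Transfer of a covering of the line by null sets to the Cantor space. -/
theorem exists_cantor {S : Set (Set ℝ)} (hS : Cardinal.mk S ≤ Cardinal.aleph 1)
    (hnull : ∀ A ∈ S, volume A = 0) (hcov : ⋃₀ S = univ) :
    ∃ m : Measure (ℕ → Bool), IsProbabilityMeasure m ∧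
      ∃ N : (Cardinal.aleph.{0} 1).ord.ToType → Set (ℕ → Bool), (∀ i, m (N i) = 0) ∧
        ∀ t, ∃ i, t ∈ N i := by
  let e : ℝ ≃ᵐ (ℕ → Bool) := PolishSpace.measurableEquivNatBoolOfNotCountable not_countable
  have hprob : IsProbabilityMeasure (volume.restrict (Icc (0 : ℝ) 1)) := ⟨by simp⟩
  have hSne : Nonempty S := by
    obtain ⟨A, hA, -⟩ := mem_sUnion.1 (hcov.symm ▸ mem_univ (0 : ℝ))
    exact ⟨⟨A, hA⟩⟩
  have h1 : Cardinal.mk S ≤ Cardinal.mk (Cardinal.aleph 1).ord.ToType := by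
    rwa [Cardinal.mk_toType, Cardinal.card_ord]
  obtain ⟨g⟩ := Cardinal.le_def _ _ |>.1 h1
  have hsurj : Function.Surjective (Function.invFun g) := Function.invFun_surjective g.injective
  refine ⟨(volume.restrict (Icc (0 : ℝ) 1)).map e,
    Measure.isProbabilityMeasure_map e.measurable.aemeasurable,
    fun i => e.symm ⁻¹' (Function.invFun g i).1, fun i => ?_, fun t => ?_⟩
  · rw [e.map_apply]
    have h2 : e ⁻¹' (e.symm ⁻¹' (Function.invFun g i).1) = (Function.invFun g i).1 := by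
      rw [← preimage_comp]
      simp
    rw [h2]
    exact Measure.absolutelyContinuous_of_le Measure.restrict_le_self
      (hnull _ (Function.invFun g i).2)
  · obtain ⟨A, hA, hAt⟩ := mem_sUnion.1 (hcov.symm ▸ mem_univ (e.symm t))
    obtain ⟨i, hi⟩ := hsurj ⟨A, hA⟩
    refine ⟨i, ?_⟩
    change e.symm t ∈ (Function.invFun g i).1
    rw [hi]
    exact hAt

theorem aleph_one_Iio (i : (Cardinal.aleph.{0} 1).ord.ToType) : (Iio i).Countable := by
  rw [← Cardinal.le_aleph0_iff_set_countable, ← Order.lt_succ_iff, Cardinal.succ_aleph0]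
  have h := Cardinal.mk_Iio_lt i (by simp)
  simpa using h

theorem aleph_one_not_countable : ¬ Countable (Cardinal.aleph.{0} 1).ord.ToType := by
  rw [← Cardinal.mk_le_aleph0_iff, Cardinal.mk_toType, Cardinal.card_ord, not_le]
  exact Cardinal.aleph0_lt_aleph_one

end Pool.Agent.P52.Cov
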