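import Pool.Agent.P52.Cov.Det
import Pool.Agent.P52.Cov.Height
import Pool.Agent.P52.Cov.Recur

/-!
# Uncountable point-countable families of open sets give coverings by null sets
-/

namespace Pool.Agent.P52.Cov

open MeasureTheory Set Filter Topology
open scoped ENNReal

section

variable {K : Type*} [TopologicalSpace K] [CompactSpace K] [T2Space K] [MeasurableSpace K]
  [BorelSpace K] {μ : Measure K} [IsFiniteMeasure μ] [μ.WeaklyRegular] {f : K → (ℕ → Bool)}

/-- Almost all of the space is covered by countably many determined closed sets. -/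
theorem exists_det_seq (hf : Continuous f)
    (hs : ∀ t : ℕ → Bool, ∀ A : Set K, A ⊆ f ⁻¹' {t} → A.Nonempty →
      ∃ x ∈ A, ∃ U : Set K, IsOpen U ∧ U ∩ A = {x}) :
    ∃ L : ℕ → Set K, (∀ n, IsClosed (L n)) ∧ (∀ n, Det μ f (L n)) ∧ μ (⋃ n, L n)ᶜ = 0 := by
  let D := {L : Set K // IsClosed L ∧ Det μ f L}
  have hD0 : Det μ f (∅ : Set K) := fun C _ hC => ⟨∅, MeasurableSet.empty, by
    rw [subset_eq_empty hC rfl]
    simp, by simp⟩
  let e : D := ⟨∅, isClosed_empty, hD0⟩
  obtain ⟨v, -, hv, hvS⟩ := exists_seq_tendsto_sSup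
    (S := range fun u : ℕ → D => μ (⋃ n, (u n).1)) ⟨_, fun _ => e, rfl⟩ (OrderTop.bddAbove _)
  choose u hu using hvS
  let w : ℕ → D := fun n => u n.unpair.1 n.unpair.2
  have hw : ∀ k, ⋃ n, (u k n).1 ⊆ ⋃ n, (w n).1 := by
    intro k
    refine iUnion_subset fun n => ?_
    have h1 : (w (Nat.pair k n)).1 = (u k n).1 := by simp [w]
    rw [← h1]
    exact subset_iUnion (fun n => (w n).1) _
  have hmax : ∀ u' : ℕ → D, μ (⋃ n, (u' n).1) ≤ μ (⋃ n, (w n).1) := by
    intro u'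
    refine le_trans (le_sSup (show μ (⋃ n, (u' n).1) ∈
      range fun u : ℕ → D => μ (⋃ n, (u n).1) from ⟨u', rfl⟩))
      (le_of_tendsto' hv fun k => ?_)
    rw [← hu k]
    exact measure_mono (hw k)
  refine ⟨fun n => (w n).1, fun n => (w n).2.1, fun n => (w n).2.2, ?_⟩
  by_contra h0
  have hm : MeasurableSet (⋃ n, (w n).1) := MeasurableSet.iUnion fun n => (w n).2.1.measurableSet
  obtain ⟨C, hCs, hC, hC0⟩ := exists_closed_pos hm.compl h0
  obtain ⟨L, hLC, hL, hL0, hLd⟩ := exists_det (μ := μ) hf hs hC hC0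
  let w' : ℕ → D := fun n => Nat.casesOn n ⟨L, hL, hLd⟩ w
  have h1 : L ∪ ⋃ n, (w n).1 ⊆ ⋃ n, (w' n).1 := by
    rintro x (hx | hx)
    · exact mem_iUnion.2 ⟨0, hx⟩
    · obtain ⟨n, hn⟩ := mem_iUnion.1 hx
      exact mem_iUnion.2 ⟨n + 1, hn⟩
  have h2 := (measure_mono h1).trans (hmax w')
  rw [measure_union (disjoint_left.2 fun x hx hx' => hCs (hLC hx) hx') hm, add_comm] at h2
  exact absurd h2 (not_le.2 (ENNReal.lt_add_right (measure_ne_top _ _) hL0))

end

/-- Countable subsets of a well-ordered set of type `ω₁` are bounded. -/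
theorem exists_upper {W : Type*} [LinearOrder W] (hI : ∀ i : W, (Iio i).Countable)
    (hW : ¬ Countable W) (b : ℕ → W) : ∃ β, ∀ n, b n ≤ β := by
  by_contra hcon
  push Not at hcon
  apply hW
  rw [← countable_univ_iff]
  refine (countable_iUnion fun n => hI (b n)).mono fun β _ => ?_
  obtain ⟨n, hn⟩ := hcon β
  exact mem_iUnion.2 ⟨n, hn⟩

/-- For a family of sets indexed by `ω₁` there is a countable subfamily almost all points of which
are almost covered by each tail. -/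
theorem exists_tail {X : Type*} [MeasurableSpace X] (ρ : Measure X) [IsFiniteMeasure ρ]
    {W : Type*} [LinearOrder W] (hI : ∀ i : W, (Iio i).Countable) (hW : ¬ Countable W)
    (E : W → Set X) (hE : ∀ w, MeasurableSet (E w)) :
    ∃ (β₀ : W) (u : W → ℕ → W), (∀ β n, β ≤ u β n) ∧
      ∀ β, β₀ ≤ β → ρ ((⋃ n, E (u β₀ n)) \ ⋃ n, E (u β n)) = 0 ∧
        ∀ w, β ≤ w → ρ (E w) ≤ ρ (⋃ n, E (u β n)) := by
  have h1 : ∀ β : W, ∃ u : ℕ → W, (∀ n, β ≤ u n) ∧
      ∀ v : ℕ → W, (∀ n, β ≤ v n) → ρ (⋃ n, E (v n)) ≤ ρ (⋃ n, E (u n)) := by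
    intro β
    obtain ⟨r, -, hr, hrS⟩ := exists_seq_tendsto_sSup
      (S := (fun v : ℕ → W => ρ (⋃ n, E (v n))) '' {v | ∀ n, β ≤ v n})
      ⟨_, fun _ => β, fun _ => le_rfl, rfl⟩ (OrderTop.bddAbove _)
    choose v hv hvr using hrS
    refine ⟨fun n => v n.unpair.1 n.unpair.2, fun n => hv _ _, fun v' hv' => ?_⟩
    refine le_trans (le_sSup (show ρ (⋃ n, E (v' n)) ∈
      (fun v : ℕ → W => ρ (⋃ n, E (v n))) '' {v | ∀ n, β ≤ v n} from ⟨v', hv', rfl⟩))
      (le_of_tendsto' hr fun k => ?_)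
    rw [← hvr k]
    refine measure_mono (iUnion_subset fun n => ?_)
    refine subset_trans ?_ (subset_iUnion _ (Nat.pair k n))
    simp
  choose u hu hmax using h1
  have hanti : ∀ β β', β ≤ β' → ρ (⋃ n, E (u β' n)) ≤ ρ (⋃ n, E (u β n)) := fun β β' h =>
    hmax β (u β') fun n => h.trans (hu β' n)
  have : Nonempty W := by
    by_contra h
    rw [not_nonempty_iff] at h
    exact hW inferInstance
  obtain ⟨r, -, hr, hrS⟩ := exists_seq_tendsto_sInf
    (S := range fun β => ρ (⋃ n, E (u β n))) (range_nonempty _) (OrderBot.bddBelow _)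
  choose b hb using hrS
  obtain ⟨β₀, hβ₀⟩ := exists_upper hI hW b
  have hmin : ∀ β, ρ (⋃ n, E (u β₀ n)) ≤ ρ (⋃ n, E (u β n)) := by
    intro β
    refine le_trans (ge_of_tendsto' hr fun n => ?_) (sInf_le ⟨β, rfl⟩)
    rw [← hb n]
    exact hanti _ _ (hβ₀ n)
  refine ⟨β₀, u, hu, fun β hβ => ⟨?_, fun w hw => ?_⟩⟩
  · have hm : MeasurableSet (⋃ n, E (u β n)) := MeasurableSet.iUnion fun n => hE _
    have h2 : ρ ((⋃ n, E (u β₀ n)) ∪ ⋃ n, E (u β n)) ≤ ρ (⋃ n, E (u β₀ n)) := by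
      have h3 := hmax β₀ (fun n => if Even n then u β₀ (n / 2) else u β (n / 2)) (by
        intro n
        split_ifs
        · exact hu _ _
        · exact hβ.trans (hu _ _))
      refine (measure_mono ?_).trans h3
      rintro x (hx | hx)
      · obtain ⟨n, hn⟩ := mem_iUnion.1 hx
        refine mem_iUnion.2 ⟨2 * n, ?_⟩
        simpa using hn
      · obtain ⟨n, hn⟩ := mem_iUnion.1 hx
        refine mem_iUnion.2 ⟨2 * n + 1, ?_⟩
        have h4 : ¬ Even (2 * n + 1) := by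
          rw [Nat.not_even_iff_odd]
          exact ⟨n, rfl⟩
        have h5 : (2 * n + 1) / 2 = n := by omega
        simp only [h4, if_false, h5]
        exact hn
    have h6 : (⋃ n, E (u β₀ n)) ∪ ⋃ n, E (u β n) =
        ((⋃ n, E (u β₀ n)) \ ⋃ n, E (u β n)) ∪ ⋃ n, E (u β n) := by
      rw [sdiff_union_self]
    rw [h6, measure_union disjoint_sdiff_left hm] at h2
    have h7 := h2.trans (hmin β)
    by_contra h0
    rw [add_comm] at h7
    exact absurd h7 (not_le.2 (ENNReal.lt_add_right (measure_ne_top _ _) h0))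
  · have h8 := hmax β (fun _ => w) fun _ => hw
    rwa [iUnion_const] at h8

/-- Countable type version of the precaliber argument. -/
theorem cover_of_det {K : Type*} [TopologicalSpace K] [CompactSpace K] [T2Space K]
    [MeasurableSpace K] [BorelSpace K] {μ : Measure K} [IsFiniteMeasure μ]
    {f : K → (ℕ → Bool)} (hf : Continuous f) {L : Set K} (hL : IsClosed L) (hdet : Det μ f L)
    (C : (Cardinal.aleph.{0} 1).ord.ToType → Set K) (hC : ∀ w, IsClosed (C w))
    (hCL : ∀ w, C w ⊆ L) {ε : ℝ≥0∞} (hε : ε ≠ 0) (hCε : ∀ w, ε ≤ μ (C w))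
    (hpc : ∀ x, {w | x ∈ C w}.Countable) :
    ∃ S : Set (Set ℝ), Cardinal.mk S ≤ Cardinal.aleph 1 ∧ (∀ A ∈ S, volume A = 0) ∧
      ⋃₀ S = univ := by
  choose E hE hCE hEC using fun w => hdet (C w) (hC w) (hCL w)
  let ρ : Measure (ℕ → Bool) := (μ.restrict L).map f
  have hρfin : IsFiniteMeasure ρ := by
    change IsFiniteMeasure ((μ.restrict L).map f)
    infer_instance
  have hρ : ∀ A : Set (ℕ → Bool), MeasurableSet A → ρ A = μ (f ⁻¹' A ∩ L) := by
    intro A hA
    change (μ.restrict L).map f A = _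
    rw [Measure.map_apply hf.measurable hA, Measure.restrict_apply (hf.measurable hA)]
  have hρE : ∀ w, ε ≤ ρ (E w) := by
    intro w
    rw [hρ _ (hE w)]
    calc ε ≤ μ (C w) := hCε w
      _ ≤ μ ((C w \ f ⁻¹' (E w)) ∪ (f ⁻¹' (E w) ∩ L)) := measure_mono fun x hx => by
          by_cases h : f x ∈ E w
          · exact Or.inr ⟨h, hCL w hx⟩
          · exact Or.inl ⟨hx, h⟩
      _ ≤ μ (C w \ f ⁻¹' (E w)) + μ (f ⁻¹' (E w) ∩ L) := measure_union_le _ _
      _ = μ (f ⁻¹' (E w) ∩ L) := by rw [hCE w, zero_add]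
  obtain ⟨β₀, u, hu, htail⟩ := exists_tail ρ aleph_one_Iio aleph_one_not_countable E hE
  let H : Set (ℕ → Bool) := ⋃ n, E (u β₀ n)
  have hH : MeasurableSet H := MeasurableSet.iUnion fun n => hE _
  have hH0 : ρ H ≠ 0 := fun h0 => hε
    (le_antisymm ((hρE β₀).trans (((htail β₀ le_rfl).2 β₀ le_rfl).trans h0.le)) zero_le)
  have hne : NeZero (ρ.restrict H) := ⟨fun h => hH0 (by
    rw [← Measure.restrict_apply_univ, h]
    rfl)⟩
  let T : (Cardinal.aleph.{0} 1).ord.ToType ⊕ (Finset (Cardinal.aleph.{0} 1).ord.ToType ⊕ Unit) →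
      Set (ℕ → Bool) := Sum.elim (fun β => H \ ⋃ n, E (u (max β₀ β) n))
    (Sum.elim (fun s => (⋂ w ∈ s, E w) \ f '' (L ∩ ⋂ w ∈ s, C w)) fun _ => Hᶜ)
  have hT : ∀ i, ((ρ.restrict H) univ)⁻¹ • (ρ.restrict H) (T i) = 0 := by
    intro i
    have h1 : (ρ.restrict H) (T i) = 0 := by
      rcases i with β | s | _
      · exact Measure.absolutelyContinuous_of_le Measure.restrict_le_self
          (htail (max β₀ β) (le_max_left _ _)).1
      · refine Measure.absolutelyContinuous_of_le Measure.restrict_le_self ?_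
        change ρ ((⋂ w ∈ s, E w) \ f '' (L ∩ ⋂ w ∈ s, C w)) = 0
        have h2 : IsClosed (L ∩ ⋂ w ∈ s, C w) := hL.inter (isClosed_biInter fun w _ => hC w)
        have h3 : MeasurableSet ((⋂ w ∈ s, E w) \ f '' (L ∩ ⋂ w ∈ s, C w)) :=
          (Finset.measurableSet_biInter s fun w _ => hE w).diff
            (h2.isCompact.image hf).isClosed.measurableSet
        rw [hρ _ h3]
        refine measure_mono_null (t := ⋃ w ∈ s, ((L \ C w) ∩ f ⁻¹' (E w))) ?_
          ((measure_biUnion_null_iff s.countable_toSet).2 fun w _ => hEC w)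
        rintro x ⟨⟨hxE, hxn⟩, hxL⟩
        by_contra hcon
        refine hxn ⟨x, ⟨hxL, mem_iInter₂.2 fun w hw => ?_⟩, rfl⟩
        by_contra hxC
        exact hcon (mem_biUnion hw ⟨⟨hxL, hxC⟩, mem_iInter₂.1 hxE w hw⟩)
      · change (ρ.restrict H) Hᶜ = 0
        rw [Measure.restrict_apply hH.compl, compl_inter_self, measure_empty]
    rw [h1, smul_zero]
  by_contra hno
  have hcov : ¬ ∀ y, ∃ i, y ∈ T i := by
    intro hcov
    obtain ⟨A, hA, hAcov⟩ := line_cover (((ρ.restrict H) univ)⁻¹ • ρ.restrict H) T hT hcov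
    apply hno
    refine ⟨range A, ?_, ?_, ?_⟩
    · refine Cardinal.mk_range_le.trans ?_
      rw [Cardinal.mk_sum, Cardinal.mk_sum]
      have hinf : Infinite (Cardinal.aleph.{0} 1).ord.ToType := by
        rw [Cardinal.infinite_iff, Cardinal.mk_toType, Cardinal.card_ord]
        exact Cardinal.aleph0_le_aleph 1
      rw [Cardinal.mk_finset_of_infinite, Cardinal.mk_toType, Cardinal.card_ord]
      simp only [Cardinal.lift_id, Cardinal.mk_unit]
      rw [Cardinal.add_one_eq (Cardinal.aleph0_le_aleph 1),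
        Cardinal.add_eq_self (Cardinal.aleph0_le_aleph 1)]
    · rintro _ ⟨i, rfl⟩
      exact hA i
    · refine eq_univ_of_forall fun x => ?_
      obtain ⟨i, hi⟩ := hAcov x
      exact mem_sUnion.2 ⟨A i, mem_range_self i, hi⟩
  push Not at hcov
  obtain ⟨t, ht⟩ := hcov
  have htH : t ∈ H := by
    by_contra h
    exact ht (Sum.inr (Sum.inr ())) h
  have htE : ∀ β, ∃ w, β ≤ w ∧ t ∈ E w := by
    intro β
    by_contra h
    push Not at h
    refine ht (Sum.inl β) ⟨htH, fun h1 => ?_⟩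
    obtain ⟨n, hn⟩ := mem_iUnion.1 h1
    exact h _ ((le_max_right _ _).trans (hu _ n)) hn
  obtain ⟨x, hx, hxC⟩ := IsCompact.inter_iInter_nonempty
    (s := f ⁻¹' {t} ∩ L) ((isClosed_singleton.preimage hf).inter hL).isCompact
    (fun w : {w | t ∈ E w} => C w.1) (fun w => hC w.1) (by
      classical
      intro s
      have h1 : t ∉ (⋂ w ∈ s.image Subtype.val, E w) \ f '' (L ∩ ⋂ w ∈ s.image Subtype.val, C w) :=
        ht (Sum.inr (Sum.inl (s.image Subtype.val)))
      have h2 : t ∈ ⋂ w ∈ s.image Subtype.val, E w := by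
        refine mem_iInter₂.2 fun w hw => ?_
        obtain ⟨v, -, rfl⟩ := Finset.mem_image.1 hw
        exact v.2
      have h3 : t ∈ f '' (L ∩ ⋂ w ∈ s.image Subtype.val, C w) := by
        by_contra h
        exact h1 ⟨h2, h⟩
      obtain ⟨x, ⟨hxL, hxC⟩, hxt⟩ := h3
      refine ⟨x, ⟨hxt, hxL⟩, mem_iInter₂.2 fun w hw => ?_⟩
      exact mem_iInter₂.1 hxC w.1 (Finset.mem_image_of_mem _ hw))
  apply aleph_one_not_countable
  rw [← countable_univ_iff]
  have h4 : (⋃ w ∈ {w | x ∈ C w}, Iic w).Countable := (hpc x).biUnion fun w _ => by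
    rw [← Iio_union_right]
    exact (aleph_one_Iio w).union (countable_singleton w)
  refine h4.mono fun β _ => ?_
  obtain ⟨w, hβw, hw⟩ := htE β
  exact mem_biUnion (show w ∈ {w | x ∈ C w} from mem_iInter.1 hxC ⟨w, hw⟩) hβw

/-- An uncountable point-countable family of open sets in an example gives a covering. -/
theorem cover_of_pointCountable {K : Type*} [TopologicalSpace K] [CompactSpace K] [T2Space K]
    [MeasurableSpace K] [BorelSpace K] {μ : Measure K} [IsFiniteMeasure μ] [μ.WeaklyRegular]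
    [μ.IsOpenPosMeasure] {f : K → (ℕ → Bool)} (hf : Continuous f)
    (hs : ∀ t : ℕ → Bool, ∀ A : Set K, A ⊆ f ⁻¹' {t} → A.Nonempty →
      ∃ x ∈ A, ∃ U : Set K, IsOpen U ∧ U ∩ A = {x})
    {ι : Type} (hι : ¬ Countable ι) (B : ι → Set K) (hB : ∀ i, IsOpen (B i))
    (hBne : ∀ i, (B i).Nonempty) (hpc : ∀ x, {i | x ∈ B i}.Countable) :
    ∃ S : Set (Set ℝ), Cardinal.mk S ≤ Cardinal.aleph 1 ∧ (∀ A ∈ S, volume A = 0) ∧
      ⋃₀ S = univ := by
  obtain ⟨L, hL, hdet, hL0⟩ := exists_det_seq (μ := μ) hf hs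
  have h1 : ∀ i, ∃ n, ∃ C ⊆ B i ∩ L n, IsClosed C ∧ μ C ≠ 0 := by
    intro i
    by_contra hcon
    push Not at hcon
    have h2 : ∀ n, μ (B i ∩ L n) = 0 := by
      intro n
      by_contra h
      obtain ⟨C, hCs, hC, hC0⟩ :=
        exists_closed_pos ((hB i).measurableSet.inter (hL n).measurableSet) h
      exact hC0 (hcon n C hCs hC)
    apply (hB i).measure_ne_zero μ (hBne i)
    refine measure_mono_null ?_ (measure_union_null (measure_iUnion_null h2) hL0)
    intro x hx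
    by_cases h : x ∈ ⋃ n, L n
    · obtain ⟨n, hn⟩ := mem_iUnion.1 h
      exact Or.inl (mem_iUnion.2 ⟨n, hx, hn⟩)
    · exact Or.inr h
  choose n C hCs hC hC0 using h1
  have h3 : ∀ i, ∃ k : ℕ, ((k : ℝ≥0∞) + 1)⁻¹ ≤ μ (C i) := by
    intro i
    obtain ⟨k, hk⟩ := ENNReal.exists_inv_nat_lt (hC0 i)
    refine ⟨k, (ENNReal.inv_le_inv.2 ?_).trans hk.le⟩
    exact le_self_add
  choose k hk using h3
  have h4 : ∃ p : ℕ × ℕ, ¬ {i | (n i, k i) = p}.Countable := by
    by_contra hcon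
    push Not at hcon
    apply hι
    rw [← countable_univ_iff]
    refine (countable_iUnion hcon).mono fun i _ => mem_iUnion.2 ⟨(n i, k i), rfl⟩
  obtain ⟨p, hp⟩ := h4
  have h5 : Cardinal.aleph 1 ≤ Cardinal.mk {i | (n i, k i) = p} := by
    rw [← Cardinal.le_aleph0_iff_set_countable, not_le] at hp
    rw [← Cardinal.succ_aleph0]
    exact Order.succ_le_of_lt hp
  have h6 : Cardinal.mk (Cardinal.aleph.{0} 1).ord.ToType ≤ Cardinal.mk {i | (n i, k i) = p} := by
    rwa [Cardinal.mk_toType, Cardinal.card_ord]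
  obtain ⟨g⟩ := (Cardinal.le_def _ _).1 h6
  have hgn : ∀ w, n (g w).1 = p.1 := fun w => congrArg Prod.fst (g w).2
  have hgk : ∀ w, k (g w).1 = p.2 := fun w => congrArg Prod.snd (g w).2
  refine cover_of_det hf (hL p.1) (hdet p.1) (fun w => C (g w).1) (fun w => hC _)
    (fun w => ?_) (ε := ((p.2 : ℝ≥0∞) + 1)⁻¹) (by simp) (fun w => ?_) (fun x => ?_)
  · have := hCs (g w).1
    rw [hgn w] at this
    exact this.trans inter_subset_right
  · rw [← hgk w]
    exact hk _
  · have h7 : ((fun w => (g w).1) ⁻¹' {i | x ∈ B i}).Countable :=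
      (hpc x).preimage (Subtype.val_injective.comp g.injective)
    exact h7.mono fun w hw => (hCs (g w).1 hw).1

end Pool.Agent.P52.Cov
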