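import Mathlib

/-!
# The support of an image measure on a large Cantor cube
-/

namespace Pool.Agent.P52.Cov

open MeasureTheory Set Filter Topology
open scoped ENNReal

/-- The Cantor cube `2 ^ J` (with its Borel sigma-algebra, for uncountable `J`). -/
def Cube (J : Type) : Type := J → Bool

variable {J : Type}

instance : TopologicalSpace (Cube J) := inferInstanceAs (TopologicalSpace (J → Bool))
instance : CompactSpace (Cube J) := inferInstanceAs (CompactSpace (J → Bool))
instance : T2Space (Cube J) := inferInstanceAs (T2Space (J → Bool))
instance : MeasurableSpace (Cube J) := borel _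
instance : BorelSpace (Cube J) := ⟨rfl⟩

theorem Cube.continuous_apply (j : J) : Continuous fun z : Cube J => z j :=
  _root_.continuous_apply (A := fun _ : J => Bool) j

/-- The real valued coordinate. -/
def coord (j : J) : C(Cube J, ℝ) :=
  ⟨fun z => if z j then 1 else 0, by
    have h : Continuous fun b : Bool => if b then (1 : ℝ) else 0 := continuous_of_discreteTopology
    exact h.comp (Cube.continuous_apply j)⟩

variable {X : Type} [MeasurableSpace X]

/-- The point of the cube given by a family of sets. -/
noncomputable def pt (E : J → Set X) (t : X) : Cube J := fun j => by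
  classical exact decide (t ∈ E j)

omit [MeasurableSpace X] in
theorem pt_apply {E : J → Set X} {t : X} {j : J} : pt E t j = true ↔ t ∈ E j := by
  simp [pt]

theorem measurable_comp_pt {E : J → Set X} (hE : ∀ j, MeasurableSet (E j))
    (g : C(Cube J, ℝ)) : Measurable fun t => g (pt E t) := by
  let S : Subalgebra ℝ C(Cube J, ℝ) :=
    { carrier := {g | Measurable fun t => g (pt E t)}
      mul_mem' := fun {a b} ha hb => Measurable.mul ha hb
      add_mem' := fun {a b} ha hb => Measurable.add ha hb
      algebraMap_mem' := fun r => measurable_const }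
  have hsep : S.SeparatesPoints := by
    intro x y hxy
    obtain ⟨j, hj⟩ : ∃ j, x j ≠ y j := by
      by_contra h
      push Not at h
      exact hxy (funext h)
    refine ⟨coord j, ⟨coord j, ?_, rfl⟩, ?_⟩
    · have h1 : (fun t => coord j (pt E t)) = (E j).indicator 1 := by
        ext t
        by_cases h : t ∈ E j
        · simp [coord, pt_apply.2 h, h]
        · have : pt E t j = false := by
            rw [← Bool.not_eq_true, pt_apply]
            exact h
          simp [coord, this, h]
      change Measurable fun t => coord j (pt E t)
      rw [h1]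
      exact measurable_one.indicator (hE j)
    · simp only [coord, ContinuousMap.coe_mk]
      cases hx : x j <;> cases hy : y j <;> simp_all
  have htop := ContinuousMap.subalgebra_topologicalClosure_eq_top_of_separatesPoints S hsep
  have hg : g ∈ S.topologicalClosure := by
    rw [htop]
    trivial
  have hg' : g ∈ closure (S : Set C(Cube J, ℝ)) := hg
  obtain ⟨u, hu, hlim⟩ := mem_closure_iff_seq_limit.1 hg'
  refine measurable_of_tendsto_metrizable (f := fun n t => u n (pt E t)) (fun n => hu n) ?_
  rw [tendsto_pi_nhds]
  intro t
  exact hlim.eval_const (pt E t)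

/-- The image measure as a regular Borel measure. -/
theorem exists_image (m : Measure X) [IsProbabilityMeasure m] {E : J → Set X}
    (hE : ∀ j, MeasurableSet (E j)) :
    ∃ ν : Measure (Cube J), ν.Regular ∧ IsProbabilityMeasure ν ∧
      ∀ C : Set (Cube J), IsClopen C → ν C = m (pt E ⁻¹' C) := by
  have hint : ∀ g : C(Cube J, ℝ), Integrable (fun t => g (pt E t)) m := by
    intro g
    refine Integrable.of_bound (measurable_comp_pt hE g).aestronglyMeasurable ‖g‖
      (Eventually.of_forall fun t => g.norm_coe_le_norm _)
  let Λ : CompactlySupportedContinuousMap (Cube J) ℝ →ₚ[ℝ] ℝ :=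
  { toFun g := ∫ t, g (pt E t) ∂m
    map_add' g g' := integral_add (hint g.toContinuousMap) (hint g'.toContinuousMap)
    map_smul' c g := integral_smul c fun t => g (pt E t)
    monotone' g g' hgg' := integral_mono (hint g.toContinuousMap) (hint g'.toContinuousMap)
      fun t => hgg' _ }
  let ν := RealRMK.rieszMeasure Λ
  have hfin : IsFiniteMeasure ν := inferInstance
  have hcl : ∀ C : Set (Cube J), IsClopen C → ν C = m (pt E ⁻¹' C) := by
    intro C hC
    have hcont : Continuous (C.indicator (1 : Cube J → ℝ)) :=
      continuous_one.indicator fun a ha => by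
        rw [hC.frontier_eq] at ha
        exact absurd ha (notMem_empty a)
    let g : CompactlySupportedContinuousMap (Cube J) ℝ :=
      ⟨⟨C.indicator 1, hcont⟩, HasCompactSupport.of_compactSpace _⟩
    have h1 : ∫ x, g x ∂ν = ∫ t, g (pt E t) ∂m := RealRMK.integral_rieszMeasure Λ g
    have h2 : ∫ x, g x ∂ν = ν.real C := by
      change ∫ x, C.indicator 1 x ∂ν = _
      rw [integral_indicator_one hC.1.measurableSet]
    have hmeas : MeasurableSet (pt E ⁻¹' C) := by
      have h3 := measurable_comp_pt hE g.toContinuousMap
      have h4 : pt E ⁻¹' C = (fun t => g.toContinuousMap (pt E t)) ⁻¹' {1} := by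
        ext t
        change pt E t ∈ C ↔ C.indicator (1 : Cube J → ℝ) (pt E t) = 1
        by_cases h : pt E t ∈ C <;> simp [h]
      rw [h4]
      exact h3 (measurableSet_singleton 1)
    have h5 : ∫ t, g (pt E t) ∂m = m.real (pt E ⁻¹' C) := by
      have h6 : (fun t => g (pt E t)) = (pt E ⁻¹' C).indicator 1 := rfl
      rw [h6, integral_indicator_one hmeas]
    rw [h2, h5] at h1
    have h7 := congrArg ENNReal.ofReal h1
    rwa [ofReal_measureReal, ofReal_measureReal] at h7
  refine ⟨ν, inferInstance, ⟨?_⟩, hcl⟩
  rw [hcl univ isClopen_univ, preimage_univ, measure_univ]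

end Pool.Agent.P52.Cov
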