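import Mathlib

/-!
# Closed sets on which a measure is determined by a map with scattered fibres
-/

namespace Pool.Agent.P52.Cov

open MeasureTheory Set Filter Topology
open scoped ENNReal

/-- The carrier in the base of the part of a measure that lives on `C`. -/
theorem exists_carrier {K : Type*} [MeasurableSpace K] (μ : Measure K) [IsFiniteMeasure μ]
    {X : Type*} [MeasurableSpace X] {f : K → X} (hf : Measurable f) (C : Set K) :
    ∃ E : Set X, MeasurableSet E ∧ μ (C \ f ⁻¹' E) = 0 ∧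
      ∀ Q : Set X, MeasurableSet Q → Q ⊆ E → μ (C ∩ f ⁻¹' Q) = 0 → μ (f ⁻¹' Q) = 0 := by
  have hle : (μ.restrict C).map f ≤ μ.map f := Measure.map_mono Measure.restrict_le_self hf
  have hac : (μ.restrict C).map f ≪ μ.map f := Measure.absolutelyContinuous_of_le hle
  set h := ((μ.restrict C).map f).rnDeriv (μ.map f) with hh
  have hmeas : Measurable h := Measure.measurable_rnDeriv _ _
  have hwd : (μ.map f).withDensity h = (μ.restrict C).map f :=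
    Measure.withDensity_rnDeriv_eq _ _ hac
  have hval : ∀ Q : Set X, MeasurableSet Q → μ (C ∩ f ⁻¹' Q) = ∫⁻ x in Q, h x ∂(μ.map f) := by
    intro Q hQ
    rw [← withDensity_apply _ hQ, hwd, Measure.map_apply hf hQ,
      Measure.restrict_apply (hf hQ), inter_comm]
  have hE : MeasurableSet {x | h x ≠ 0} := hmeas (measurableSet_singleton 0).compl
  refine ⟨{x | h x ≠ 0}, hE, ?_, fun Q hQ hQE h0 => ?_⟩
  · have h1 : C \ f ⁻¹' {x | h x ≠ 0} = C ∩ f ⁻¹' {x | h x ≠ 0}ᶜ := rfl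
    rw [h1, hval _ hE.compl, setLIntegral_congr_fun (g := fun _ => 0) hE.compl]
    · simp
    · intro x hx
      simpa using hx
  · rw [hval Q hQ, setLIntegral_eq_zero_iff hQ hmeas] at h0
    have h2 : (μ.map f) Q = 0 := by
      rw [ae_iff] at h0
      refine measure_mono_null ?_ h0
      intro x hx hcon
      exact hQE hx (hcon hx)
    rwa [Measure.map_apply hf hQ] at h2

/-- The measure on `L` is determined by the map. -/
def Det {K : Type*} [TopologicalSpace K] [MeasurableSpace K] (μ : Measure K)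
    {X : Type*} [MeasurableSpace X] (f : K → X) (L : Set K) : Prop :=
  ∀ C : Set K, IsClosed C → C ⊆ L →
    ∃ E : Set X, MeasurableSet E ∧ μ (C \ f ⁻¹' E) = 0 ∧ μ ((L \ C) ∩ f ⁻¹' E) = 0

/-- The sets of a family are simultaneously present over a set of positive measure. -/
def Pos {K : Type*} [MeasurableSpace K] (μ : Measure K)
    {X : Type*} [MeasurableSpace X] (f : K → X) (𝓛 : Set (Set K)) : Prop :=
  ∃ P : Set X, MeasurableSet P ∧ μ (f ⁻¹' P) ≠ 0 ∧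
    ∀ L ∈ 𝓛, ∀ Q : Set X, MeasurableSet Q → Q ⊆ P → μ (L ∩ f ⁻¹' Q) = 0 → μ (f ⁻¹' Q) = 0

section

variable {K : Type*} [TopologicalSpace K] [CompactSpace K] [T2Space K] [MeasurableSpace K]
  [BorelSpace K] {μ : Measure K} [IsFiniteMeasure μ] [μ.WeaklyRegular]
  {X : Type*} [TopologicalSpace X] [CompactSpace X] [T2Space X] [MeasurableSpace X]
  [BorelSpace X] {f : K → X}

omit [CompactSpace K] [T2Space K] [BorelSpace K] in
theorem exists_closed_pos {A : Set K} (hA : MeasurableSet A) (h : μ A ≠ 0) :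
    ∃ C ⊆ A, IsClosed C ∧ μ C ≠ 0 := by
  obtain ⟨C, hCA, hC, hlt⟩ := hA.exists_lt_isClosed_of_ne_top (measure_ne_top μ A)
    (pos_iff_ne_zero.2 h)
  exact ⟨C, hCA, hC, hlt.ne'⟩

omit [CompactSpace K] [T2Space K] [CompactSpace X] [T2Space X] in
theorem split_one (hf : Continuous f) {L0 : Set K}
    (hdet : ∀ L ⊆ L0, IsClosed L → μ L ≠ 0 → ¬ Det μ f L) {𝓛 : Set (Set K)} (hpos : Pos μ f 𝓛)
    {L : Set K} (hL : L ∈ 𝓛) (hLc : IsClosed L) (hLL : L ⊆ L0) :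
    ∃ A B : Set K, IsClosed A ∧ IsClosed B ∧ A ⊆ L ∧ B ⊆ L ∧ Disjoint A B ∧
      Pos μ f (insert A (insert B 𝓛)) := by
  obtain ⟨P, hP, hP0, hPL⟩ := hpos
  have h1 : μ (L ∩ f ⁻¹' P) ≠ 0 := fun h => hP0 (hPL L hL P hP Subset.rfl h)
  obtain ⟨L', hL'L, hL'c, hL'0⟩ :=
    exists_closed_pos (hLc.measurableSet.inter (hf.measurable hP)) h1
  have h2 := hdet L' (fun x hx => hLL (hL'L hx).1) hL'c hL'0
  unfold Det at h2
  push Not at h2
  obtain ⟨A, hA, hAL', hAE⟩ := h2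
  obtain ⟨E, hE, hAE0, hEQ⟩ := exists_carrier μ hf.measurable A
  have hm : MeasurableSet (L' \ A) := hL'c.measurableSet.diff hA.measurableSet
  obtain ⟨E', hE', hAE', hEQ'⟩ := exists_carrier μ hf.measurable (L' \ A)
  have h3 : μ (f ⁻¹' (E ∩ E')) ≠ 0 := by
    intro h0
    refine hAE E hE hAE0 (measure_mono_null ?_ (measure_union_null hAE' h0))
    rintro x ⟨hx, hxE⟩
    by_cases hxE' : f x ∈ E'
    · exact Or.inr ⟨hxE, hxE'⟩
    · exact Or.inl ⟨hx, hxE'⟩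
  have h4 : μ ((L' \ A) ∩ f ⁻¹' (E ∩ E')) ≠ 0 := fun h =>
    h3 (hEQ' _ (hE.inter hE') inter_subset_right h)
  obtain ⟨B, hBs, hB, hB0⟩ :=
    exists_closed_pos (hm.inter (hf.measurable (hE.inter hE'))) h4
  obtain ⟨F, hF, hBF, hFQ⟩ := exists_carrier μ hf.measurable B
  refine ⟨A, B, hA, hB, fun x hx => (hL'L (hAL' hx)).1, fun x hx => (hL'L (hBs hx).1.1).1,
    disjoint_left.2 fun x hx hxB => (hBs hxB).1.2 hx,
    F ∩ (E ∩ E') ∩ P, (hF.inter (hE.inter hE')).inter hP, ?_, ?_⟩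
  · intro h0
    apply hB0
    refine measure_mono_null ?_ (measure_union_null hBF h0)
    intro x hx
    by_cases hxF : f x ∈ F
    · exact Or.inr ⟨⟨hxF, (hBs hx).2⟩, (hL'L (hBs hx).1.1).2⟩
    · exact Or.inl ⟨hx, hxF⟩
  · rintro M (rfl | rfl | hM) Q hQ hQs h0
    · exact hEQ Q hQ (fun x hx => (hQs hx).1.2.1) h0
    · exact hFQ Q hQ (fun x hx => (hQs hx).1.1) h0
    · exact hPL M hM Q hQ (fun x hx => (hQs hx).2) h0

omit [CompactSpace K] [T2Space K] [CompactSpace X] [T2Space X] in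
theorem split_all (hf : Continuous f) {L0 : Set K}
    (hdet : ∀ L ⊆ L0, IsClosed L → μ L ≠ 0 → ¬ Det μ f L) {𝓛 : Set (Set K)} (hpos : Pos μ f 𝓛)
    (hfin : 𝓛.Finite) (hcl : ∀ L ∈ 𝓛, IsClosed L ∧ L ⊆ L0) :
    ∃ 𝓜 : Set (Set K), 𝓜.Finite ∧ 𝓛 ⊆ 𝓜 ∧ Pos μ f 𝓜 ∧ (∀ L ∈ 𝓜, IsClosed L ∧ L ⊆ L0) ∧
      ∀ L ∈ 𝓛, ∃ A ∈ 𝓜, ∃ B ∈ 𝓜, A ⊆ L ∧ B ⊆ L ∧ Disjoint A B := by
  suffices h : ∀ 𝓢 : Set (Set K), 𝓢.Finite → 𝓢 ⊆ 𝓛 → ∃ 𝓜 : Set (Set K), 𝓜.Finite ∧ 𝓛 ⊆ 𝓜 ∧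
      Pos μ f 𝓜 ∧ (∀ L ∈ 𝓜, IsClosed L ∧ L ⊆ L0) ∧
      ∀ L ∈ 𝓢, ∃ A ∈ 𝓜, ∃ B ∈ 𝓜, A ⊆ L ∧ B ⊆ L ∧ Disjoint A B from h 𝓛 hfin Subset.rfl
  intro 𝓢 h𝓢
  induction 𝓢, h𝓢 using Set.Finite.induction_on with
  | empty =>
    intro _
    exact ⟨𝓛, hfin, Subset.rfl, hpos, hcl, fun L hL => absurd hL (notMem_empty L)⟩
  | @insert L 𝓢 _ _ ih =>
    intro hs
    obtain ⟨𝓜, h1, h2, h3, h4, h5⟩ := ih ((subset_insert _ _).trans hs)
    have hL : L ∈ 𝓛 := hs (mem_insert _ _)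
    obtain ⟨A, B, hA, hB, hAL, hBL, hAB, hp⟩ :=
      split_one hf hdet h3 (h2 hL) (hcl L hL).1 (hcl L hL).2
    refine ⟨insert A (insert B 𝓜), (h1.insert B).insert A,
      h2.trans ((subset_insert _ _).trans (subset_insert _ _)), hp, ?_, ?_⟩
    · rintro M (rfl | rfl | hM)
      · exact ⟨hA, hAL.trans (hcl L hL).2⟩
      · exact ⟨hB, hBL.trans (hcl L hL).2⟩
      · exact h4 M hM
    · rintro M (rfl | hM)
      · exact ⟨A, mem_insert _ _, B, mem_insert_of_mem _ (mem_insert _ _), hAL, hBL, hAB⟩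
      · obtain ⟨A', hA', B', hB', h⟩ := h5 M hM
        exact ⟨A', mem_insert_of_mem _ (mem_insert_of_mem _ hA'), B',
          mem_insert_of_mem _ (mem_insert_of_mem _ hB'), h⟩

omit [T2Space K] [BorelSpace K] [IsFiniteMeasure μ] [μ.WeaklyRegular] in
/-- A point of the base over which all sets of the family are present. -/
theorem exists_common (hf : Continuous f) {𝓛 : ℕ → Set (Set K)} (hmono : Monotone 𝓛)
    (hfin : ∀ n, (𝓛 n).Finite) (hpos : ∀ n, Pos μ f (𝓛 n))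
    (hcl : ∀ n, ∀ L ∈ 𝓛 n, IsClosed L) :
    ∃ t : X, ∀ n, ∀ L ∈ 𝓛 n, (f ⁻¹' {t} ∩ L).Nonempty := by
  let R : ℕ → Set X := fun n => ⋂ L ∈ 𝓛 n, f '' L
  have hRc : ∀ n, IsClosed (R n) := fun n =>
    isClosed_biInter fun L hL => ((hcl n L hL).isCompact.image hf).isClosed
  have hRne : ∀ n, (R n).Nonempty := by
    intro n
    obtain ⟨P, hP, hP0, hPL⟩ := hpos n
    by_contra hne
    rw [not_nonempty_iff_eq_empty] at hne
    have h1 : ∀ L ∈ 𝓛 n, μ (f ⁻¹' (P \ f '' L)) = 0 := by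
      intro L hL
      have h2 : MeasurableSet (f '' L) :=
        (((hcl n L hL).isCompact.image hf).isClosed).measurableSet
      refine hPL L hL _ (hP.diff h2) sdiff_subset ?_
      have h3 : L ∩ f ⁻¹' (P \ f '' L) = ∅ := by
        rw [← disjoint_iff_inter_eq_empty, disjoint_left]
        intro x hx hx'
        exact hx'.2 ⟨x, hx, rfl⟩
      rw [h3, measure_empty]
    apply hP0
    have h4 : f ⁻¹' P ⊆ ⋃ L ∈ 𝓛 n, f ⁻¹' (P \ f '' L) := by
      intro x hx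
      by_contra hcon
      have h5 : f x ∈ R n := by
        refine mem_iInter₂.2 fun L hL => ?_
        by_contra h6
        exact hcon (mem_biUnion hL ⟨hx, h6⟩)
      rw [hne] at h5
      exact h5
    exact measure_mono_null h4 ((measure_biUnion_null_iff (hfin n).countable).2 h1)
  have hRanti : ∀ n, R (n + 1) ⊆ R n := fun n =>
    biInter_subset_biInter_left (hmono (Nat.le_succ n))
  obtain ⟨t, ht⟩ := IsCompact.nonempty_iInter_of_sequence_nonempty_isCompact_isClosed R hRanti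
    hRne (hRc 0).isCompact hRc
  refine ⟨t, fun n L hL => ?_⟩
  obtain ⟨x, hx, hxt⟩ := mem_iInter₂.1 (mem_iInter.1 ht n) L hL
  exact ⟨x, hxt, hx⟩

omit [T2Space K] [MeasurableSpace K] [BorelSpace K] in
/-- A dyadic family of closed sets meeting a compact set gives a subset without isolated
points. -/
theorem not_scattered {A : Set K} (hA : IsClosed A) {𝓛 : Set (Set K)} (hne : 𝓛.Nonempty)
    (hcl : ∀ L ∈ 𝓛, IsClosed L) (hmeet : ∀ L ∈ 𝓛, (A ∩ L).Nonempty)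
    (hsplit : ∀ L ∈ 𝓛, ∃ A ∈ 𝓛, ∃ B ∈ 𝓛, A ⊆ L ∧ B ⊆ L ∧ Disjoint A B) :
    ∃ B ⊆ A, B.Nonempty ∧ ∀ x ∈ B, ∀ U : Set K, IsOpen U → U ∩ B ≠ {x} := by
  let S : Set (Set K) := {Z | IsClosed Z ∧ Z ⊆ A ∧ ∀ L ∈ 𝓛, (Z ∩ L).Nonempty}
  obtain ⟨Z, hZ⟩ := zorn_superset S (by
    intro c hcS hc
    rcases c.eq_empty_or_nonempty with rfl | hcne
    · exact ⟨A, ⟨hA, Subset.rfl, hmeet⟩, fun s hs => absurd hs (notMem_empty s)⟩
    · refine ⟨⋂₀ c, ⟨isClosed_sInter fun s hs => (hcS hs).1, ?_, ?_⟩,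
        fun s hs => sInter_subset_of_mem hs⟩
      · obtain ⟨s, hs⟩ := hcne
        exact (sInter_subset_of_mem hs).trans (hcS hs).2.1
      · intro L hL
        have : Nonempty c := hcne.to_subtype
        have h1 : (⋂ s : c, s.1 ∩ L).Nonempty := by
          refine IsCompact.nonempty_iInter_of_directed_nonempty_isCompact_isClosed _ ?_
            (fun s => (hcS s.2).2.2 L hL)
            (fun s => ((hcS s.2).1.inter (hcl L hL)).isCompact)
            (fun s => (hcS s.2).1.inter (hcl L hL))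
          intro s s'
          rcases hc.total s.2 s'.2 with h | h
          · exact ⟨s, Subset.rfl, inter_subset_inter_left _ h⟩
          · exact ⟨s', inter_subset_inter_left _ h, Subset.rfl⟩
        obtain ⟨x, hx⟩ := h1
        rw [mem_iInter] at hx
        exact ⟨x, mem_sInter.2 fun s hs => (hx ⟨s, hs⟩).1, (hx ⟨_, hcne.some_mem⟩).2⟩)
  have hZS : Z ∈ S := hZ.prop
  refine ⟨Z, hZS.2.1, ?_, fun x hx U hU hUx => ?_⟩
  · obtain ⟨L, hL⟩ := hne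
    exact (hZS.2.2 L hL).mono inter_subset_left
  · have h1 : Z \ U ∈ S := by
      refine ⟨hZS.1.sdiff hU, sdiff_subset.trans hZS.2.1, fun L hL => ?_⟩
      obtain ⟨A, hA, B, hB, hAL, hBL, hAB⟩ := hsplit L hL
      have h2 : ∀ M ∈ 𝓛, M ⊆ L → x ∉ M → (Z \ U ∩ L).Nonempty := by
        intro M hM hML hxM
        obtain ⟨y, hyZ, hyM⟩ := hZS.2.2 M hM
        refine ⟨y, ⟨hyZ, fun hyU => ?_⟩, hML hyM⟩
        have h3 : y ∈ U ∩ Z := ⟨hyU, hyZ⟩
        rw [hUx] at h3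
        rw [mem_singleton_iff.1 h3] at hyM
        exact hxM hyM
      by_cases hxA : x ∈ A
      · exact h2 B hB hBL (disjoint_left.1 hAB hxA)
      · exact h2 A hA hAL hxA
    have h4 : Z ⊆ Z \ U := hZ.le_of_le h1 sdiff_subset
    have h5 : x ∈ U := (hUx.symm ▸ mem_singleton x : x ∈ U ∩ Z).1
    exact (h4 hx).2 h5

/-- If the fibres are scattered then every closed set of positive measure contains a closed set of
positive measure on which the measure is determined by the map. -/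
theorem exists_det (hf : Continuous f)
    (hs : ∀ t : X, ∀ A : Set K, A ⊆ f ⁻¹' {t} → A.Nonempty →
      ∃ x ∈ A, ∃ U : Set K, IsOpen U ∧ U ∩ A = {x})
    {L0 : Set K} (hL0 : IsClosed L0) (hpos : μ L0 ≠ 0) :
    ∃ L ⊆ L0, IsClosed L ∧ μ L ≠ 0 ∧ Det μ f L := by
  by_contra hcon
  have hdet : ∀ L ⊆ L0, IsClosed L → μ L ≠ 0 → ¬ Det μ f L := fun L h1 h2 h3 h4 =>
    hcon ⟨L, h1, h2, h3, h4⟩
  let St := {𝓛 : Set (Set K) // 𝓛.Finite ∧ Pos μ f 𝓛 ∧ ∀ L ∈ 𝓛, IsClosed L ∧ L ⊆ L0}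
  have hstep : ∀ 𝓛 : St, ∃ 𝓜 : St, 𝓛.1 ⊆ 𝓜.1 ∧
      ∀ L ∈ 𝓛.1, ∃ A ∈ 𝓜.1, ∃ B ∈ 𝓜.1, A ⊆ L ∧ B ⊆ L ∧ Disjoint A B := by
    intro 𝓛
    obtain ⟨𝓜, h1, h2, h3, h4, h5⟩ := split_all hf hdet 𝓛.2.2.1 𝓛.2.1 𝓛.2.2.2
    exact ⟨⟨𝓜, h1, h3, h4⟩, h2, h5⟩
  choose nx hnx1 hnx2 using hstep
  have hstart : Pos μ f {L0} := by
    obtain ⟨E, hE, h1, h2⟩ := exists_carrier μ hf.measurable L0
    refine ⟨E, hE, fun h0 => hpos ?_, ?_⟩
    · refine measure_mono_null ?_ (measure_union_null h1 h0)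
      intro x hx
      by_cases h : f x ∈ E
      · exact Or.inr h
      · exact Or.inl ⟨hx, h⟩
    · rintro L rfl Q hQ hQE h0
      exact h2 Q hQ hQE h0
  let 𝓛 : ℕ → St := fun n => Nat.rec ⟨{L0}, finite_singleton _, hstart, by
    rintro L rfl
    exact ⟨hL0, Subset.rfl⟩⟩ (fun _ 𝓛 => nx 𝓛) n
  have hs𝓛 : ∀ n, 𝓛 (n + 1) = nx (𝓛 n) := fun n => rfl
  have hmono : Monotone fun n => (𝓛 n).1 := monotone_nat_of_le_succ fun n => by
    rw [hs𝓛]
    exact hnx1 (𝓛 n)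
  obtain ⟨t, ht⟩ := exists_common (μ := μ) hf hmono (fun n => (𝓛 n).2.1) (fun n => (𝓛 n).2.2.1)
    (fun n L hL => ((𝓛 n).2.2.2 L hL).1)
  have hA : IsClosed (f ⁻¹' {t}) := isClosed_singleton.preimage hf
  obtain ⟨B, hBA, hBne, hB⟩ := not_scattered hA (𝓛 := ⋃ n, (𝓛 n).1)
    ⟨L0, mem_iUnion.2 ⟨0, rfl⟩⟩
    (fun L hL => by
      obtain ⟨n, hn⟩ := mem_iUnion.1 hL
      exact ((𝓛 n).2.2.2 L hn).1)
    (fun L hL => by
      obtain ⟨n, hn⟩ := mem_iUnion.1 hL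
      exact ht n L hn)
    (fun L hL => by
      obtain ⟨n, hn⟩ := mem_iUnion.1 hL
      obtain ⟨A, hA, B, hB, h⟩ := hnx2 (𝓛 n) L hn
      rw [← hs𝓛] at hA hB
      exact ⟨A, mem_iUnion.2 ⟨n + 1, hA⟩, B, mem_iUnion.2 ⟨n + 1, hB⟩, h⟩)
  obtain ⟨x, hx, U, hU, hUx⟩ := hs t B hBA hBne
  exact hB x hx U hU hUx

end

end Pool.Agent.P52.Cov
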