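import Mathlib

/-!
# First countability and countable fibres
-/

namespace Pool.Agent.P52.Cov

open Set Filter Topology

/-- A scattered closed subset of a first countable compact space is countable. -/
theorem countable_of_scattered {K : Type*} [TopologicalSpace K] [CompactSpace K] [T2Space K]
    [FirstCountableTopology K] {A : Set K} (hA : IsClosed A)
    (hs : ∀ B : Set K, B ⊆ A → B.Nonempty → ∃ x ∈ B, ∃ U : Set K, IsOpen U ∧ U ∩ B = {x}) :
    A.Countable := by
  by_contra hcon
  have small : ∀ C ⊆ A, IsClosed C → (∀ x ∈ C, ∃ U ∈ 𝓝 x, (U ∩ A).Countable) →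
      C.Countable := by
    intro C hCA hC h
    choose! U hU hUc using h
    obtain ⟨t, htC, ht⟩ := hC.isCompact.elim_nhds_subcover U hU
    have h1 : (⋃ x ∈ t, U x ∩ A).Countable :=
      t.countable_toSet.biUnion fun x hx => hUc x (htC x hx)
    refine h1.mono fun x hx => ?_
    obtain ⟨y, hy, hxy⟩ := mem_iUnion₂.1 (ht hx)
    exact mem_biUnion hy ⟨hxy, hCA hx⟩
  let B : Set K := {x | x ∈ A ∧ ∀ U ∈ 𝓝 x, ¬ (U ∩ A).Countable}
  have hB : B.Nonempty := by
    by_contra hne
    refine hcon (small A Subset.rfl hA fun x hx => ?_)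
    by_contra h
    push Not at h
    exact hne ⟨x, hx, h⟩
  obtain ⟨x, hxB, U, hU, hUB⟩ := hs B (fun x hx => hx.1) hB
  have hxU : x ∈ U := (hUB.symm ▸ mem_singleton x : x ∈ U ∩ B).1
  obtain ⟨V, hV, hVc, hVU⟩ := exists_mem_nhds_isClosed_subset (hU.mem_nhds hxU)
  obtain ⟨w, hw⟩ := (𝓝 x).exists_antitone_basis
  apply hxB.2 V hV
  have h2 : ∀ n, ((V ∩ A) \ interior (w n)).Countable := by
    intro n
    refine small _ (fun y hy => hy.1.2) ?_ ?_
    · rw [sdiff_eq]
      exact (hVc.inter hA).inter isOpen_interior.isClosed_compl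
    · rintro y ⟨⟨hyV, hyA⟩, hyn⟩
      by_contra h
      push Not at h
      have h3 : y ∈ U ∩ B := ⟨hVU hyV, hyA, h⟩
      rw [hUB] at h3
      rw [mem_singleton_iff.1 h3] at hyn
      exact hyn (mem_interior_iff_mem_nhds.2 (hw.mem n))
  refine ((countable_singleton x).union (countable_iUnion h2)).mono ?_
  intro y hy
  by_cases hyx : y = x
  · exact Or.inl hyx
  · right
    obtain ⟨n, hn⟩ := hw.mem_iff.1 (isOpen_compl_singleton.mem_nhds (show x ∈ ({y} : Set K)ᶜ from
      fun h => hyx h.symm))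
    exact mem_iUnion.2 ⟨n, hy, fun h => hn (interior_subset h) rfl⟩

/-- A compact space that is a countable-to-one preimage of a first countable space is first
countable. -/
theorem firstCountable_of_countable {K : Type*} [TopologicalSpace K] [CompactSpace K] [T2Space K]
    {Y : Type*} [TopologicalSpace Y] [T2Space Y] [FirstCountableTopology Y] {f : K → Y}
    (hf : Continuous f) (h : ∀ t, (f ⁻¹' {t}).Countable) : FirstCountableTopology K := by
  refine ⟨fun z => ?_⟩
  have h1 : ∀ y : K, y ≠ z → ∃ C ∈ 𝓝 z, IsClosed C ∧ y ∉ C := by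
    intro y hy
    obtain ⟨C, hC, hCc, hCy⟩ := exists_mem_nhds_isClosed_subset
      (isOpen_compl_singleton.mem_nhds (show z ∈ ({y} : Set K)ᶜ from fun h => hy h.symm))
    exact ⟨C, hC, hCc, fun h => hCy h rfl⟩
  choose! C hC hCc hyC using h1
  have hcount : Countable (f ⁻¹' {f z} \ {z} : Set K) := ((h _).mono sdiff_subset).to_subtype
  have h2 : 𝓝 z = (⨅ y : (f ⁻¹' {f z} \ {z} : Set K), 𝓟 (C y.1)) ⊓ comap f (𝓝 (f z)) := by
    refine le_antisymm (le_inf (le_iInf fun y => le_principal_iff.2 (hC y.1 y.2.2))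
      (map_le_iff_le_comap.1 hf.continuousAt)) ?_
    refine isCompact_univ.le_nhds_of_unique_clusterPt univ_mem fun x _ hx => ?_
    have h3 : f x = f z := by
      have h4 : ClusterPt x (comap f (𝓝 (f z))) := hx.mono inf_le_right
      have h5 : ClusterPt (f x) (𝓝 (f z)) := by
        have := h4.map hf.continuousAt (Filter.tendsto_comap (f := f) (x := 𝓝 (f z)))
        exact this
      exact eq_of_nhds_neBot h5
    by_contra hne
    have h6 : ClusterPt x (𝓟 (C x)) :=
      hx.mono (inf_le_left.trans (iInf_le (fun y : (f ⁻¹' {f z} \ {z} : Set K) => 𝓟 (C y.1))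
        ⟨x, h3, hne⟩))
    have h7 : x ∈ closure (C x) := mem_closure_iff_clusterPt.2 h6
    rw [(hCc x hne).closure_eq] at h7
    exact hyC x hne h7
  rw [h2]
  infer_instance

end Pool.Agent.P52.Cov
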