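import Pool.Agent.P52.Cov.TightK

/-!
# Small fibres give small characters; the additivity and the covering number
-/

namespace Pool.Agent.P52.Cov

open MeasureTheory Set Filter Topology

/-- If a compact space has a continuous map to the Cantor space with fibres of size less than `κ`,
then its points have neighbourhood bases of size less than `κ`. -/
theorem char_of_fibres {κ : Cardinal.{0}} (h0 : Cardinal.aleph0 < κ) {K : Type}
    [TopologicalSpace K] [CompactSpace K] [T2Space K] {f : K → (ℕ → Bool)} (hf : Continuous f)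
    (h : ∀ t, Cardinal.mk (f ⁻¹' {t}) < κ) (z : K) :
    ∃ 𝓑 : Set (Set K), Cardinal.mk 𝓑 < κ ∧ (∀ U ∈ 𝓑, U ∈ 𝓝 z) ∧
      ∀ V ∈ 𝓝 z, ∃ U ∈ 𝓑, U ⊆ V := by
  have h1 : ∀ y : K, y ≠ z → ∃ C ∈ 𝓝 z, IsClosed C ∧ y ∉ C := by
    intro y hy
    obtain ⟨C, hC, hCc, hCy⟩ := exists_mem_nhds_isClosed_subset
      (isOpen_compl_singleton.mem_nhds (show z ∈ ({y} : Set K)ᶜ from fun h => hy h.symm))
    exact ⟨C, hC, hCc, fun h => hCy h rfl⟩
  choose! C hC hCc hyC using h1
  have h2 : (⨅ y : (f ⁻¹' {f z} \ {z} : Set K), 𝓟 (C y.1)) ⊓ comap f (𝓝 (f z)) ≤ 𝓝 z := by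
    refine isCompact_univ.le_nhds_of_unique_clusterPt univ_mem fun x _ hx => ?_
    have h3 : f x = f z := by
      have h4 : ClusterPt x (comap f (𝓝 (f z))) := hx.mono inf_le_right
      have h5 : ClusterPt (f x) (𝓝 (f z)) := by
        have := h4.map hf.continuousAt (Filter.tendsto_comap (f := f) (x := 𝓝 (f z)))
        exact this
      exact eq_of_nhds_neBot h5
    by_contra hne
    have h6 : ClusterPt x (𝓟 (C x)) :=
      hx.mono (inf_le_left.trans (iInf_le (fun y : (f ⁻¹' {f z} \ {z} : Set K) => 𝓟 (C y.1))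
        ⟨x, h3, hne⟩))
    have h7 : x ∈ closure (C x) := mem_closure_iff_clusterPt.2 h6
    rw [(hCc x hne).closure_eq] at h7
    exact hyC x hne h7
  obtain ⟨w, hw⟩ := (𝓝 (f z)).exists_antitone_basis
  have hcard : Cardinal.mk (f ⁻¹' {f z} \ {z} : Set K) < κ :=
    (Cardinal.mk_le_mk_of_subset sdiff_subset).trans_lt (h (f z))
  refine ⟨range fun p : Finset (f ⁻¹' {f z} \ {z} : Set K) × ℕ =>
    (⋂ y ∈ p.1, C y.1) ∩ f ⁻¹' (w p.2), ?_, ?_, ?_⟩
  · refine Cardinal.mk_range_le.trans_lt ?_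
    rw [Cardinal.mk_prod]
    simp only [Cardinal.lift_id, Cardinal.mk_nat]
    exact Cardinal.mul_lt_of_lt h0.le (mk_finset_lt h0 hcard) h0
  · rintro _ ⟨p, rfl⟩
    refine inter_mem ?_ (hf.continuousAt (hw.mem p.2))
    exact (Filter.biInter_finset_mem p.1).2 fun y _ => hC y.1 y.2.2
  · intro V hV
    have h3 := h2 hV
    rw [((hasBasis_iInf_principal_finite _).inf (hw.toHasBasis.comap f)).mem_iff] at h3
    obtain ⟨⟨t, n⟩, ⟨ht, -⟩, hsub⟩ := h3
    refine ⟨_, ⟨(ht.toFinset, n), rfl⟩, ?_⟩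
    refine subset_trans ?_ hsub
    intro x hx
    refine ⟨?_, hx.2⟩
    have h4 := hx.1
    simp only [Finite.mem_toFinset] at h4
    exact h4

/-- The additivity of the Lebesgue null ideal: the least cardinality of a family of null sets whose
union is not null. -/
noncomputable def addN : Cardinal.{0} :=
  sInf {c | ∃ S : Set (Set ℝ), Cardinal.mk S = c ∧ (∀ A ∈ S, volume A = 0) ∧ volume (⋃₀ S) ≠ 0}

/-- The covering number of the Lebesgue null ideal: the least cardinality of a family of null sets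
whose union is the line. -/
noncomputable def covN : Cardinal.{0} :=
  sInf {c | ∃ S : Set (Set ℝ), Cardinal.mk S = c ∧ (∀ A ∈ S, volume A = 0) ∧ ⋃₀ S = univ}

theorem exists_covN : ∃ S : Set (Set ℝ), Cardinal.mk S = covN ∧ (∀ A ∈ S, volume A = 0) ∧
    ⋃₀ S = univ := by
  refine csInf_mem (s := {c | ∃ S : Set (Set ℝ), Cardinal.mk S = c ∧ (∀ A ∈ S, volume A = 0) ∧
    ⋃₀ S = univ}) ⟨_, range fun x : ℝ => {x}, rfl, ?_, ?_⟩
  · rintro _ ⟨x, rfl⟩
    exact measure_singleton x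
  · exact eq_univ_of_forall fun x => mem_sUnion.2 ⟨{x}, mem_range_self x, rfl⟩

theorem covN_le {S : Set (Set ℝ)} (hS : ∀ A ∈ S, volume A = 0) (hcov : ⋃₀ S = univ) :
    covN ≤ Cardinal.mk S :=
  csInf_le (OrderBot.bddBelow _) ⟨S, rfl, hS, hcov⟩

theorem exists_addN : ∃ S : Set (Set ℝ), Cardinal.mk S = addN ∧ (∀ A ∈ S, volume A = 0) ∧
    volume (⋃₀ S) ≠ 0 := by
  obtain ⟨S, hS, hnull, hcov⟩ := exists_covN
  refine csInf_mem (s := {c | ∃ S : Set (Set ℝ), Cardinal.mk S = c ∧ (∀ A ∈ S, volume A = 0) ∧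
    volume (⋃₀ S) ≠ 0}) ⟨_, S, rfl, hnull, ?_⟩
  rw [hcov]
  simp

theorem addN_le {S : Set (Set ℝ)} (hS : ∀ A ∈ S, volume A = 0) (hU : volume (⋃₀ S) ≠ 0) :
    addN ≤ Cardinal.mk S :=
  csInf_le (OrderBot.bddBelow _) ⟨S, rfl, hS, hU⟩

theorem null_of_lt_addN (S : Set (Set ℝ)) (h : Cardinal.mk S < addN)
    (hS : ∀ A ∈ S, volume A = 0) : volume (⋃₀ S) = 0 := by
  by_contra h0
  exact absurd (addN_le hS h0) (not_le.2 h)

theorem addN_le_covN : addN ≤ covN := by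
  obtain ⟨S, hS, hnull, hcov⟩ := exists_covN
  rw [← hS]
  refine addN_le hnull ?_
  rw [hcov]
  simp

theorem aleph0_lt_addN : Cardinal.aleph0 < addN := by
  obtain ⟨S, hS, hnull, hU⟩ := exists_addN
  by_contra h
  rw [not_lt, ← hS, Cardinal.le_aleph0_iff_set_countable] at h
  exact hU ((measure_sUnion_null_iff h).2 hnull)

theorem addN_isRegular : addN.IsRegular := by
  refine ⟨aleph0_lt_addN.le, ?_⟩
  by_contra hcof
  rw [not_le] at hcof
  obtain ⟨S, hS, hnull, hU⟩ := exists_addN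
  obtain ⟨C, hC, hCc⟩ := Order.exists_cof_eq (α := addN.ord.ToType)
  rw [Ordinal.cof_toType] at hCc
  have h1 : Cardinal.mk S = Cardinal.mk addN.ord.ToType := by
    rw [hS, Cardinal.mk_toType, Cardinal.card_ord]
  obtain ⟨e⟩ := Cardinal.eq.1 h1
  let R : C → Set ℝ := fun c => ⋃₀ (Subtype.val '' {s : S | e s ≤ c.1})
  have hR : ∀ c, volume (R c) = 0 := by
    intro c
    refine null_of_lt_addN _ ?_ ?_
    · refine Cardinal.mk_image_le.trans_lt ?_
      refine (Cardinal.mk_le_of_injective (f := fun s : {s : S | e s ≤ c.1} =>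
        (⟨e s.1, s.2⟩ : Iic c.1)) ?_).trans_lt (mk_Iic_lt_ord aleph0_lt_addN c.1)
      intro s s' h
      have h2 : e s.1 = e s'.1 := congrArg Subtype.val h
      exact Subtype.ext (e.injective h2)
    · rintro _ ⟨s, -, rfl⟩
      exact hnull s.1 s.2
  apply hU
  have h3 := null_of_lt_addN (range R) (Cardinal.mk_range_le.trans_lt (hCc.trans_lt hcof)) (by
    rintro _ ⟨c, rfl⟩
    exact hR c)
  refine measure_mono_null ?_ h3
  intro x hx
  obtain ⟨A, hA, hxA⟩ := mem_sUnion.1 hx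
  obtain ⟨c, hc, hec⟩ := hC (e ⟨A, hA⟩)
  exact mem_sUnion.2 ⟨R ⟨c, hc⟩, mem_range_self _, mem_sUnion.2 ⟨A, ⟨⟨A, hA⟩, hec, rfl⟩, hxA⟩⟩

end Pool.Agent.P52.Cov
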