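import Pool.Agent.P52.Cov.FirstK
import Pool.Agent.P52.Cov.AddTr

/-!
# Heights of the fibres of spaces of large density
-/

namespace Pool.Agent.P52.Cov

open MeasureTheory Set Filter Topology
open scoped ENNReal
open Pool.Agent.Results.MP_605315_lc.FibreHeights (CB mem_CB CB_mono CB_anti base)

section

variable {κ : Cardinal.{0}}

/-- A scattered closed set of size less than `κ` has height less than `κ`. -/
theorem exists_CB_eq_empty_small {K : Type} [TopologicalSpace K]
    {A : Set K} (hA : ∀ B : Set K, B ⊆ A → B.Nonempty →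
      ∃ x ∈ B, ∃ U : Set K, IsOpen U ∧ U ∩ B = {x}) (hc : Cardinal.mk A < κ) :
    ∃ γ : Ordinal.{0}, γ.card < κ ∧ CB A γ = ∅ := by
  by_contra hcon
  push Not at hcon
  have h1 : ∀ i : κ.ord.ToType, ∃ x ∈ CB A i.toOrd.1, x ∉ CB A (Order.succ i.toOrd.1) := by
    intro i
    have hi : (i.toOrd.1 : Ordinal.{0}).card < κ := Cardinal.lt_ord.1 i.toOrd.2
    obtain ⟨x, hx, U, hU, hUx⟩ := hA (CB A i.toOrd.1) (fun x hx => (mem_CB.1 hx).1) (hcon _ hi)
    refine ⟨x, hx, fun hx' => ?_⟩
    have h2 := (mem_CB.1 hx').2 i.toOrd.1 (Order.lt_succ _)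
    rw [accPt_iff_nhds] at h2
    have hxU : x ∈ U := (hUx.symm ▸ mem_singleton x : x ∈ U ∩ CB A i.toOrd.1).1
    obtain ⟨y, hy, hyx⟩ := h2 U (hU.mem_nhds hxU)
    rw [hUx] at hy
    exact hyx hy
  choose x hx hx' using h1
  have hinj : Function.Injective x := by
    intro i j hij
    by_contra hne
    wlog hlt : i < j generalizing i j
    · exact this hij.symm (Ne.symm hne) (lt_of_le_of_ne (not_lt.1 hlt) (Ne.symm hne))
    have hlt' : (i.toOrd.1 : Ordinal.{0}) < j.toOrd.1 :=
      Ordinal.ToType.mk.symm.lt_iff_lt.2 hlt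
    have h4 := hx j
    rw [← hij] at h4
    exact hx' i (CB_anti (Order.succ_le_of_lt hlt') h4)
  have h3 : Cardinal.mk κ.ord.ToType ≤ Cardinal.mk A :=
    Cardinal.mk_le_of_injective (f := fun i => (⟨x i, (mem_CB.1 (hx i)).1⟩ : A))
      fun i j hij => hinj (Subtype.mk.inj hij)
  rw [Cardinal.mk_toType, Cardinal.card_ord] at h3
  exact absurd h3 (not_le.2 hc)

/-- The complement of the closure of a small set of maximal measure. -/
theorem exists_open_small (hκ : κ.IsRegular) (h0 : Cardinal.aleph0 < κ) {K : Type}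
    [TopologicalSpace K] [MeasurableSpace K] [BorelSpace K] (μ : Measure K) [IsFiniteMeasure μ]
    (hd : ∀ D : Set K, Cardinal.mk D < κ → ¬ Dense D) :
    ∃ O : Set K, IsOpen O ∧ O.Nonempty ∧
      ∀ D : Set K, Cardinal.mk D < κ → μ.restrict O (closure D) = 0 := by
  let S : Set (Set K) := {D | Cardinal.mk D < κ}
  obtain ⟨u, -, hu, huS⟩ := exists_seq_tendsto_sSup (S := (fun D => μ (closure D)) '' S)
    ⟨_, ∅, by simpa [S] using hκ.pos, rfl⟩ (OrderTop.bddAbove _)
  choose D hD hDu using huS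
  let E : Set K := ⋃ n, D n
  have hE : Cardinal.mk E < κ := (Cardinal.card_iUnion_lt_iff_forall_of_isRegular hκ
    (by rw [Cardinal.mk_nat]; exact h0)).2 hD
  have hmax : ∀ C : Set K, Cardinal.mk C < κ → μ (closure C) ≤ μ (closure E) := by
    intro C hC
    refine le_trans (le_sSup (show μ (closure C) ∈ (fun D => μ (closure D)) '' S from
      ⟨C, hC, rfl⟩)) (le_of_tendsto' hu fun n => ?_)
    rw [← hDu n]
    exact measure_mono (closure_mono (subset_iUnion D n))
  refine ⟨(closure E)ᶜ, isClosed_closure.isOpen_compl, ?_, fun C hC => ?_⟩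
  · rw [nonempty_compl]
    intro h
    exact hd E hE (dense_iff_closure_eq.2 h)
  · rw [Measure.restrict_apply isClosed_closure.measurableSet]
    have h1 := hmax (C ∪ E) ((Cardinal.mk_union_le _ _).trans_lt
      (Cardinal.add_lt_of_lt h0.le hC hE))
    rw [closure_union] at h1
    have h2 : closure C ∪ closure E = closure E ∪ (closure C ∩ (closure E)ᶜ) := by
      ext x
      simp only [mem_union, mem_inter_iff, mem_compl_iff]
      tauto
    rw [h2, measure_union (disjoint_left.2 fun x hx hx' => hx'.2 hx)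
      (isClosed_closure.measurableSet.inter isClosed_closure.measurableSet.compl)] at h1
    by_contra h3
    exact absurd h1 (not_le.2 (ENNReal.lt_add_right (measure_ne_top _ _) h3))

variable (hadd : ∀ S : Set (Set ℝ), Cardinal.mk S < κ →
    (∀ A ∈ S, volume A = 0) → volume (⋃₀ S) = 0)

include hadd

theorem add_finite {ι : Type} (hι : Cardinal.mk ι < κ) (ρ : Measure (ℕ → Bool))
    [IsFiniteMeasure ρ] (T : ι → Set (ℕ → Bool)) (hT : ∀ i, ρ (T i) = 0) : ρ (⋃ i, T i) = 0 := by
  rcases eq_zero_or_neZero ρ with rfl | h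
  · rfl
  · have h1 := add_transfer hadd ((ρ univ)⁻¹ • ρ) hι T fun i => by
      rw [Measure.smul_apply, hT i, smul_zero]
    rw [Measure.smul_apply, smul_eq_mul] at h1
    rcases mul_eq_zero.1 h1 with h2 | h2
    · exact absurd (ENNReal.inv_eq_zero.1 h2) (measure_ne_top _ _)
    · exact h2

theorem key_small (hκ : κ.IsRegular) (h0 : Cardinal.aleph0 < κ) {K : Type} [TopologicalSpace K]
    [CompactSpace K] [T2Space K] [MeasurableSpace K] [BorelSpace K] {ν : Measure K}
    [IsFiniteMeasure ν] [ν.WeaklyRegular]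
    (hν : ∀ D : Set K, Cardinal.mk D < κ → ν (closure D) = 0) {f : K → (ℕ → Bool)}
    (hf : Continuous f) (γ : Ordinal.{0}) :
    γ.card < κ → ∀ L : Set K, IsClosed L → ∀ ε : ℝ≥0∞, ε ≠ 0 →
      ∃ N : Set K, IsClosed N ∧ N ⊆ L ∧ ν (L \ N) ≤ ε ∧ ∃ D : Set K, Cardinal.mk D < κ ∧
        closure D ⊆ L ∧ ∀ t ∈ f '' N, (CB (closure D ∩ f ⁻¹' {t}) γ).Nonempty := by
  induction γ using WellFoundedLT.induction with
  | ind γ ih =>
  intro hγ L hL ε hε
  rcases Ordinal.zero_or_succ_or_isSuccLimit γ with rfl | ⟨p, rfl⟩ | hlim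
  · obtain ⟨D, hD, hDL, hDf⟩ := base hf hL
    refine ⟨L, hL, Subset.rfl, by simp, D,
      (Cardinal.le_aleph0_iff_set_countable.2 hD).trans_lt h0, hDL, fun t ht => ?_⟩
    obtain ⟨x, hx, rfl⟩ := hDf ht
    refine ⟨x, ?_⟩
    rw [mem_CB]
    exact ⟨⟨hx, rfl⟩, fun p hp => absurd hp not_lt_zero⟩
  · -- the successor step
    have hp : p < Order.succ p := Order.lt_succ p
    have hp' : p.card < κ := (Ordinal.card_le_card hp.le).trans_lt hγ
    have step : ∀ L : Set K, IsClosed L → ∀ ε : ℝ≥0∞, ε ≠ 0 →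
        ∃ N : Set K, IsClosed N ∧ ∃ D : Set K, Cardinal.mk D < κ ∧ closure D ⊆ L ∧ N ⊆ L ∧
          (∀ x ∈ N, x ∉ closure D) ∧ ν (L \ N) ≤ ε ∧
          ∀ t ∈ f '' N, (CB (closure D ∩ f ⁻¹' {t}) p).Nonempty := by
      intro L hL ε hε
      obtain ⟨N0, hN0c, hN0L, hN0, D, hD, hDL, ht⟩ :=
        ih p hp hp' L hL (ε / 2) (ENNReal.half_pos hε).ne'
      have hm : MeasurableSet (N0 \ closure D) :=
        hN0c.measurableSet.diff isClosed_closure.measurableSet
      obtain ⟨N, hNs, hNc, hN⟩ := hm.exists_isClosed_sdiff_lt (measure_ne_top ν _)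
        (ENNReal.half_pos hε).ne'
      refine ⟨N, hNc, D, hD, hDL, fun x hx => hN0L (hNs hx).1, fun x hx => (hNs hx).2, ?_,
        fun t htN => ht t ?_⟩
      · have h1 : L \ N ⊆ (L \ N0) ∪ (((N0 \ closure D) \ N) ∪ closure D) := by
          intro x hx
          by_cases h0 : x ∈ N0
          · by_cases h2 : x ∈ closure D
            · exact Or.inr (Or.inr h2)
            · exact Or.inr (Or.inl ⟨⟨h0, h2⟩, hx.2⟩)
          · exact Or.inl ⟨hx.1, h0⟩
        calc ν (L \ N) ≤ ν (L \ N0) + (ν ((N0 \ closure D) \ N) + ν (closure D)) :=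
              (measure_mono h1).trans ((measure_union_le _ _).trans
                (add_le_add le_rfl (measure_union_le _ _)))
          _ ≤ ε / 2 + (ε / 2 + 0) := add_le_add hN0 (add_le_add hN.le (hν D hD).le)
          _ = ε := by rw [add_zero, ENNReal.add_halves]
      · obtain ⟨x, hx, rfl⟩ := htN
        exact ⟨x, (hNs hx).1, rfl⟩
    obtain ⟨ε', hε'pos, hε'⟩ := ENNReal.exists_pos_sum_of_countable' hε ℕ
    have hchoice : ∀ (n : ℕ) (L : {L : Set K // IsClosed L}), ∃ N : {L : Set K // IsClosed L},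
        ∃ D : Set K, Cardinal.mk D < κ ∧ closure D ⊆ L.1 ∧ N.1 ⊆ L.1 ∧
          (∀ x ∈ N.1, x ∉ closure D) ∧ ν (L.1 \ N.1) ≤ ε' n ∧
          ∀ t ∈ f '' N.1, (CB (closure D ∩ f ⁻¹' {t}) p).Nonempty := by
      intro n L
      obtain ⟨N, hN, D, h⟩ := step L.1 L.2 (ε' n) (hε'pos n).ne'
      exact ⟨⟨N, hN⟩, D, h⟩
    choose N D hDc hDL hNL hdisj hNε hNt using hchoice
    let F : ℕ → {L : Set K // IsClosed L} := fun n => Nat.rec ⟨L, hL⟩ (fun n L => N n L) n
    have hFs : ∀ n, F (n + 1) = N n (F n) := fun n => rfl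
    have hanti : Antitone fun n => (F n).1 := antitone_nat_of_succ_le fun n => by
      rw [hFs]
      exact hNL n (F n)
    let D' : Set K := ⋃ n, D n (F n)
    have hD'n : ∀ n, closure (D n (F n)) ⊆ closure D' := fun n =>
      closure_mono (subset_iUnion (fun n => D n (F n)) n)
    refine ⟨⋂ n, (F n).1, isClosed_iInter fun n => (F n).2, fun x hx => mem_iInter.1 hx 0, ?_,
      D', (Cardinal.card_iUnion_lt_iff_forall_of_isRegular hκ
        (by rw [Cardinal.mk_nat]; exact h0)).2 fun n => hDc n (F n), ?_, ?_⟩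
    · have h1 : L \ ⋂ n, (F n).1 ⊆ ⋃ n, ((F n).1 \ (F (n + 1)).1) := by
        intro x hx
        by_contra hcon
        apply hx.2
        rw [mem_iInter]
        intro n
        induction n with
        | zero => exact hx.1
        | succ n ihn =>
          by_contra h
          exact hcon (mem_iUnion.2 ⟨n, ihn, h⟩)
      calc ν (L \ ⋂ n, (F n).1) ≤ ν (⋃ n, ((F n).1 \ (F (n + 1)).1)) := measure_mono h1
        _ ≤ ∑' n, ν ((F n).1 \ (F (n + 1)).1) := measure_iUnion_le _
        _ ≤ ∑' n, ε' n := ENNReal.tsum_le_tsum fun n => by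
            rw [hFs]
            exact hNε n (F n)
        _ ≤ ε := hε'.le
    · refine closure_minimal (iUnion_subset fun n => ?_) hL
      exact subset_closure.trans ((hDL n (F n)).trans (hanti (Nat.zero_le n)))
    · rintro t ⟨x, hx, rfl⟩
      have h1 : ∀ n, (CB (closure (D n (F n)) ∩ f ⁻¹' {f x}) p).Nonempty := fun n =>
        hNt n (F n) (f x) ⟨x, by
          rw [← hFs]
          exact mem_iInter.1 hx (n + 1), rfl⟩
      choose z hz using h1
      have hzA : ∀ n, z n ∈ closure (D n (F n)) := fun n => (mem_CB.1 (hz n)).1.1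
      have hinj : Function.Injective z := by
        intro m n hmn
        by_contra hne'
        wlog hlt : m < n generalizing m n
        · exact this hmn.symm (Ne.symm hne') (lt_of_le_of_ne (not_lt.1 hlt) (Ne.symm hne'))
        have h2 : z n ∈ (F (m + 1)).1 := hanti (Nat.succ_le_of_lt hlt) (hDL n (F n) (hzA n))
        rw [hFs] at h2
        exact hdisj m (F m) (z n) h2 (hmn ▸ hzA m)
      set A : Set K := closure D' ∩ f ⁻¹' {f x} with hA
      have hAc : IsClosed A := isClosed_closure.inter (isClosed_singleton.preimage hf)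
      have h4 : range z ⊆ CB A p := by
        rintro _ ⟨n, rfl⟩
        exact CB_mono (inter_subset_inter_left _ (hD'n n)) _ (hz n)
      obtain ⟨y, hy, hyacc⟩ := (infinite_range_of_injective hinj).exists_accPt_of_subset_isCompact
        hAc.isCompact (h4.trans fun y hy => (mem_CB.1 hy).1)
      refine ⟨y, mem_CB.2 ⟨hy, fun q hq => ?_⟩⟩
      exact hyacc.mono (principal_mono.2 (h4.trans (CB_anti (Order.lt_succ_iff.1 hq))))
  · -- the limit step
    have hι : Cardinal.mk γ.ToType < κ := by rwa [Cardinal.mk_toType]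
    have hlt : ∀ i : γ.ToType, (i.toOrd.1 : Ordinal.{0}) < γ := fun i => i.toOrd.2
    obtain ⟨u, -, hupos, hu⟩ := exists_seq_strictAnti_tendsto' (zero_lt_one' ℝ≥0∞)
    have hchoice : ∀ (i : γ.ToType) (n : ℕ), ∃ N : Set K, IsClosed N ∧ N ⊆ L ∧ ν (L \ N) ≤ u n ∧
        ∃ D : Set K, Cardinal.mk D < κ ∧ closure D ⊆ L ∧
          ∀ t ∈ f '' N, (CB (closure D ∩ f ⁻¹' {t}) i.toOrd.1).Nonempty := fun i n =>
      ih i.toOrd.1 (hlt i) ((Ordinal.card_le_card (hlt i).le).trans_lt hγ) L hL (u n)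
        (hupos n).1.ne'
    choose N hNc hNL hNu D hD hDL hDt using hchoice
    let ρ : Measure (ℕ → Bool) := (ν.restrict L).map f
    have hρfin : IsFiniteMeasure ρ := by
      change IsFiniteMeasure ((ν.restrict L).map f)
      infer_instance
    have hρ : ∀ A : Set (ℕ → Bool), MeasurableSet A → ρ A = ν (f ⁻¹' A ∩ L) := by
      intro A hA
      change (ν.restrict L).map f A = _
      rw [Measure.map_apply hf.measurable hA, Measure.restrict_apply (hf.measurable hA)]
    have hT : ∀ i, ρ (⋃ n, f '' (N i n))ᶜ = 0 := by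
      intro i
      refine le_antisymm (ge_of_tendsto' hu fun n => ?_) zero_le
      have h1 : IsClosed (f '' (N i n)) := ((hNc i n).isCompact.image hf).isClosed
      calc ρ (⋃ n, f '' (N i n))ᶜ ≤ ρ (f '' (N i n))ᶜ :=
            measure_mono (compl_subset_compl.2 (subset_iUnion (fun n => f '' (N i n)) n))
        _ = ν (f ⁻¹' (f '' (N i n))ᶜ ∩ L) := hρ _ h1.measurableSet.compl
        _ ≤ ν (L \ N i n) := measure_mono fun x hx => ⟨hx.2, fun h => hx.1 ⟨x, h, rfl⟩⟩
        _ ≤ u n := hNu i n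
    have hTU := add_finite hadd hι ρ (fun i => (⋃ n, f '' (N i n))ᶜ) hT
    obtain ⟨V, hTV, hVo, hV⟩ := (⋃ i, (⋃ n, f '' (N i n))ᶜ).exists_isOpen_le_add ρ hε
    rw [hTU, zero_add] at hV
    refine ⟨L ∩ f ⁻¹' Vᶜ, hL.inter (hVo.isClosed_compl.preimage hf), inter_subset_left, ?_,
      ⋃ i, ⋃ n, D i n, ?_, ?_, ?_⟩
    · have h1 : L \ (L ∩ f ⁻¹' Vᶜ) = f ⁻¹' V ∩ L := by
        ext x
        simp only [Set.mem_sdiff, mem_inter_iff, mem_preimage, mem_compl_iff]
        tauto
      rw [h1, ← hρ _ hVo.measurableSet]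
      exact hV
    · exact (Cardinal.card_iUnion_lt_iff_forall_of_isRegular hκ hι).2 fun i =>
        (Cardinal.card_iUnion_lt_iff_forall_of_isRegular hκ
          (by rw [Cardinal.mk_nat]; exact h0)).2 fun n => hD i n
    · exact closure_minimal (iUnion_subset fun i => iUnion_subset fun n =>
        subset_closure.trans (hDL i n)) hL
    · rintro t ⟨x, ⟨hxL, hxV⟩, rfl⟩
      set A : Set K := closure (⋃ i, ⋃ n, D i n) ∩ f ⁻¹' {f x} with hA
      have hAc : IsClosed A := isClosed_closure.inter (isClosed_singleton.preimage hf)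
      have h1 : ∀ i : γ.ToType, (CB A i.toOrd.1).Nonempty := by
        intro i
        have h2 : f x ∈ ⋃ n, f '' (N i n) := by
          by_contra h
          exact hxV (hTV (mem_iUnion.2 ⟨i, h⟩))
        obtain ⟨n, hn⟩ := mem_iUnion.1 h2
        refine (hDt i n (f x) hn).mono (CB_mono (inter_subset_inter_left _ (closure_mono ?_)) _)
        exact (subset_iUnion (D i) n).trans (subset_iUnion (fun i => ⋃ n, D i n) i)
      have hne : Nonempty γ.ToType := by
        rw [← Cardinal.mk_ne_zero_iff, Cardinal.mk_toType, Ne, Ordinal.card_eq_zero]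
        exact hlim.ne_bot
      obtain ⟨y, hy⟩ := IsCompact.nonempty_iInter_of_directed_nonempty_isCompact_isClosed
        (fun i : γ.ToType => CB A i.toOrd.1) (by
          intro i j
          rcases le_total i j with h | h
          · exact ⟨j, CB_anti (Ordinal.ToType.mk.symm.le_iff_le.2 h), Subset.rfl⟩
          · exact ⟨i, Subset.rfl, CB_anti (Ordinal.ToType.mk.symm.le_iff_le.2 h)⟩) h1
        (fun i => (isClosed_CB hAc _).isCompact) (fun i => isClosed_CB hAc _)
      rw [mem_iInter] at hy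
      have hyq : ∀ q < γ, y ∈ CB A q := by
        intro q hq
        have h2 := hy (Ordinal.ToType.mk ⟨q, hq⟩)
        rwa [Ordinal.ToType.toOrd, OrderIso.symm_apply_apply] at h2
      refine ⟨y, mem_CB.2 ⟨(mem_CB.1 (hyq 0 hlim.bot_lt)).1, fun q hq => ?_⟩⟩
      exact (mem_CB.1 (hyq _ (hlim.succ_lt hq))).2 q (Order.lt_succ q)

/-- Examples of density at least `κ` with fibres of height less than `κ` give a covering of the
line by `κ` null sets. -/
theorem cover_of_height (hκ : κ.IsRegular) (h0 : Cardinal.aleph0 < κ) {K : Type}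
    [TopologicalSpace K] [CompactSpace K] [T2Space K] [MeasurableSpace K] [BorelSpace K]
    {μ : Measure K} [IsFiniteMeasure μ] [μ.WeaklyRegular] [μ.IsOpenPosMeasure]
    {f : K → (ℕ → Bool)} (hf : Continuous f)
    (hd : ∀ D : Set K, Cardinal.mk D < κ → ¬ Dense D)
    (hh : ∀ t, ∃ γ : Ordinal.{0}, γ.card < κ ∧ CB (f ⁻¹' {t}) γ = ∅) :
    ∃ S : Set (Set ℝ), Cardinal.mk S ≤ κ ∧ (∀ A ∈ S, volume A = 0) ∧ ⋃₀ S = univ := by
  obtain ⟨O, hO, hOne, hν⟩ := exists_open_small hκ h0 μ hd
  have hOpos : μ O ≠ 0 := hO.measure_ne_zero μ hOne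
  have hwr : (μ.restrict O).WeaklyRegular :=
    Measure.WeaklyRegular.restrict_of_measure_ne_top (measure_ne_top _ _)
  let ρ : Measure (ℕ → Bool) := (μ.restrict O).map f
  have hρfin : IsFiniteMeasure ρ := by
    change IsFiniteMeasure ((μ.restrict O).map f)
    infer_instance
  have hρ0 : ρ ≠ 0 := by
    intro h
    have h1 : ρ univ = μ O := by
      change (μ.restrict O).map f univ = μ O
      rw [Measure.map_apply hf.measurable MeasurableSet.univ, preimage_univ,
        Measure.restrict_apply_univ]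
    rw [h] at h1
    exact hOpos h1.symm
  have : NeZero ρ := ⟨hρ0⟩
  let T : κ.ord.ToType → Set (ℕ → Bool) := fun i => {t | CB (f ⁻¹' {t}) i.toOrd.1 = ∅}
  have hT : ∀ i, ρ (T i) = 0 := by
    intro i
    refine le_antisymm (ENNReal.le_of_forall_pos_le_add fun ε hε _ => ?_) zero_le
    have hε' : (ε : ℝ≥0∞) ≠ 0 := by exact_mod_cast hε.ne'
    obtain ⟨N, hN, -, hNε, D, -, -, hDt⟩ := key_small hadd hκ h0 hν hf i.toOrd.1
      (Cardinal.lt_ord.1 i.toOrd.2) univ isClosed_univ ε hε'
    have h1 : T i ⊆ (f '' N)ᶜ := by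
      intro t ht htN
      have h2 := (hDt t htN).mono (CB_mono inter_subset_right _)
      exact h2.ne_empty ht
    have h2 : IsClosed (f '' N) := (hN.isCompact.image hf).isClosed
    calc ρ (T i) ≤ ρ (f '' N)ᶜ := measure_mono h1
      _ = μ.restrict O (f ⁻¹' (f '' N)ᶜ) := Measure.map_apply hf.measurable h2.measurableSet.compl
      _ ≤ μ.restrict O (univ \ N) :=
        measure_mono fun x hx => ⟨mem_univ x, fun h => hx ⟨x, h, rfl⟩⟩
      _ ≤ 0 + ε := by rwa [zero_add]
  obtain ⟨A, hA, hAcov⟩ := line_cover ((ρ univ)⁻¹ • ρ) T (fun i => by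
      rw [Measure.smul_apply, hT i, smul_zero]) (fun t => by
      obtain ⟨γ, hγ, h⟩ := hh t
      refine ⟨Ordinal.ToType.mk ⟨γ, Cardinal.lt_ord.2 hγ⟩, ?_⟩
      change CB (f ⁻¹' {t}) (Ordinal.ToType.mk (⟨γ, Cardinal.lt_ord.2 hγ⟩ :
        Iio κ.ord)).toOrd.1 = ∅
      rwa [Ordinal.ToType.toOrd, OrderIso.symm_apply_apply])
  refine ⟨range A, ?_, ?_, ?_⟩
  · refine Cardinal.mk_range_le.trans ?_
    rw [Cardinal.mk_toType, Cardinal.card_ord]
  · rintro _ ⟨i, rfl⟩
    exact hA i
  · refine eq_univ_of_forall fun x => ?_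
    obtain ⟨i, hi⟩ := hAcov x
    exact mem_sUnion.2 ⟨A i, mem_range_self i, hi⟩

end

end Pool.Agent.P52.Cov
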