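import Pool.Agent.P52.Cov.Caliber

/-!
# Few open sets are met by a countable set, unless few null sets cover the line
-/

namespace Pool.Agent.P52.Cov

open MeasureTheory Set Filter Topology
open scoped ENNReal

theorem meet_of_det {K : Type*} [TopologicalSpace K] [CompactSpace K] [T2Space K]
    [MeasurableSpace K] [BorelSpace K] {μ : Measure K} [IsFiniteMeasure μ]
    {f : K → (ℕ → Bool)} (hf : Continuous f) {L : Set K} (hL : IsClosed L) (hdet : Det μ f L)
    {ι : Type} (C : ι → Set K) (hC : ∀ i, IsClosed (C i)) (hCL : ∀ i, C i ⊆ L)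
    (hC0 : ∀ i, μ (C i) ≠ 0) {c : Cardinal.{0}} (hc : Cardinal.aleph0 ≤ c)
    (hι : Cardinal.mk ι ≤ c)
    (hno : ¬ ∃ S : Set (Set ℝ), Cardinal.mk S ≤ c ∧ (∀ A ∈ S, volume A = 0) ∧ ⋃₀ S = univ) :
    ∃ E : Set K, E.Countable ∧ ∀ i, (E ∩ C i).Nonempty := by
  rcases isEmpty_or_nonempty ι with hι0 | ⟨⟨i0⟩⟩
  · exact ⟨∅, countable_empty, fun i => hι0.elim i⟩
  choose E hE hCE hEC using fun i => hdet (C i) (hC i) (hCL i)
  let ρ : Measure (ℕ → Bool) := (μ.restrict L).map f
  have hρfin : IsFiniteMeasure ρ := by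
    change IsFiniteMeasure ((μ.restrict L).map f)
    infer_instance
  have hρ : ∀ A : Set (ℕ → Bool), MeasurableSet A → ρ A = μ (f ⁻¹' A ∩ L) := by
    intro A hA
    change (μ.restrict L).map f A = _
    rw [Measure.map_apply hf.measurable hA, Measure.restrict_apply (hf.measurable hA)]
  have hρE : ∀ i, ρ (E i) ≠ 0 := by
    intro i h0
    rw [hρ _ (hE i)] at h0
    apply hC0 i
    refine measure_mono_null ?_ (measure_union_null (hCE i) h0)
    intro x hx
    by_cases h : f x ∈ E i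
    · exact Or.inr ⟨h, hCL i hx⟩
    · exact Or.inl ⟨hx, h⟩
  have hne : NeZero ρ := ⟨fun h => hρE i0 (by
    rw [h]
    rfl)⟩
  let m : Measure (ℕ → Bool) := (ρ univ)⁻¹ • ρ
  have hm : ∀ A, ρ A = 0 → m A = 0 := by
    intro A hA
    change (ρ univ)⁻¹ • ρ A = 0
    rw [hA, smul_zero]
  have hm' : ∀ A, m A = 0 → ρ A = 0 := by
    intro A hA
    change (ρ univ)⁻¹ * ρ A = 0 at hA
    rcases mul_eq_zero.1 hA with h | h
    · exact absurd (ENNReal.inv_eq_zero.1 h) (measure_ne_top _ _)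
    · exact h
  have hmp : IsProbabilityMeasure m := by
    change IsProbabilityMeasure ((ρ univ)⁻¹ • ρ)
    infer_instance
  let P : Measure (ℕ → ℕ → Bool) := Measure.infinitePi fun _ : ℕ => m
  let T : ι ⊕ (Finset ι × ℕ) → Set (ℕ → ℕ → Bool) := Sum.elim (fun i => {y | ∀ k, y k ∉ E i})
    fun p => {y | y p.2 ∈ (⋂ i ∈ p.1, E i) \ f '' (L ∩ ⋂ i ∈ p.1, C i)}
  have hT : ∀ j, P (T j) = 0 := by
    rintro (i | ⟨s, k⟩)
    · change P {y | ∀ k, y k ∉ E i} = 0
      have hlt : m (E i)ᶜ < 1 := by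
        refine lt_of_le_of_ne prob_le_one fun h => hρE i (hm' _ ?_)
        exact (prob_compl_eq_one_iff (hE i)).1 h
      refine le_antisymm (ge_of_tendsto' (ENNReal.tendsto_pow_atTop_nhds_zero_of_lt_one hlt)
        fun N => ?_) zero_le
      have h1 : P (Set.pi (Finset.range N : Set ℕ) fun _ => (E i)ᶜ) =
          ∏ n ∈ Finset.range N, m (E i)ᶜ :=
        Measure.infinitePi_pi (μ := fun _ : ℕ => m) fun n _ => (hE i).compl
      rw [Finset.prod_const, Finset.card_range] at h1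
      rw [← h1]
      exact measure_mono fun y hy n _ => hy n
    · have h2 : IsClosed (L ∩ ⋂ i ∈ s, C i) := hL.inter (isClosed_biInter fun w _ => hC w)
      have h3 : MeasurableSet ((⋂ i ∈ s, E i) \ f '' (L ∩ ⋂ i ∈ s, C i)) :=
        (Finset.measurableSet_biInter s fun w _ => hE w).diff
          (h2.isCompact.image hf).isClosed.measurableSet
      change P ((fun y : ℕ → ℕ → Bool => y k) ⁻¹'
        ((⋂ i ∈ s, E i) \ f '' (L ∩ ⋂ i ∈ s, C i))) = 0
      rw [← Measure.map_apply (measurable_pi_apply k) h3,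
        Measure.infinitePi_map_eval (fun _ : ℕ => m) k]
      apply hm
      rw [hρ _ h3]
      refine measure_mono_null (t := ⋃ w ∈ s, ((L \ C w) ∩ f ⁻¹' (E w))) ?_
        ((measure_biUnion_null_iff s.countable_toSet).2 fun w _ => hEC w)
      rintro x ⟨⟨hxE, hxn⟩, hxL⟩
      by_contra hcon
      refine hxn ⟨x, ⟨hxL, mem_iInter₂.2 fun w hw => ?_⟩, rfl⟩
      by_contra hxC
      exact hcon (mem_biUnion hw ⟨⟨hxL, hxC⟩, mem_iInter₂.1 hxE w hw⟩)
  have hcov : ¬ ∀ y, ∃ i, y ∈ T i := by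
    intro hcov
    obtain ⟨A, hA, hAcov⟩ := line_cover P T hT hcov
    apply hno
    refine ⟨range A, ?_, ?_, ?_⟩
    · refine Cardinal.mk_range_le.trans ?_
      rw [Cardinal.mk_sum, Cardinal.mk_prod]
      simp only [Cardinal.lift_id, Cardinal.mk_nat]
      have h1 : Cardinal.mk (Finset ι) ≤ c := by
        rcases finite_or_infinite ι with h | h
        · exact (Cardinal.mk_le_aleph0 (α := Finset ι)).trans hc
        · rw [Cardinal.mk_finset_of_infinite]
          exact hι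
      exact Cardinal.add_le_of_le hc hι (Cardinal.mul_le_of_le hc h1 hc)
    · rintro _ ⟨i, rfl⟩
      exact hA i
    · refine eq_univ_of_forall fun x => ?_
      obtain ⟨i, hi⟩ := hAcov x
      exact mem_sUnion.2 ⟨A i, mem_range_self i, hi⟩
  push Not at hcov
  obtain ⟨y, hy⟩ := hcov
  have hx : ∀ k, ∃ x, ∀ i, y k ∈ E i → x ∈ C i := by
    intro k
    obtain ⟨x, hx, hxC⟩ := IsCompact.inter_iInter_nonempty
      (s := f ⁻¹' {y k} ∩ L) ((isClosed_singleton.preimage hf).inter hL).isCompact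
      (fun w : {w | y k ∈ E w} => C w.1) (fun w => hC w.1) (by
        classical
        intro s
        have h1 : y k ∉ (⋂ w ∈ s.image Subtype.val, E w) \
            f '' (L ∩ ⋂ w ∈ s.image Subtype.val, C w) :=
          hy (Sum.inr (s.image Subtype.val, k))
        have h2 : y k ∈ ⋂ w ∈ s.image Subtype.val, E w := by
          refine mem_iInter₂.2 fun w hw => ?_
          obtain ⟨v, -, rfl⟩ := Finset.mem_image.1 hw
          exact v.2
        have h3 : y k ∈ f '' (L ∩ ⋂ w ∈ s.image Subtype.val, C w) := by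
          by_contra h
          exact h1 ⟨h2, h⟩
        obtain ⟨x, ⟨hxL, hxC⟩, hxt⟩ := h3
        refine ⟨x, ⟨hxt, hxL⟩, mem_iInter₂.2 fun w hw => ?_⟩
        exact mem_iInter₂.1 hxC w.1 (Finset.mem_image_of_mem _ hw))
    exact ⟨x, fun i hi => mem_iInter.1 hxC ⟨i, hi⟩⟩
  choose x hx using hx
  refine ⟨range x, countable_range x, fun i => ?_⟩
  have h1 : y ∉ {y : ℕ → ℕ → Bool | ∀ k, y k ∉ E i} := hy (Sum.inl i)
  simp only [mem_ofPred_eq, not_forall, not_not] at h1
  obtain ⟨k, hk⟩ := h1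
  exact ⟨x k, mem_range_self k, hx k i hk⟩

/-- If the line is not a union of `c` null sets then in an example any family of at most `c`
nonempty open sets is met by a countable set. -/
theorem exists_countable_meet {K : Type*} [TopologicalSpace K] [CompactSpace K] [T2Space K]
    [MeasurableSpace K] [BorelSpace K] {μ : Measure K} [IsFiniteMeasure μ] [μ.WeaklyRegular]
    [μ.IsOpenPosMeasure] {f : K → (ℕ → Bool)} (hf : Continuous f)
    (hs : ∀ t : ℕ → Bool, ∀ A : Set K, A ⊆ f ⁻¹' {t} → A.Nonempty →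
      ∃ x ∈ A, ∃ U : Set K, IsOpen U ∧ U ∩ A = {x})
    {ι : Type} (B : ι → Set K) (hB : ∀ i, IsOpen (B i)) (hBne : ∀ i, (B i).Nonempty)
    {c : Cardinal.{0}} (hc : Cardinal.aleph0 ≤ c) (hι : Cardinal.mk ι ≤ c)
    (hno : ¬ ∃ S : Set (Set ℝ), Cardinal.mk S ≤ c ∧ (∀ A ∈ S, volume A = 0) ∧ ⋃₀ S = univ) :
    ∃ E : Set K, E.Countable ∧ ∀ i, (E ∩ B i).Nonempty := by
  obtain ⟨L, hL, hdet, hL0⟩ := exists_det_seq (μ := μ) hf hs
  have h1 : ∀ i, ∃ n, ∃ C ⊆ B i ∩ L n, IsClosed C ∧ μ C ≠ 0 := by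
    intro i
    by_contra hcon
    push Not at hcon
    have h2 : ∀ n, μ (B i ∩ L n) = 0 := by
      intro n
      by_contra h
      obtain ⟨C, hCs, hC, hC0⟩ :=
        exists_closed_pos ((hB i).measurableSet.inter (hL n).measurableSet) h
      exact hC0 (hcon n C hCs hC)
    apply (hB i).measure_ne_zero μ (hBne i)
    refine measure_mono_null ?_ (measure_union_null (measure_iUnion_null h2) hL0)
    intro x hx
    by_cases h : x ∈ ⋃ n, L n
    · obtain ⟨n, hn⟩ := mem_iUnion.1 h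
      exact Or.inl (mem_iUnion.2 ⟨n, hx, hn⟩)
    · exact Or.inr h
  choose n C hCs hC hC0 using h1
  have h2 : ∀ k, ∃ E : Set K, E.Countable ∧ ∀ i : {i | n i = k}, (E ∩ C i.1).Nonempty := by
    intro k
    refine meet_of_det hf (hL k) (hdet k) (fun i : {i | n i = k} => C i.1) (fun i => hC _)
      (fun i => ?_) (fun i => hC0 _) hc ((Cardinal.mk_subtype_le _).trans hι) hno
    have := (hCs i.1).trans inter_subset_right
    rwa [show n i.1 = k from i.2] at this
  choose E hE hEi using h2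
  refine ⟨⋃ k, E k, countable_iUnion hE, fun i => ?_⟩
  obtain ⟨x, hxE, hxC⟩ := hEi (n i) ⟨i, rfl⟩
  exact ⟨x, mem_iUnion.2 ⟨n i, hxE⟩, (hCs i hxC).1⟩

end Pool.Agent.P52.Cov
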