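import Mathlib

/-!
# Countable compact sets have no perfect subsets
-/

namespace Pool.Agent.P52.Cov

open Set Filter Topology

variable {K : Type*} [TopologicalSpace K] [CompactSpace K] [T2Space K]

theorem perfect_empty {P : Set K} (hP : IsClosed P) (hpre : Preperfect P) (hc : P.Countable) :
    P = ∅ := by
  by_contra hne
  have hne' : P.Nonempty := nonempty_iff_ne_empty.2 hne
  have : CompactSpace P := isCompact_iff_compactSpace.1 hP.isCompact
  have : Nonempty P := hne'.to_subtype
  have : Countable P := hc.to_subtype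
  obtain ⟨x, y, hy⟩ := nonempty_interior_of_iUnion_of_closed (X := P) (ι := P)
    (f := fun x => {x}) (fun x => isClosed_singleton) (by
      ext x
      simp)
  have hyx : y = x := by
    have := interior_subset hy
    simpa using this
  subst hyx
  rw [mem_interior] at hy
  obtain ⟨t, hts, hto, hyt⟩ := hy
  obtain ⟨U, hU, rfl⟩ := isOpen_induced_iff.1 hto
  have h1 := hpre y.1 y.2
  rw [accPt_iff_nhds] at h1
  obtain ⟨z, ⟨hzU, hzP⟩, hzy⟩ := h1 U (hU.mem_nhds hyt)
  have h2 : (⟨z, hzP⟩ : P) ∈ ({y} : Set P) := hts hzU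
  exact hzy (congrArg Subtype.val h2)

theorem scattered_of_countable {A : Set K} (hA : IsClosed A) (hc : A.Countable) (B : Set K)
    (hBA : B ⊆ A) (hB : B.Nonempty) : ∃ x ∈ B, ∃ U : Set K, IsOpen U ∧ U ∩ B = {x} := by
  by_contra hcon
  push Not at hcon
  have hpre : Preperfect B := by
    intro x hx
    rw [accPt_iff_nhds]
    intro U hU
    by_contra h
    push Not at h
    refine hcon x hx (interior U) isOpen_interior ?_
    ext y
    constructor
    · rintro ⟨hyU, hyB⟩
      exact h y ⟨interior_subset hyU, hyB⟩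
    · rintro rfl
      exact ⟨mem_interior_iff_mem_nhds.2 hU, hx⟩
  have h1 : closure B ⊆ A := closure_minimal hBA hA
  have h2 := perfect_empty isClosed_closure hpre.perfect_closure.acc (hc.mono h1)
  obtain ⟨x, hx⟩ := hB
  have h3 := subset_closure hx
  rw [h2] at h3
  exact h3

end Pool.Agent.P52.Cov
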