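import Pool.Agent.P52.Cov.Absorb

/-!
# Closed sets with closed differences along a cardinal at most the additivity
-/

namespace Pool.Agent.P52.Cov

open MeasureTheory Set Filter Topology
open scoped ENNReal

section

variable {κ : Cardinal.{0}} (hadd : ∀ S : Set (Set ℝ), Cardinal.mk S < κ →
    (∀ A ∈ S, volume A = 0) → volume (⋃₀ S) = 0)

include hadd

/-- One step of the recursion, for fewer than `κ` closed sets. -/
theorem exists_closed_small (m : Measure (ℕ → Bool)) [IsProbabilityMeasure m] {ι : Type}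
    (hι : Cardinal.mk ι < κ) (G : ι → Set (ℕ → Bool)) (hG : ∀ j, IsClosed (G j))
    {N : Set (ℕ → Bool)} (hN : m N = 0) {ε : ℝ≥0∞} (hε : ε ≠ 0) :
    ∃ F : Set (ℕ → Bool), IsClosed F ∧ Disjoint F N ∧ m Fᶜ ≤ ε ∧ ∀ j, IsClosed (F \ G j) := by
  have hε2 : ε / 2 ≠ 0 := (ENNReal.half_pos hε).ne'
  obtain ⟨δ, hδpos, hδ⟩ := ENNReal.exists_pos_sum_of_countable' hε2 ℕ
  have h1 : ∀ j n, ∃ U, U ⊇ G j ∧ IsOpen U ∧ m U < ∞ ∧ m (U \ G j) < δ n := fun j n =>
    (hG j).measurableSet.exists_isOpen_sdiff_lt (measure_ne_top m _) (hδpos n).ne'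
  choose U hGU hUo _ hU using h1
  have hnull : Measure.infinitePi (fun _ : ℕ => m)
      (⋃ j, {y : ℕ → ℕ → Bool | ∃ᶠ n in atTop, y n ∈ U j n \ G j}) = 0 := by
    refine add_transfer hadd _ hι _ fun j => ?_
    refine measure_setOfPred_frequently_eq_zero ?_
    refine ne_top_of_le_ne_top (b := ∑' n, δ n) hδ.ne_top (ENNReal.tsum_le_tsum fun n => ?_)
    have h2 : MeasurableSet (U j n \ G j) := (hUo j n).measurableSet.diff (hG j).measurableSet
    have h3 : Measure.infinitePi (fun _ : ℕ => m) ((fun y : ℕ → ℕ → Bool => y n) ⁻¹'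
        (U j n \ G j)) = m (U j n \ G j) := by
      rw [← Measure.map_apply (measurable_pi_apply n) h2,
        Measure.infinitePi_map_eval (fun _ : ℕ => m) n]
    exact h3.le.trans (hU j n).le
  obtain ⟨V, hVo, hV, hBV⟩ := exists_absorbing m (fun j n => U j n \ G j)
    (fun j n => (hUo j n).sdiff (hG j)) hnull hε2
  obtain ⟨V', hNV', hV'o, hV'⟩ := N.exists_isOpen_le_add m hε2
  rw [hN, zero_add] at hV'
  refine ⟨(V ∪ V')ᶜ, (hVo.union hV'o).isClosed_compl, ?_, ?_, fun j => ?_⟩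
  · exact disjoint_left.2 fun x hx hxN => hx (Or.inr (hNV' hxN))
  · rw [compl_compl]
    calc m (V ∪ V') ≤ m V + m V' := measure_union_le _ _
      _ ≤ ε / 2 + ε / 2 := add_le_add hV hV'
      _ = ε := ENNReal.add_halves ε
  · obtain ⟨n, hn⟩ := hBV j
    have h3 : (V ∪ V')ᶜ \ G j = (V ∪ V')ᶜ ∩ (U j n)ᶜ := by
      ext x
      constructor
      · rintro ⟨hx, hxG⟩
        exact ⟨hx, fun hxU => hx (Or.inl (hn ⟨hxU, hxG⟩))⟩
      · rintro ⟨hx, hxU⟩
        exact ⟨hx, fun hxG => hxU (hGU j n hxG)⟩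
    rw [h3]
    exact (hVo.union hV'o).isClosed_compl.inter (hUo j n).isClosed_compl

omit hadd in
theorem aleph0_lt_of_cover (hcov : ∃ S : Set (Set ℝ), Cardinal.mk S ≤ κ ∧
    (∀ A ∈ S, volume A = 0) ∧ ⋃₀ S = univ) : Cardinal.aleph0 < κ := by
  obtain ⟨S, hS, hnull, hcov⟩ := hcov
  by_contra h
  rw [not_lt] at h
  have h1 : S.Countable := Cardinal.le_aleph0_iff_set_countable.1 (hS.trans h)
  have h2 : volume (⋃₀ S) = 0 := (measure_sUnion_null_iff h1).2 hnull
  rw [hcov] at h2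
  simp at h2

/-- The recursion. -/
theorem exists_family_small (hκ : Cardinal.aleph0 < κ) (m : Measure (ℕ → Bool))
    [IsProbabilityMeasure m] (N : κ.ord.ToType → Set (ℕ → Bool)) (hN : ∀ i, m (N i) = 0)
    (hcov : ∀ t, ∃ i, t ∈ N i) :
    ∃ F : κ.ord.ToType → Set (ℕ → Bool), (∀ i, IsClosed (F i)) ∧ (∀ i, m (F i) ≠ 0) ∧
      (∀ i j, j < i → IsClosed (F i \ F j)) ∧ ∀ t, ∃ i, {k | t ∈ F k} ⊆ Iio i := by
  have hIio : ∀ i : κ.ord.ToType, Cardinal.mk (Iio i) < κ := fun i => by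
    have h := Cardinal.mk_Iio_lt i (by simp)
    simpa using h
  have hIic : ∀ i : κ.ord.ToType, Cardinal.mk (Iic i) < κ := fun i => by
    rw [← Iio_union_right]
    refine (Cardinal.mk_union_le _ _).trans_lt (Cardinal.add_lt_of_lt hκ.le (hIio i) ?_)
    rw [Cardinal.mk_singleton]
    exact Cardinal.one_lt_aleph0.trans hκ
  have hN' : ∀ i, m (⋃ j : Iic i, N j.1) = 0 := fun i =>
    add_transfer hadd m (hIic i) (fun j : Iic i => N j.1) fun j => hN j.1
  have hstep : ∀ (i : κ.ord.ToType) (g : ∀ j, j < i → {A : Set (ℕ → Bool) // IsClosed A}),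
      ∃ A : {A : Set (ℕ → Bool) // IsClosed A}, Disjoint A.1 (⋃ j : Iic i, N j.1) ∧
        m A.1ᶜ ≤ 1 / 2 ∧ ∀ j (h : j < i), IsClosed (A.1 \ (g j h).1) := by
    intro i g
    obtain ⟨F, hF, h1, h2, h3⟩ := exists_closed_small hadd m (hIio i)
      (fun j : Iio i => (g j.1 j.2).1) (fun j => (g j.1 j.2).2) (hN' i) (ε := 1 / 2) (by simp)
    exact ⟨⟨F, hF⟩, h1, h2, fun j h => h3 ⟨j, h⟩⟩
  choose Φ hΦd hΦm hΦc using hstep
  let F : κ.ord.ToType → {A : Set (ℕ → Bool) // IsClosed A} := wellFounded_lt.fix Φ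
  have hFeq : ∀ i, F i = Φ i (fun j _ => F j) := fun i => WellFounded.fix_eq _ _ _
  refine ⟨fun i => (F i).1, fun i => (F i).2, fun i h0 => ?_, fun i j hji => ?_, fun t => ?_⟩
  · have h1 : m (F i).1ᶜ ≤ 1 / 2 := by
      rw [hFeq i]
      exact hΦm i _
    have h2 : (1 : ℝ≥0∞) ≤ m (F i).1 + m (F i).1ᶜ := by
      rw [measure_add_measure_compl (F i).2.measurableSet, measure_univ]
    have h3 : (1 : ℝ≥0∞) ≤ 1 / 2 := by
      refine h2.trans ?_
      rw [show m (F i).1 = 0 from h0, zero_add]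
      exact h1
    exact absurd h3 (not_le.2 (ENNReal.half_lt_self one_ne_zero ENNReal.one_ne_top))
  · have h1 := hΦc i (fun j _ => F j) j hji
    rw [← hFeq i] at h1
    exact h1
  · obtain ⟨i, hi⟩ := hcov t
    refine ⟨i, fun k hk => ?_⟩
    by_contra hik
    rw [mem_Iio, not_lt] at hik
    have h1 : Disjoint (F k).1 (⋃ j : Iic k, N j.1) := by
      rw [hFeq k]
      exact hΦd k _
    exact disjoint_left.1 h1 hk (mem_iUnion.2 ⟨⟨i, mem_Iic.2 hik⟩, hi⟩)

omit hadd in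
/-- Transfer of a covering of the line by null sets to the Cantor space. -/
theorem exists_cantor_small {S : Set (Set ℝ)} (hS : Cardinal.mk S ≤ κ)
    (hnull : ∀ A ∈ S, volume A = 0) (hcov : ⋃₀ S = univ) :
    ∃ m : Measure (ℕ → Bool), IsProbabilityMeasure m ∧
      ∃ N : κ.ord.ToType → Set (ℕ → Bool), (∀ i, m (N i) = 0) ∧ ∀ t, ∃ i, t ∈ N i := by
  let e : ℝ ≃ᵐ (ℕ → Bool) := PolishSpace.measurableEquivNatBoolOfNotCountable not_countable
  have hprob : IsProbabilityMeasure (volume.restrict (Icc (0 : ℝ) 1)) := ⟨by simp⟩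
  have hSne : Nonempty S := by
    obtain ⟨A, hA, -⟩ := mem_sUnion.1 (hcov.symm ▸ mem_univ (0 : ℝ))
    exact ⟨⟨A, hA⟩⟩
  have h1 : Cardinal.mk S ≤ Cardinal.mk κ.ord.ToType := by
    rwa [Cardinal.mk_toType, Cardinal.card_ord]
  obtain ⟨g⟩ := Cardinal.le_def _ _ |>.1 h1
  have hsurj : Function.Surjective (Function.invFun g) := Function.invFun_surjective g.injective
  refine ⟨(volume.restrict (Icc (0 : ℝ) 1)).map e,
    Measure.isProbabilityMeasure_map e.measurable.aemeasurable,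
    fun i => e.symm ⁻¹' (Function.invFun g i).1, fun i => ?_, fun t => ?_⟩
  · rw [e.map_apply]
    have h2 : e ⁻¹' (e.symm ⁻¹' (Function.invFun g i).1) = (Function.invFun g i).1 := by
      rw [← preimage_comp]
      simp
    rw [h2]
    exact Measure.absolutelyContinuous_of_le Measure.restrict_le_self
      (hnull _ (Function.invFun g i).2)
  · obtain ⟨A, hA, hAt⟩ := mem_sUnion.1 (hcov.symm ▸ mem_univ (e.symm t))
    obtain ⟨i, hi⟩ := hsurj ⟨A, hA⟩
    refine ⟨i, ?_⟩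
    change e.symm t ∈ (Function.invFun g i).1
    rw [hi]
    exact hAt

end

end Pool.Agent.P52.Cov
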