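import Pool.Agent.P52.Cov.Cube
import Pool.Agent.P52.Cov.Perf

/-!
# The compact space built from a family of closed sets with closed differences
-/

namespace Pool.Agent.P52.Cov

open MeasureTheory Set Filter Topology
open scoped ENNReal

variable {J : Type}

/-- Basic clopen sets of the cube. -/
theorem isClopen_match (s : Set J) (hs : s.Finite) (z : Cube J) :
    IsClopen {y : Cube J | ∀ j ∈ s, y j = z j} := by
  have h : {y : Cube J | ∀ j ∈ s, y j = z j} = ⋂ j ∈ s, (fun y : Cube J => y j) ⁻¹' {z j} := by
    ext y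
    simp
  rw [h]
  exact hs.isClopen_biInter fun j _ =>
    (isClopen_discrete ({z j} : Set Bool)).preimage (Cube.continuous_apply j)

theorem support_match {X : Type} [MeasurableSpace X] {m : Measure X} {E : J → Set X}
    {ν : Measure (Cube J)} (hν : ∀ C : Set (Cube J), IsClopen C → ν C = m (pt E ⁻¹' C))
    {z : Cube J} (hz : z ∈ ν.support) (s : Set J) (hs : s.Finite) :
    ∃ t, ∀ j ∈ s, pt E t j = z j := by
  have h1 := isClopen_match s hs z
  have h2 : 0 < ν {y : Cube J | ∀ j ∈ s, y j = z j} :=
    (Measure.mem_support_iff_forall z).1 hz _ (h1.isOpen.mem_nhds fun j _ => rfl)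
  rw [hν _ h1] at h2
  obtain ⟨t, ht⟩ := nonempty_of_measure_ne_zero h2.ne'
  exact ⟨t, ht⟩

variable {W : Type}

/-- The family of sets on the Cantor space: the coordinate half spaces and the given sets. -/
def fam (F : W → Set (ℕ → Bool)) : ℕ ⊕ W → Set (ℕ → Bool) :=
  Sum.elim (fun n => {t | t n = true}) F

theorem pt_fam_inl (F : W → Set (ℕ → Bool)) (t : ℕ → Bool) (n : ℕ) :
    pt (fam F) t (Sum.inl n) = t n := by
  rw [Bool.eq_iff_iff, pt_apply]
  rfl

/-- The projection to the Cantor space. -/
def proj (z : Cube (ℕ ⊕ W)) : ℕ → Bool := fun n => z (Sum.inl n)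

theorem continuous_proj : Continuous (proj : Cube (ℕ ⊕ W) → ℕ → Bool) :=
  continuous_pi fun n => Cube.continuous_apply (Sum.inl n)

theorem proj_mem {m : Measure (ℕ → Bool)} {F : W → Set (ℕ → Bool)} {ν : Measure (Cube (ℕ ⊕ W))}
    (hν : ∀ C : Set (Cube (ℕ ⊕ W)), IsClopen C → ν C = m (pt (fam F) ⁻¹' C))
    {z : Cube (ℕ ⊕ W)} (hz : z ∈ ν.support) (s : Set W) (hs : s.Finite) {G : Set (ℕ → Bool)}
    (hG : IsClosed G)
    (h : ∀ t, (∀ i ∈ s, pt (fam F) t (Sum.inr i) = z (Sum.inr i)) → t ∈ G) : proj z ∈ G := by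
  by_contra hcon
  have h1 : Gᶜ ∈ 𝓝 (proj z) := hG.isOpen_compl.mem_nhds hcon
  rw [nhds_pi, Filter.mem_pi] at h1
  obtain ⟨I, hI, u, hu, hsub⟩ := h1
  obtain ⟨t, ht⟩ := support_match hν hz (Sum.inl '' I ∪ Sum.inr '' s)
    ((hI.image _).union (hs.image _))
  have h2 : t ∈ G := h t fun i hi => ht _ (Or.inr ⟨i, hi, rfl⟩)
  refine hsub ?_ h2
  intro n hn
  have h3 := ht _ (Or.inl ⟨n, hn, rfl⟩)
  rw [pt_fam_inl] at h3
  rw [h3]
  exact mem_of_mem_nhds (hu n)

theorem exists_space [LinearOrder W] [WellFoundedLT W] (hW : ¬ Countable W)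
    (m : Measure (ℕ → Bool)) [IsProbabilityMeasure m] (F : W → Set (ℕ → Bool))
    (hF : ∀ i, IsClosed (F i)) (hFm : ∀ i, m (F i) ≠ 0)
    (hdiff : ∀ i j, j < i → IsClosed (F i \ F j)) (hpt : ∀ t, {i | t ∈ F i}.Countable) :
    ∃ (K : Type) (_ : TopologicalSpace K) (_ : CompactSpace K) (_ : T2Space K)
      (_ : MeasurableSpace K) (_ : BorelSpace K) (μ : Measure K),
      IsProbabilityMeasure μ ∧ μ.IsOpenPosMeasure ∧ μ.Regular ∧
      ¬ TopologicalSpace.SeparableSpace K ∧
      (∃ g : K → (ℕ ⊕ W) → ℝ, Continuous g ∧ Function.Injective g ∧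
        ∀ x, {γ | g x γ ≠ 0}.Countable) ∧
      ∃ f : K → (ℕ → Bool), Continuous f ∧ ∀ t : ℕ → Bool, (f ⁻¹' {t}).Countable := by
  have hE : ∀ j, MeasurableSet (fam F j) := by
    rintro (n | i)
    · exact measurableSet_eq_fun (measurable_pi_apply n) measurable_const
    · exact (hF i).measurableSet
  obtain ⟨ν, hνr, hνp, hν⟩ := exists_image m hE
  have hZc : IsClosed ν.support := Measure.isClosed_support
  have hZn : ν ν.supportᶜ = 0 := Measure.measure_compl_support_of_regular
  have hemb : MeasurableEmbedding (Subtype.val : ν.support → Cube (ℕ ⊕ W)) :=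
    MeasurableEmbedding.subtype_coe hZc.measurableSet
  have hcompact : CompactSpace ν.support := isCompact_iff_compactSpace.1 hZc.isCompact
  let μ : Measure ν.support := ν.comap Subtype.val
  have hμ : ∀ V : Set (Cube (ℕ ⊕ W)), μ (Subtype.val ⁻¹' V) = ν V := by
    intro V
    change ν.comap Subtype.val (Subtype.val ⁻¹' V) = ν V
    rw [hemb.comap_apply, Subtype.image_preimage_coe]
    refine le_antisymm (measure_mono inter_subset_right) ?_
    calc ν V ≤ ν ((ν.support ∩ V) ∪ ν.supportᶜ) := measure_mono fun x hx => by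
          by_cases h : x ∈ ν.support
          · exact Or.inl ⟨h, hx⟩
          · exact Or.inr h
      _ ≤ ν (ν.support ∩ V) + ν ν.supportᶜ := measure_union_le _ _
      _ = ν (ν.support ∩ V) := by rw [hZn, add_zero]
  have hμp : IsProbabilityMeasure μ := ⟨by
    have h := hμ univ
    rw [preimage_univ] at h
    rw [h]
    exact measure_univ⟩
  have hμo : μ.IsOpenPosMeasure := ⟨by
    rintro U hU ⟨x, hx⟩
    obtain ⟨V, hV, rfl⟩ := isOpen_induced_iff.1 hU
    rw [hμ V]
    exact ((Measure.mem_support_iff_forall x.1).1 x.2 V (hV.mem_nhds hx)).ne'⟩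
  have hμr : μ.Regular := by
    have h1 : μ.OuterRegular :=
      Measure.OuterRegular.comap' ν continuous_subtype_val hemb
    refine ⟨Measure.InnerRegularWRT.comap (qb := fun s => MeasurableSet s ∧ ν s ≠ ∞)
      (pb := IsCompact) Measure.InnerRegularCompactLTTop.innerRegular hemb
      (fun U hU => ⟨hemb.measurableSet_image.2 hU.measurableSet, measure_ne_top _ _⟩)
      (fun K hK hKc => (hKc.isClosed.preimage continuous_subtype_val).isCompact)⟩
  have hc1 : ∀ z ∈ ν.support, ∀ i, z (Sum.inr i) = true → proj z ∈ F i := by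
    intro z hz i hi
    refine proj_mem hν hz {i} (finite_singleton i) (hF i) fun s hs => ?_
    have h5 := hs i rfl
    rw [hi] at h5
    exact pt_apply.1 h5
  refine ⟨ν.support, inferInstance, hcompact, inferInstance, inferInstance, inferInstance, μ,
    hμp, hμo, hμr, ?_, ⟨fun z j => coord j z.1, ?_, ?_, ?_⟩, fun z => proj z.1,
    continuous_proj.comp continuous_subtype_val, ?_⟩
  · rintro ⟨D, hD, hDd⟩
    apply hW
    rw [← countable_univ_iff]
    have h1 : (⋃ d ∈ D, {i | proj d.1 ∈ F i}).Countable :=
      hD.biUnion fun d _ => hpt (proj d.1)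
    refine h1.mono fun i _ => ?_
    have h2 : IsClopen {z : Cube (ℕ ⊕ W) | z (Sum.inr i) = true} :=
      (isClopen_discrete ({true} : Set Bool)).preimage (Cube.continuous_apply (Sum.inr i))
    have h3 : ν {z : Cube (ℕ ⊕ W) | z (Sum.inr i) = true} ≠ 0 := by
      rw [hν _ h2]
      have h4 : pt (fam F) ⁻¹' {z : Cube (ℕ ⊕ W) | z (Sum.inr i) = true} = F i := by
        ext t
        exact pt_apply
      rw [h4]
      exact hFm i
    rw [← hμ] at h3
    obtain ⟨d, hdV, hdD⟩ := hDd.inter_open_nonempty _
      (h2.isOpen.preimage continuous_subtype_val) (nonempty_of_measure_ne_zero h3)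
    refine mem_biUnion hdD ?_
    refine proj_mem hν d.2 {i} (finite_singleton i) (hF i) fun t ht => ?_
    have h5 := ht i rfl
    rw [show d.1 (Sum.inr i) = true from hdV] at h5
    exact pt_apply.1 h5
  · exact continuous_pi fun j => (coord j).continuous.comp continuous_subtype_val
  · intro z y hzy
    refine Subtype.ext (funext fun j => ?_)
    have h5 : coord j z.1 = coord j y.1 := congrFun hzy j
    simp only [coord, ContinuousMap.coe_mk] at h5
    cases hz : z.1 j <;> cases hy : y.1 j <;> simp_all
  · intro z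
    have h6 : (range (Sum.inl : ℕ → ℕ ⊕ W) ∪ Sum.inr '' {i | proj z.1 ∈ F i}).Countable :=
      (countable_range _).union ((hpt _).image _)
    refine h6.mono fun j hj => ?_
    rcases j with n | i
    · exact Or.inl ⟨n, rfl⟩
    · refine Or.inr ⟨i, hc1 z.1 z.2 i ?_, rfl⟩
      by_contra h7
      apply hj
      simp [coord, h7]
  · intro t
    classical
    -- the possible points over `t`
    let g : Option {i | t ∈ F i} → Cube (ℕ ⊕ W) := fun o => match o with
      | none => pt (fam F) t
      | some α => fun j => match j with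
        | Sum.inl n => t n
        | Sum.inr i => decide (t ∈ F i ∧ i < α.1)
    have : Countable {i | t ∈ F i} := (hpt t).to_subtype
    have h1 : (Subtype.val ⁻¹' range g : Set ν.support).Countable :=
      (countable_range g).preimage Subtype.val_injective
    refine h1.mono ?_
    rintro ⟨z, hz⟩ hzt
    have hzt' : proj z = t := hzt
    have c1 : ∀ i, z (Sum.inr i) = true → t ∈ F i := by
      intro i hi
      rw [← hzt']
      exact hc1 z hz i hi
    have c2 : ∀ i j, j < i → t ∈ F j → z (Sum.inr j) = false → z (Sum.inr i) = false := by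
      intro i j hji hj hzj
      by_contra hzi
      rw [Bool.not_eq_false] at hzi
      have h6 : proj z ∈ F i \ F j := by
        refine proj_mem hν hz {i, j} (Set.toFinite _) (hdiff i j hji) fun s hs => ?_
        have h7 := hs i (by simp)
        have h8 := hs j (by simp)
        rw [hzi] at h7
        rw [hzj] at h8
        refine ⟨pt_apply.1 h7, fun h9 => ?_⟩
        have h10 : pt (fam F) s (Sum.inr j) = true := pt_apply.2 h9
        rw [h8] at h10
        exact absurd h10 (by simp)
      rw [hzt'] at h6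
      exact h6.2 hj
    change z ∈ range g
    by_cases hall : ∀ i, t ∈ F i → z (Sum.inr i) = true
    · refine ⟨none, ?_⟩
      funext j
      rcases j with n | i
      · change pt (fam F) t (Sum.inl n) = z (Sum.inl n)
        rw [pt_fam_inl, ← hzt']
        rfl
      · change pt (fam F) t (Sum.inr i) = z (Sum.inr i)
        rw [Bool.eq_iff_iff, pt_apply]
        exact ⟨fun h => hall i h, fun h => c1 i h⟩
    · push Not at hall
      obtain ⟨i0, hi0, hzi0⟩ := hall
      let T : Set W := {i | t ∈ F i ∧ z (Sum.inr i) = false}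
      have hT : T.Nonempty := ⟨i0, hi0, by simpa using hzi0⟩
      let α := wellFounded_lt.min T hT
      have hα : α ∈ T := wellFounded_lt.min_mem T hT
      have hmin : ∀ i ∈ T, ¬ i < α := fun i hi => wellFounded_lt.not_lt_min T hi
      refine ⟨some ⟨α, hα.1⟩, ?_⟩
      funext j
      rcases j with n | i
      · change t n = z (Sum.inl n)
        rw [← hzt']
        rfl
      · change decide (t ∈ F i ∧ i < α) = z (Sum.inr i)
        rw [Bool.eq_iff_iff, decide_eq_true_iff]
        constructor
        · rintro ⟨h11, h12⟩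
          by_contra h13
          rw [Bool.not_eq_true] at h13
          exact hmin i ⟨h11, h13⟩ h12
        · intro h11
          refine ⟨c1 i h11, ?_⟩
          by_contra h12
          rcases eq_or_lt_of_le (not_lt.1 h12) with h13 | h13
          · rw [← h13, hα.2] at h11
            exact absurd h11 (by simp)
          · rw [c2 i α h13 hα.1 hα.2] at h11
            exact absurd h11 (by simp)

end Pool.Agent.P52.Cov
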