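import Pool.Agent.P52.Cov.Space

/-!
# The compact space built from a well-ordered family of closed sets with closed differences
-/

namespace Pool.Agent.P52.Cov

open MeasureTheory Set Filter Topology
open scoped ENNReal

/-- The space for a family indexed by an arbitrary well-ordered set. -/
theorem exists_space_gen {W : Type} [LinearOrder W] [WellFoundedLT W]
    (m : Measure (ℕ → Bool)) [IsProbabilityMeasure m] (F : W → Set (ℕ → Bool))
    (hF : ∀ i, IsClosed (F i)) (hFm : ∀ i, m (F i) ≠ 0)
    (hdiff : ∀ i j, j < i → IsClosed (F i \ F j)) :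
    ∃ (K : Type) (_ : TopologicalSpace K) (_ : CompactSpace K) (_ : T2Space K)
      (_ : MeasurableSpace K) (_ : BorelSpace K) (μ : Measure K),
      IsProbabilityMeasure μ ∧ μ.IsOpenPosMeasure ∧ μ.Regular ∧
      ∃ f : K → (ℕ → Bool), Continuous f ∧
        (∀ D : Set K, Dense D → ∀ i, ∃ d ∈ D, f d ∈ F i) ∧
        (∃ g : K → (ℕ ⊕ W) → ℝ, Continuous g ∧ Function.Injective g ∧
          ∀ x, {γ | g x γ ≠ 0} ⊆ range Sum.inl ∪ Sum.inr '' {i | f x ∈ F i}) ∧
        (∀ t : ℕ → Bool, ∀ A : Set K, A ⊆ f ⁻¹' {t} → A.Nonempty →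
          ∃ x ∈ A, ∃ U : Set K, IsOpen U ∧ U ∩ A = {x}) ∧
        ∀ t : ℕ → Bool, Cardinal.mk (f ⁻¹' {t}) ≤ Cardinal.mk (Option {i | t ∈ F i}) := by
  have hE : ∀ j, MeasurableSet (fam F j) := by
    rintro (n | i)
    · exact measurableSet_eq_fun (measurable_pi_apply n) measurable_const
    · exact (hF i).measurableSet
  obtain ⟨ν, hνr, hνp, hν⟩ := exists_image m hE
  have hZc : IsClosed ν.support := Measure.isClosed_support
  have hZn : ν ν.supportᶜ = 0 := Measure.measure_compl_support_of_regular
  have hemb : MeasurableEmbedding (Subtype.val : ν.support → Cube (ℕ ⊕ W)) :=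
    MeasurableEmbedding.subtype_coe hZc.measurableSet
  have hcompact : CompactSpace ν.support := isCompact_iff_compactSpace.1 hZc.isCompact
  let μ : Measure ν.support := ν.comap Subtype.val
  have hμ : ∀ V : Set (Cube (ℕ ⊕ W)), μ (Subtype.val ⁻¹' V) = ν V := by
    intro V
    change ν.comap Subtype.val (Subtype.val ⁻¹' V) = ν V
    rw [hemb.comap_apply, Subtype.image_preimage_coe]
    refine le_antisymm (measure_mono inter_subset_right) ?_
    calc ν V ≤ ν ((ν.support ∩ V) ∪ ν.supportᶜ) := measure_mono fun x hx => by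
          by_cases h : x ∈ ν.support
          · exact Or.inl ⟨h, hx⟩
          · exact Or.inr h
      _ ≤ ν (ν.support ∩ V) + ν ν.supportᶜ := measure_union_le _ _
      _ = ν (ν.support ∩ V) := by rw [hZn, add_zero]
  have hμp : IsProbabilityMeasure μ := ⟨by
    have h := hμ univ
    rw [preimage_univ] at h
    rw [h]
    exact measure_univ⟩
  have hμo : μ.IsOpenPosMeasure := ⟨by
    rintro U hU ⟨x, hx⟩
    obtain ⟨V, hV, rfl⟩ := isOpen_induced_iff.1 hU
    rw [hμ V]
    exact ((Measure.mem_support_iff_forall x.1).1 x.2 V (hV.mem_nhds hx)).ne'⟩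
  have hμr : μ.Regular := by
    have h1 : μ.OuterRegular :=
      Measure.OuterRegular.comap' ν continuous_subtype_val hemb
    refine ⟨Measure.InnerRegularWRT.comap (qb := fun s => MeasurableSet s ∧ ν s ≠ ∞)
      (pb := IsCompact) Measure.InnerRegularCompactLTTop.innerRegular hemb
      (fun U hU => ⟨hemb.measurableSet_image.2 hU.measurableSet, measure_ne_top _ _⟩)
      (fun K hK hKc => (hKc.isClosed.preimage continuous_subtype_val).isCompact)⟩
  have hc1 : ∀ z ∈ ν.support, ∀ i, z (Sum.inr i) = true → proj z ∈ F i := by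
    intro z hz i hi
    refine proj_mem hν hz {i} (finite_singleton i) (hF i) fun s hs => ?_
    have h5 := hs i rfl
    rw [hi] at h5
    exact pt_apply.1 h5
  have hc2 : ∀ z ∈ ν.support, ∀ i j, j < i → proj z ∈ F j → z (Sum.inr j) = false →
      z (Sum.inr i) = false := by
    intro z hz i j hji hj hzj
    by_contra hzi
    rw [Bool.not_eq_false] at hzi
    have h6 : proj z ∈ F i \ F j := by
      refine proj_mem hν hz {i, j} (Set.toFinite _) (hdiff i j hji) fun s hs => ?_
      have h7 := hs i (by simp)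
      have h8 := hs j (by simp)
      rw [hzi] at h7
      rw [hzj] at h8
      refine ⟨pt_apply.1 h7, fun h9 => ?_⟩
      have h10 : pt (fam F) s (Sum.inr j) = true := pt_apply.2 h9
      rw [h8] at h10
      exact absurd h10 (by simp)
    exact h6.2 hj
  classical
  -- the possible points over `t`
  let g : ∀ t, Option {i | t ∈ F i} → Cube (ℕ ⊕ W) := fun t o => match o with
    | none => pt (fam F) t
    | some α => fun j => match j with
      | Sum.inl n => t n
      | Sum.inr i => decide (t ∈ F i ∧ i < α.1)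
  have hg1 : ∀ z ∈ ν.support, ∀ t, proj z = t → (∀ i, t ∈ F i → z (Sum.inr i) = true) →
      g t none = z := by
    rintro z hz t rfl hall
    funext j
    rcases j with n | i
    · change pt (fam F) (proj z) (Sum.inl n) = z (Sum.inl n)
      rw [pt_fam_inl]
      rfl
    · change pt (fam F) (proj z) (Sum.inr i) = z (Sum.inr i)
      rw [Bool.eq_iff_iff, pt_apply]
      exact ⟨fun h => hall i h, fun h => hc1 z hz i h⟩
  have hg2 : ∀ z ∈ ν.support, ∀ t, proj z = t → ∀ α (hα : t ∈ F α), z (Sum.inr α) = false →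
      (∀ i < α, t ∈ F i → z (Sum.inr i) = true) → g t (some ⟨α, hα⟩) = z := by
    rintro z hz t rfl α hα hzα hmin
    funext j
    rcases j with n | i
    · rfl
    · change decide (proj z ∈ F i ∧ i < α) = z (Sum.inr i)
      rw [Bool.eq_iff_iff, decide_eq_true_iff]
      constructor
      · rintro ⟨h11, h12⟩
        exact hmin i h12 h11
      · intro h11
        refine ⟨hc1 z hz i h11, ?_⟩
        by_contra h12
        rcases eq_or_lt_of_le (not_lt.1 h12) with h13 | h13
        · rw [← h13, hzα] at h11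
          exact absurd h11 (by simp)
        · rw [hc2 z hz i α h13 hα hzα] at h11
          exact absurd h11 (by simp)
  refine ⟨ν.support, inferInstance, hcompact, inferInstance, inferInstance, inferInstance, μ,
    hμp, hμo, hμr, fun z => proj z.1, continuous_proj.comp continuous_subtype_val, ?_,
    ⟨fun z j => coord j z.1, ?_, ?_, ?_⟩, ?_, ?_⟩
  · intro D hDd i
    have h2 : IsClopen {z : Cube (ℕ ⊕ W) | z (Sum.inr i) = true} :=
      (isClopen_discrete ({true} : Set Bool)).preimage (Cube.continuous_apply (Sum.inr i))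
    have h3 : ν {z : Cube (ℕ ⊕ W) | z (Sum.inr i) = true} ≠ 0 := by
      rw [hν _ h2]
      have h4 : pt (fam F) ⁻¹' {z : Cube (ℕ ⊕ W) | z (Sum.inr i) = true} = F i := by
        ext t
        exact pt_apply
      rw [h4]
      exact hFm i
    rw [← hμ] at h3
    obtain ⟨d, hdV, hdD⟩ := hDd.inter_open_nonempty _
      (h2.isOpen.preimage continuous_subtype_val) (nonempty_of_measure_ne_zero h3)
    exact ⟨d, hdD, hc1 d.1 d.2 i hdV⟩
  · exact continuous_pi fun j => (coord j).continuous.comp continuous_subtype_val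
  · intro z y hzy
    refine Subtype.ext (funext fun j => ?_)
    have h5 : coord j z.1 = coord j y.1 := congrFun hzy j
    simp only [coord, ContinuousMap.coe_mk] at h5
    cases hz : z.1 j <;> cases hy : y.1 j <;> simp_all
  · intro z j hj
    rcases j with n | i
    · exact Or.inl ⟨n, rfl⟩
    · refine Or.inr ⟨i, hc1 z.1 z.2 i ?_, rfl⟩
      by_contra h7
      apply hj
      simp [coord, h7]
  · intro t A hA hAne
    by_cases hall : ∀ z ∈ A, ∀ i, t ∈ F i → z.1 (Sum.inr i) = true
    · obtain ⟨z, hz⟩ := hAne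
      have h1 : ∀ y ∈ A, g t none = y.1 := by
        intro y hy
        exact hg1 y.1 y.2 t (hA hy) fun i hi => hall y hy i hi
      refine ⟨z, hz, univ, isOpen_univ, ?_⟩
      ext y
      constructor
      · rintro ⟨-, hy⟩
        exact Subtype.ext ((h1 y hy).symm.trans (h1 z hz))
      · rintro rfl
        exact ⟨mem_univ _, hz⟩
    · push Not at hall
      obtain ⟨z1, hz1, i1, hi1, hzi1⟩ := hall
      let T : Set W := {i | t ∈ F i ∧ ∃ z ∈ A, z.1 (Sum.inr i) = false}
      have hT : T.Nonempty := ⟨i1, hi1, z1, hz1, by simpa using hzi1⟩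
      let α := wellFounded_lt.min T hT
      have hα : α ∈ T := wellFounded_lt.min_mem T hT
      have hmin : ∀ i ∈ T, ¬ i < α := fun i hi => wellFounded_lt.not_lt_min T hi
      have h1 : ∀ y ∈ A, y.1 (Sum.inr α) = false → g t (some ⟨α, hα.1⟩) = y.1 := by
        intro y hy hyα
        refine hg2 y.1 y.2 t (hA hy) α hα.1 hyα fun i hi hti => ?_
        by_contra h
        rw [Bool.not_eq_true] at h
        exact hmin i ⟨hti, y, hy, h⟩ hi
      obtain ⟨z, hz, hzα⟩ := hα.2
      have h2 : IsClopen {z : Cube (ℕ ⊕ W) | z (Sum.inr α) = false} :=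
        (isClopen_discrete ({false} : Set Bool)).preimage (Cube.continuous_apply (Sum.inr α))
      refine ⟨z, hz, Subtype.val ⁻¹' {z | z (Sum.inr α) = false},
        h2.isOpen.preimage continuous_subtype_val, ?_⟩
      ext y
      constructor
      · rintro ⟨hyα, hy⟩
        exact Subtype.ext ((h1 y hy hyα).symm.trans (h1 z hz hzα))
      · rintro rfl
        exact ⟨hzα, hz⟩
  · intro t
    have h1 : ∀ z : (fun z : ν.support => proj z.1) ⁻¹' {t}, z.1.1 ∈ range (g t) := by
      rintro ⟨⟨z, hz⟩, hzt⟩
      have hzt' : proj z = t := hzt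
      change z ∈ range (g t)
      by_cases hall : ∀ i, t ∈ F i → z (Sum.inr i) = true
      · exact ⟨none, hg1 z hz t hzt' hall⟩
      · push Not at hall
        obtain ⟨i0, hi0, hzi0⟩ := hall
        let T : Set W := {i | t ∈ F i ∧ z (Sum.inr i) = false}
        have hT : T.Nonempty := ⟨i0, hi0, by simpa using hzi0⟩
        let α := wellFounded_lt.min T hT
        have hα : α ∈ T := wellFounded_lt.min_mem T hT
        have hmin : ∀ i ∈ T, ¬ i < α := fun i hi => wellFounded_lt.not_lt_min T hi
        refine ⟨some ⟨α, hα.1⟩, hg2 z hz t hzt' α hα.1 hα.2 fun i hi hti => ?_⟩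
        by_contra h
        rw [Bool.not_eq_true] at h
        exact hmin i ⟨hti, h⟩ hi
    refine (Cardinal.mk_le_of_injective (f := fun z => (⟨z.1.1, h1 z⟩ : range (g t))) ?_).trans
      Cardinal.mk_range_le
    intro z y hzy
    have h2 : (⟨z.1.1, h1 z⟩ : range (g t)) = ⟨y.1.1, h1 y⟩ := hzy
    have h3 : z.1.1 = y.1.1 := Subtype.mk.inj h2
    exact Subtype.ext (Subtype.ext h3)

end Pool.Agent.P52.Cov
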