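import Pool.Agent.P52.Cov.Caliber

/-!
# Countably tight and Corson compact spaces
-/

namespace Pool.Agent.P52.Cov

open Set Filter Topology

/-- A compact countably tight space that is not separable has an uncountable point-countable family
of nonempty open sets. -/
theorem exists_family_of_tight {K : Type*} [TopologicalSpace K] [CompactSpace K] [T2Space K]
    (hK : ¬ TopologicalSpace.SeparableSpace K)
    (ht : ∀ A : Set K, ∀ x ∈ closure A, ∃ C ⊆ A, C.Countable ∧ x ∈ closure C) :
    ∃ B : (Cardinal.aleph.{0} 1).ord.ToType → Set K, (∀ i, IsOpen (B i)) ∧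
      (∀ i, (B i).Nonempty) ∧ ∀ x, {i | x ∈ B i}.Countable := by
  let W := (Cardinal.aleph.{0} 1).ord.ToType
  let Dt := C(K, ℝ) × {D : Set K // D.Countable}
  have hstep : ∀ (i : W) (F : ∀ j, j < i → Dt), ∃ p : Dt, (∃ x, p.1 x ≠ 0) ∧
      (∀ x ∈ closure (⋃ j : Iio i, (F j.1 j.2).2.1), p.1 x = 0) ∧
      ∀ x : K, ∃ y ∈ closure p.2.1, ∀ j (h : j < i), (F j h).1 y = (F j h).1 x := by
    intro i F
    have hc : Countable (Iio i) := (aleph_one_Iio i).to_subtype
    have h1 : (⋃ j : Iio i, (F j.1 j.2).2.1).Countable :=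
      countable_iUnion fun j => (F j.1 j.2).2.2
    have h2 : closure (⋃ j : Iio i, (F j.1 j.2).2.1) ≠ univ := fun h =>
      hK ⟨_, h1, dense_iff_closure_eq.2 h⟩
    obtain ⟨a, ha⟩ := (ne_univ_iff_exists_notMem _).1 h2
    obtain ⟨g, hg0, hg1, -⟩ := exists_continuous_zero_one_of_isClosed
      (s := closure (⋃ j : Iio i, (F j.1 j.2).2.1)) (t := {a}) isClosed_closure
      isClosed_singleton (disjoint_singleton_right.2 ha)
    have hG : Continuous fun x : K => fun j : Iio i => (F j.1 j.2).1 x :=
      continuous_pi fun j => (F j.1 j.2).1.continuous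
    obtain ⟨D, hD, -, hDG⟩ := Pool.Agent.Results.MP_605315_lc.FibreHeights.base hG isClosed_univ
    refine ⟨(g, ⟨D, hD⟩), ⟨a, ?_⟩, fun x hx => ?_, fun x => ?_⟩
    · have h3 : g a = 1 := hg1 rfl
      change g a ≠ 0
      rw [h3]
      exact one_ne_zero
    · exact hg0 hx
    · obtain ⟨y, hy, hyx⟩ := hDG ⟨x, mem_univ x, rfl⟩
      exact ⟨y, hy, fun j h => congrFun hyx ⟨j, h⟩⟩
  choose Φ hΦ1 hΦ2 hΦ3 using hstep
  let F : W → Dt := wellFounded_lt.fix Φ
  have hF : ∀ i, F i = Φ i fun j _ => F j := fun i => WellFounded.fix_eq _ _ _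
  have hF1 : ∀ i, ∃ x, (F i).1 x ≠ 0 := fun i => by
    rw [hF i]
    exact hΦ1 i _
  have hF2 : ∀ i, ∀ x ∈ closure (⋃ j : Iio i, (F j.1).2.1), (F i).1 x = 0 := fun i x hx => by
    rw [hF i]
    exact hΦ2 i (fun j _ => F j) x hx
  have hF3 : ∀ i, ∀ x : K, ∃ y ∈ closure (F i).2.1, ∀ j < i, (F j).1 y = (F j).1 x := by
    intro i x
    have h := hΦ3 i (fun j _ => F j) x
    rw [← hF i] at h
    exact h
  have hup : ∀ j : W, ∃ i, j < i := by
    intro j
    by_contra h
    push Not at h
    apply aleph_one_not_countable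
    rw [← countable_univ_iff]
    have h1 : (Iic j).Countable := by
      rw [← Iio_union_right]
      exact (aleph_one_Iio j).union (countable_singleton j)
    exact h1.mono fun i _ => h i
  refine ⟨fun i => {x | (F i).1 x ≠ 0}, fun i => ?_, hF1, fun x => ?_⟩
  · exact isOpen_compl_singleton.preimage (F i).1.continuous
  · -- a point of the closure of the union of the chosen sets with the same values
    have hW : Nonempty W := by
      by_contra h
      rw [not_nonempty_iff] at h
      exact aleph_one_not_countable inferInstance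
    let T : W → Set K := fun i => closure (⋃ j, (F j).2.1) ∩ ⋂ j : Iio i,
      {y | (F j.1).1 y = (F j.1).1 x}
    have hTc : ∀ i, IsClosed (T i) := fun i => isClosed_closure.inter
      (isClosed_iInter fun j => isClosed_eq (F j.1).1.continuous continuous_const)
    obtain ⟨y, hy⟩ := IsCompact.nonempty_iInter_of_directed_nonempty_isCompact_isClosed T (by
      intro i i'
      refine ⟨max i i', ?_, ?_⟩
      · exact fun y hy => ⟨hy.1, mem_iInter.2 fun j =>
          mem_iInter.1 hy.2 ⟨j.1, mem_Iio.2 (lt_of_lt_of_le (mem_Iio.1 j.2) (le_max_left i i'))⟩⟩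
      · exact fun y hy => ⟨hy.1, mem_iInter.2 fun j =>
          mem_iInter.1 hy.2 ⟨j.1, mem_Iio.2 (lt_of_lt_of_le (mem_Iio.1 j.2) (le_max_right i i'))⟩⟩) (by
      intro i
      obtain ⟨y, hy, hyx⟩ := hF3 i x
      exact ⟨y, closure_mono (subset_iUnion (fun j => (F j).2.1) i) hy,
        mem_iInter.2 fun j => hyx j.1 j.2⟩) (fun i => (hTc i).isCompact) hTc
    rw [mem_iInter] at hy
    have hyx : ∀ j, (F j).1 y = (F j).1 x := by
      intro j
      obtain ⟨i, hi⟩ := hup j
      exact mem_iInter.1 (hy i).2 ⟨j, hi⟩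
    obtain ⟨C, hCs, hC, hyC⟩ := ht _ y (hy hW.some).1
    have h2 : ∀ c : C, ∃ j, c.1 ∈ (F j).2.1 := fun c => mem_iUnion.1 (hCs c.2)
    choose b hb using h2
    have hCc : Countable C := hC.to_subtype
    have h3 : ∃ β, ∀ c, b c ≤ β := by
      rcases isEmpty_or_nonempty C with hCe | hCne
      · exact ⟨hW.some, fun c => hCe.elim c⟩
      · obtain ⟨e, he⟩ := exists_surjective_nat C
        obtain ⟨β, hβ⟩ := exists_upper aleph_one_Iio aleph_one_not_countable fun n => b (e n)
        refine ⟨β, fun c => ?_⟩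
        obtain ⟨n, rfl⟩ := he c
        exact hβ n
    obtain ⟨β, hβ⟩ := h3
    have h4 : (Iic β).Countable := by
      rw [← Iio_union_right]
      exact (aleph_one_Iio β).union (countable_singleton β)
    refine h4.mono fun i hi => ?_
    by_contra hiβ
    rw [mem_Iic, not_le] at hiβ
    apply hi
    rw [← hyx i]
    refine hF2 i y (closure_mono ?_ hyC)
    intro c hc
    exact mem_iUnion.2 ⟨⟨b ⟨c, hc⟩, lt_of_le_of_lt (hβ _) hiβ⟩, hb ⟨c, hc⟩⟩

/-- A Corson compact space that is not separable has an uncountable point-countable family of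
nonempty open sets. -/
theorem exists_family_of_corson {K : Type*} [TopologicalSpace K] [CompactSpace K] [T2Space K]
    (hK : ¬ TopologicalSpace.SeparableSpace K) {Γ : Type} (g : K → Γ → ℝ) (hg : Continuous g)
    (hinj : Function.Injective g) (hcount : ∀ x, {γ | g x γ ≠ 0}.Countable) :
    ∃ (ι : Type) (B : ι → Set K), ¬ Countable ι ∧ (∀ i, IsOpen (B i)) ∧
      (∀ i, (B i).Nonempty) ∧ ∀ x, {i | x ∈ B i}.Countable := by
  refine ⟨{γ | ∃ x, g x γ ≠ 0}, fun γ => {x | g x γ.1 ≠ 0}, fun hc => ?_, fun γ => ?_,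
    fun γ => γ.2, fun x => ?_⟩
  · apply hK
    let g' : K → ({γ | ∃ x, g x γ ≠ 0} : Set Γ) → ℝ := fun x γ => g x γ.1
    have hg' : Continuous g' := continuous_pi fun γ => (continuous_apply γ.1).comp hg
    have hinj' : Function.Injective g' := by
      intro x y hxy
      apply hinj
      funext γ
      by_cases h : ∃ z, g z γ ≠ 0
      · exact congrFun hxy ⟨γ, h⟩
      · push Not at h
        rw [h x, h y]
    have hemb : IsClosedEmbedding g' := hg'.isClosedEmbedding hinj'
    have := hemb.isInducing.secondCountableTopology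
    infer_instance
  · exact isOpen_compl_singleton.preimage ((continuous_apply γ.1).comp hg)
  · exact (hcount x).preimage Subtype.val_injective

/-- First countable spaces are countably tight. -/
theorem tight_of_firstCountable {K : Type*} [TopologicalSpace K] [FirstCountableTopology K]
    (A : Set K) (x : K) (hx : x ∈ closure A) : ∃ C ⊆ A, C.Countable ∧ x ∈ closure C := by
  obtain ⟨u, hu, hlim⟩ := mem_closure_iff_seq_limit.1 hx
  refine ⟨range u, ?_, countable_range u, ?_⟩
  · rintro _ ⟨n, rfl⟩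
    exact hu n
  · exact mem_closure_of_tendsto hlim (Eventually.of_forall fun n => mem_range_self n)

end Pool.Agent.P52.Cov
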