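import Pool.Agent.P52.Cov.Meet

/-!
# Spaces of small tightness or small character
-/

namespace Pool.Agent.P52.Cov

open MeasureTheory Set Filter Topology
open scoped ENNReal

section

variable {κ : Cardinal.{0}}

theorem mk_finset_lt (h0 : Cardinal.aleph0 < κ) {α : Type} (h : Cardinal.mk α < κ) :
    Cardinal.mk (Finset α) < κ := by
  rcases finite_or_infinite α with hf | hi
  · exact (Cardinal.mk_le_aleph0 (α := Finset α)).trans_lt h0
  · rwa [Cardinal.mk_finset_of_infinite]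

theorem mk_Iio_lt_ord (i : κ.ord.ToType) : Cardinal.mk (Iio i) < κ := by
  have h := Cardinal.mk_Iio_lt i (by simp)
  simpa using h

theorem mk_Iic_lt_ord (h0 : Cardinal.aleph0 < κ) (i : κ.ord.ToType) :
    Cardinal.mk (Iic i) < κ := by
  rw [← Iio_union_right]
  refine (Cardinal.mk_union_le _ _).trans_lt (Cardinal.add_lt_of_lt h0.le (mk_Iio_lt_ord i) ?_)
  rw [Cardinal.mk_singleton]
  exact Cardinal.one_lt_aleph0.trans h0

theorem exists_gt_ord (h0 : Cardinal.aleph0 < κ) (i : κ.ord.ToType) : ∃ j, i < j := by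
  by_contra hcon
  push Not at hcon
  have h1 : (Iic i : Set κ.ord.ToType) = univ := eq_univ_of_forall hcon
  have h2 := mk_Iic_lt_ord h0 i
  rw [h1, Cardinal.mk_univ, Cardinal.mk_toType, Cardinal.card_ord] at h2
  exact lt_irrefl _ h2

/-- Small subsets of a regular cardinal are bounded. -/
theorem exists_upper_small (hκ : κ.IsRegular) {C : Type} (hC : Cardinal.mk C < κ)
    (b : C → κ.ord.ToType) : ∃ β, ∀ c, b c ≤ β := by
  by_contra hcon
  push Not at hcon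
  have h1 : (⋃ c, Iio (b c) : Set κ.ord.ToType) = univ := eq_univ_of_forall fun β => by
    obtain ⟨c, hc⟩ := hcon β
    exact mem_iUnion.2 ⟨c, hc⟩
  have h2 : Cardinal.mk (⋃ c, Iio (b c) : Set κ.ord.ToType) < κ :=
    (Cardinal.card_iUnion_lt_iff_forall_of_isRegular hκ hC).2 fun c => mk_Iio_lt_ord _
  rw [h1, Cardinal.mk_univ, Cardinal.mk_toType, Cardinal.card_ord] at h2
  exact lt_irrefl _ h2

/-- A compact space of tightness less than `κ` and density at least `κ` has a family of `κ`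
nonempty open sets such that each point is in fewer than `κ` of them. -/
theorem exists_family_of_tight_small (hκ : κ.IsRegular) (h0 : Cardinal.aleph0 < κ) {K : Type}
    [TopologicalSpace K] [CompactSpace K] [T2Space K]
    (hd : ∀ D : Set K, Cardinal.mk D < κ → ¬ Dense D)
    (ht : ∀ A : Set K, ∀ x ∈ closure A, ∃ C ⊆ A, Cardinal.mk C < κ ∧ x ∈ closure C) :
    ∃ B : κ.ord.ToType → Set K, (∀ i, IsOpen (B i)) ∧ (∀ i, (B i).Nonempty) ∧
      ∀ x, ∃ β, {i | x ∈ B i} ⊆ Iic β := by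
  let Dt := C(K, ℝ) × {D : Set K // Cardinal.mk D < κ}
  have hstep : ∀ (i : κ.ord.ToType) (F : ∀ j, j < i → Dt), ∃ p : Dt, (∃ x, p.1 x ≠ 0) ∧
      (∀ x ∈ closure (⋃ j : Iio i, (F j.1 j.2).2.1), p.1 x = 0) ∧
      ∀ x : K, ∃ y ∈ closure p.2.1, ∀ j (h : j < i), (F j h).1 y = (F j h).1 x := by
    intro i F
    have h1 : Cardinal.mk (⋃ j : Iio i, (F j.1 j.2).2.1 : Set K) < κ :=
      (Cardinal.card_iUnion_lt_iff_forall_of_isRegular hκ (mk_Iio_lt_ord i)).2
        fun j => (F j.1 j.2).2.2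
    have h2 : closure (⋃ j : Iio i, (F j.1 j.2).2.1) ≠ univ := fun h =>
      hd _ h1 (dense_iff_closure_eq.2 h)
    obtain ⟨a, ha⟩ := (ne_univ_iff_exists_notMem _).1 h2
    obtain ⟨g, hg0, hg1, -⟩ := exists_continuous_zero_one_of_isClosed
      (s := closure (⋃ j : Iio i, (F j.1 j.2).2.1)) (t := {a}) isClosed_closure
      isClosed_singleton (disjoint_singleton_right.2 ha)
    have hbase : ∀ s : Finset (Iio i), ∃ D : Set K, D.Countable ∧
        ∀ x : K, ∃ y ∈ closure D, ∀ j ∈ s, (F j.1 j.2).1 y = (F j.1 j.2).1 x := by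
      intro s
      have hG : Continuous fun x : K => fun j : s => (F j.1.1 j.1.2).1 x :=
        continuous_pi fun j => (F j.1.1 j.1.2).1.continuous
      obtain ⟨D, hD, -, hDG⟩ :=
        Pool.Agent.Results.MP_605315_lc.FibreHeights.base hG isClosed_univ
      refine ⟨D, hD, fun x => ?_⟩
      obtain ⟨y, hy, hyx⟩ := hDG ⟨x, mem_univ x, rfl⟩
      exact ⟨y, hy, fun j hj => congrFun hyx ⟨j, hj⟩⟩
    choose D hD hDx using hbase
    have hDc : Cardinal.mk (⋃ s, D s : Set K) < κ :=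
      (Cardinal.card_iUnion_lt_iff_forall_of_isRegular hκ
        (mk_finset_lt h0 (mk_Iio_lt_ord i))).2 fun s =>
          (Cardinal.le_aleph0_iff_set_countable.2 (hD s)).trans_lt h0
    refine ⟨(g, ⟨⋃ s, D s, hDc⟩), ⟨a, ?_⟩, fun x hx => ?_, fun x => ?_⟩
    · have h3 : g a = 1 := hg1 rfl
      change g a ≠ 0
      rw [h3]
      exact one_ne_zero
    · exact hg0 hx
    · classical
      let T : Finset (Iio i) → Set K := fun s => closure (⋃ s, D s) ∩ ⋂ j ∈ s,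
        {y | (F j.1 j.2).1 y = (F j.1 j.2).1 x}
      have hTc : ∀ s, IsClosed (T s) := fun s => isClosed_closure.inter
        (isClosed_biInter fun j _ => isClosed_eq (F j.1 j.2).1.continuous continuous_const)
      obtain ⟨y, hy⟩ := IsCompact.nonempty_iInter_of_directed_nonempty_isCompact_isClosed T (by
        intro s s'
        refine ⟨s ∪ s', ?_, ?_⟩
        · exact fun y hy => ⟨hy.1, mem_iInter₂.2 fun j hj =>
            mem_iInter₂.1 hy.2 j (Finset.mem_union_left _ hj)⟩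
        · exact fun y hy => ⟨hy.1, mem_iInter₂.2 fun j hj =>
            mem_iInter₂.1 hy.2 j (Finset.mem_union_right _ hj)⟩) (by
        intro s
        obtain ⟨y, hy, hyx⟩ := hDx s x
        exact ⟨y, closure_mono (subset_iUnion D s) hy, mem_iInter₂.2 fun j hj => hyx j hj⟩)
        (fun s => (hTc s).isCompact) hTc
      rw [mem_iInter] at hy
      refine ⟨y, (hy ∅).1, fun j h => ?_⟩
      exact mem_iInter₂.1 (hy {⟨j, h⟩}).2 ⟨j, h⟩ (Finset.mem_singleton_self _)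
  choose Φ hΦ1 hΦ2 hΦ3 using hstep
  let F : κ.ord.ToType → Dt := wellFounded_lt.fix Φ
  have hF : ∀ i, F i = Φ i fun j _ => F j := fun i => WellFounded.fix_eq _ _ _
  have hF1 : ∀ i, ∃ x, (F i).1 x ≠ 0 := fun i => by
    rw [hF i]
    exact hΦ1 i _
  have hF2 : ∀ i, ∀ x ∈ closure (⋃ j : Iio i, (F j.1).2.1), (F i).1 x = 0 := fun i x hx => by
    rw [hF i]
    exact hΦ2 i (fun j _ => F j) x hx
  have hF3 : ∀ i, ∀ x : K, ∃ y ∈ closure (F i).2.1, ∀ j < i, (F j).1 y = (F j).1 x := by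
    intro i x
    have h := hΦ3 i (fun j _ => F j) x
    rw [← hF i] at h
    exact h
  refine ⟨fun i => {x | (F i).1 x ≠ 0}, fun i => ?_, hF1, fun x => ?_⟩
  · exact isOpen_compl_singleton.preimage (F i).1.continuous
  · have hW : Nonempty κ.ord.ToType := by
      rw [← Cardinal.mk_ne_zero_iff, Cardinal.mk_toType, Cardinal.card_ord]
      exact (Cardinal.aleph0_pos.trans h0).ne'
    let T : κ.ord.ToType → Set K := fun i => closure (⋃ j, (F j).2.1) ∩ ⋂ j : Iio i,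
      {y | (F j.1).1 y = (F j.1).1 x}
    have hTc : ∀ i, IsClosed (T i) := fun i => isClosed_closure.inter
      (isClosed_iInter fun j => isClosed_eq (F j.1).1.continuous continuous_const)
    obtain ⟨y, hy⟩ := IsCompact.nonempty_iInter_of_directed_nonempty_isCompact_isClosed T (by
      intro i i'
      refine ⟨max i i', ?_, ?_⟩
      · exact fun y hy => ⟨hy.1, mem_iInter.2 fun j =>
          mem_iInter.1 hy.2 ⟨j.1, mem_Iio.2 (lt_of_lt_of_le (mem_Iio.1 j.2) (le_max_left i i'))⟩⟩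
      · exact fun y hy => ⟨hy.1, mem_iInter.2 fun j =>
          mem_iInter.1 hy.2 ⟨j.1,
            mem_Iio.2 (lt_of_lt_of_le (mem_Iio.1 j.2) (le_max_right i i'))⟩⟩) (by
      intro i
      obtain ⟨y, hy, hyx⟩ := hF3 i x
      exact ⟨y, closure_mono (subset_iUnion (fun j => (F j).2.1) i) hy,
        mem_iInter.2 fun j => hyx j.1 j.2⟩) (fun i => (hTc i).isCompact) hTc
    rw [mem_iInter] at hy
    have hyx : ∀ j, (F j).1 y = (F j).1 x := by
      intro j
      obtain ⟨i, hi⟩ := exists_gt_ord h0 j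
      exact mem_iInter.1 (hy i).2 ⟨j, hi⟩
    obtain ⟨C, hCs, hC, hyC⟩ := ht _ y (hy hW.some).1
    have h2 : ∀ c : C, ∃ j, c.1 ∈ (F j).2.1 := fun c => mem_iUnion.1 (hCs c.2)
    choose b hb using h2
    obtain ⟨β, hβ⟩ := exists_upper_small hκ hC b
    refine ⟨β, fun i hi => ?_⟩
    by_contra hiβ
    rw [mem_Iic, not_le] at hiβ
    apply hi
    rw [← hyx i]
    refine hF2 i y (closure_mono ?_ hyC)
    intro c hc
    exact mem_iUnion.2 ⟨⟨b ⟨c, hc⟩, lt_of_le_of_lt (hβ _) hiβ⟩, hb ⟨c, hc⟩⟩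

/-- Examples of density at least `κ` and tightness less than `κ` give a covering of the line by `κ`
null sets. -/
theorem cover_of_tight (hκ : κ.IsRegular) (h0 : Cardinal.aleph0 < κ) {K : Type}
    [TopologicalSpace K] [CompactSpace K] [T2Space K] [MeasurableSpace K] [BorelSpace K]
    {μ : Measure K} [IsFiniteMeasure μ] [μ.WeaklyRegular] [μ.IsOpenPosMeasure]
    {f : K → (ℕ → Bool)} (hf : Continuous f)
    (hs : ∀ t : ℕ → Bool, ∀ A : Set K, A ⊆ f ⁻¹' {t} → A.Nonempty →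
      ∃ x ∈ A, ∃ U : Set K, IsOpen U ∧ U ∩ A = {x})
    (hd : ∀ D : Set K, Cardinal.mk D < κ → ¬ Dense D)
    (ht : ∀ A : Set K, ∀ x ∈ closure A, ∃ C ⊆ A, Cardinal.mk C < κ ∧ x ∈ closure C) :
    ∃ S : Set (Set ℝ), Cardinal.mk S ≤ κ ∧ (∀ A ∈ S, volume A = 0) ∧ ⋃₀ S = univ := by
  by_contra hno
  obtain ⟨B, hB, hBne, hBx⟩ := exists_family_of_tight_small hκ h0 hd ht
  obtain ⟨E, hE, hEB⟩ := exists_countable_meet (μ := μ) hf hs B hB hBne h0.le
    (by rw [Cardinal.mk_toType, Cardinal.card_ord]) hno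
  choose β hβ using hBx
  obtain ⟨γ, hγ⟩ := exists_upper_small hκ
    ((Cardinal.le_aleph0_iff_set_countable.2 hE).trans_lt h0) fun e : E => β e.1
  obtain ⟨i, hi⟩ := exists_gt_ord h0 γ
  obtain ⟨e, heE, heB⟩ := hEB i
  exact absurd ((hβ e heB : i ≤ β e).trans (hγ ⟨e, heE⟩)) (not_le.2 hi)

/-- Examples of character less than `κ` give a covering of the line by `κ` null sets. -/
theorem cover_of_char (hκ : κ.IsRegular) (h0 : Cardinal.aleph0 < κ) {K : Type}
    [TopologicalSpace K] [CompactSpace K] [T2Space K] [MeasurableSpace K] [BorelSpace K]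
    {μ : Measure K} [IsFiniteMeasure μ] [μ.WeaklyRegular] [μ.IsOpenPosMeasure]
    (hK : ¬ TopologicalSpace.SeparableSpace K) {f : K → (ℕ → Bool)} (hf : Continuous f)
    (hs : ∀ t : ℕ → Bool, ∀ A : Set K, A ⊆ f ⁻¹' {t} → A.Nonempty →
      ∃ x ∈ A, ∃ U : Set K, IsOpen U ∧ U ∩ A = {x})
    (hχ : ∀ x : K, ∃ 𝓑 : Set (Set K), Cardinal.mk 𝓑 < κ ∧ (∀ U ∈ 𝓑, U ∈ 𝓝 x) ∧
      ∀ V ∈ 𝓝 x, ∃ U ∈ 𝓑, U ⊆ V) :
    ∃ S : Set (Set ℝ), Cardinal.mk S ≤ κ ∧ (∀ A ∈ S, volume A = 0) ∧ ⋃₀ S = univ := by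
  by_cases hd : ∀ D : Set K, Cardinal.mk D < κ → ¬ Dense D
  · refine cover_of_tight hκ h0 (μ := μ) hf hs hd fun A x hx => ?_
    obtain ⟨𝓑, h𝓑, h1, h2⟩ := hχ x
    have h3 : ∀ U : 𝓑, ∃ a ∈ A, a ∈ U.1 := fun U => by
      obtain ⟨a, haU, haA⟩ := mem_closure_iff_nhds.1 hx U.1 (h1 U.1 U.2)
      exact ⟨a, haA, haU⟩
    choose a haA haU using h3
    refine ⟨range a, ?_, Cardinal.mk_range_le.trans_lt h𝓑, ?_⟩
    · rintro _ ⟨U, rfl⟩
      exact haA U
    · rw [mem_closure_iff_nhds]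
      intro V hV
      obtain ⟨U, hU, hUV⟩ := h2 V hV
      exact ⟨a ⟨U, hU⟩, hUV (haU ⟨U, hU⟩), mem_range_self _⟩
  · push Not at hd
    obtain ⟨D, hD, hDd⟩ := hd
    by_contra hno
    choose 𝓑 h𝓑 h1 h2 using hχ
    have hι : Cardinal.mk (Σ d : D, 𝓑 d.1) ≤ κ := by
      rw [Cardinal.mk_sigma]
      exact (Cardinal.sum_lt_of_isRegular hκ hD fun d => h𝓑 d.1).le
    obtain ⟨E, hE, hEB⟩ := exists_countable_meet (μ := μ) hf hs
      (fun p : Σ d : D, 𝓑 d.1 => interior p.2.1) (fun p => isOpen_interior)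
      (fun p => ⟨p.1.1, mem_interior_iff_mem_nhds.2 (h1 _ _ p.2.2)⟩) h0.le hι hno
    apply hK
    refine ⟨E, hE, dense_iff_inter_open.2 fun U hU hUne => ?_⟩
    obtain ⟨d, hdU, hdD⟩ := hDd.inter_open_nonempty U hU hUne
    obtain ⟨V, hV, hVU⟩ := h2 d U (hU.mem_nhds hdU)
    obtain ⟨e, heE, heV⟩ := hEB ⟨⟨d, hdD⟩, ⟨V, hV⟩⟩
    exact ⟨e, hVU (interior_subset heV), heE⟩

end

end Pool.Agent.P52.Cov
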